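import Pool.Agent.R901.WR.Anti

/-!
A word satisfied with probability tending to one which is not a law.
-/

open Finset
open scoped commutatorElement

namespace Pool.Agent.R901.WR

namespace Dist
variable {G : Type} [Group G]

/-- the probability of the word `w` not being satisfied -/
lemma one_sub_lawProb (D : Dist G) {d : ℕ} (w : FreeGroup (Fin d)) (n : ℕ) :
    open Classical in
    1 - D.lawProb w n = (D.pow n).Ed d (fun g => if FreeGroup.lift g w = 1 then 0 else 1) := by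
  classical
  have h1 : 1 - D.lawProb w n = (D.pow n).Ed d (fun _ => 1) - D.lawProb w n := by
    rw [Ed_const]
  rw [h1]
  unfold lawProb Ed
  rw [← Finset.sum_sub_distrib]
  refine Finset.sum_congr rfl fun t _ => ?_
  dsimp only
  split_ifs <;> ring

lemma Ed_mono' (D : Dist G) (d : ℕ) {F F' : (Fin d → G) → ℝ}
    (h : ∀ t : Fin d → D.ι, F (fun i => D.st (t i)) ≤ F' (fun i => D.st (t i))) :
    D.Ed d F ≤ D.Ed d F' :=
  Finset.sum_le_sum fun t _ => mul_le_mul_of_nonneg_left (h _)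
    (Finset.prod_nonneg fun i _ => D.nn _)

lemma Ed_five (D : Dist G) (F : (Fin 5 → G) → ℝ) : D.Ed 5 F =
    D.E fun a => D.E fun b => D.E fun c => D.E fun e => D.E fun u => F ![a, b, c, e, u] := by
  rw [Ed_succ]
  congr 1; funext a
  rw [Ed_succ]
  congr 1; funext b
  rw [Ed_succ]
  congr 1; funext c
  rw [Ed_succ]
  congr 1; funext e
  rw [Ed_succ]
  congr 1; funext u
  rw [Ed_zero]
  rfl

end Dist

/-- the word `[[x₀, x₁], x₄ [x₂, x₃] x₄⁻¹]` -/
def w5 : FreeGroup (Fin 5) :=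
  ⁅⁅(FreeGroup.of 0 : FreeGroup (Fin 5)), (FreeGroup.of 1 : FreeGroup (Fin 5))⁆,
    (FreeGroup.of 4 : FreeGroup (Fin 5)) * ⁅(FreeGroup.of 2 : FreeGroup (Fin 5)),
      (FreeGroup.of 3 : FreeGroup (Fin 5))⁆ * (FreeGroup.of 4 : FreeGroup (Fin 5))⁻¹⁆

lemma lift_w5 {G : Type} [Group G] (a b c e u : G) :
    FreeGroup.lift ![a, b, c, e, u] w5 = ⁅⁅a, b⁆, u * ⁅c, e⁆ * u⁻¹⁆ := by
  unfold w5
  simp only [map_commutatorElement, map_mul, map_inv, FreeGroup.lift_apply_of]
  rfl

section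
variable {L A : Type} [Group L] [AddCommGroup A] [DecidableEq A]

/-- For fixed `x, y, z, v` the word fails only for few positions of `u`. -/
lemma fail_le (D : Dist (Wr L A)) (n m : ℕ) (B : ℝ)
    (hB : ∀ v : A, (D.pow n).E (fun g => if g.s = v then 1 else 0) ≤ B)
    (a b c e : Wr L A) (ha : Wr.SL m a) (hb : Wr.SL m b) (hc : Wr.SL m c) (he : Wr.SL m e) :
    open Classical in
    (D.pow n).E (fun u => if ⁅⁅a, b⁆, u * ⁅c, e⁆ * u⁻¹⁆ = 1 then 0 else 1) ≤
      (4 * m) * ((4 * m) * B) := by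
  classical
  obtain ⟨V, hV, h1⟩ := ha.comm hb
  obtain ⟨U, hU, h2⟩ := hc.comm he
  have hB0 : 0 ≤ B := le_trans (Dist.pow_nonneg D n fun g => by split_ifs <;> norm_num) (hB 0)
  have h3 : (D.pow n).E (fun u => if ⁅⁅a, b⁆, u * ⁅c, e⁆ * u⁻¹⁆ = 1 then 0 else 1) ≤
      (D.pow n).E (fun u => ∑ i ∈ V, ∑ j ∈ U, if u.s = i - j then (1 : ℝ) else 0) := by
    refine Dist.E_mono _ fun t => ?_
    set u := (D.pow n).st t
    by_cases h : ∃ i ∈ V, ∃ j ∈ U, u.s = i - j
    · obtain ⟨i, hi, j, hj, h⟩ := h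
      have h4 : (1 : ℝ) ≤ ∑ i ∈ V, ∑ j ∈ U, if u.s = i - j then (1 : ℝ) else 0 := by
        have a1 : ∑ j ∈ U, (if u.s = i - j then (1 : ℝ) else 0) ≤
            ∑ i ∈ V, ∑ j ∈ U, if u.s = i - j then (1 : ℝ) else 0 :=
          Finset.single_le_sum (f := fun i => ∑ j ∈ U, if u.s = i - j then (1 : ℝ) else 0)
            (fun i _ => Finset.sum_nonneg fun j _ => by split_ifs <;> norm_num) hi
        have a2 : (if u.s = i - j then (1 : ℝ) else 0) ≤
            ∑ j ∈ U, (if u.s = i - j then (1 : ℝ) else 0) :=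
          Finset.single_le_sum (f := fun j => if u.s = i - j then (1 : ℝ) else 0)
            (fun j _ => by split_ifs <;> norm_num) hj
        rw [if_pos h] at a2
        linarith
      refine le_trans ?_ h4
      split_ifs <;> norm_num
    · have h5 : ⁅⁅a, b⁆, u * ⁅c, e⁆ * u⁻¹⁆ = 1 := by
        rw [Wr.comm_eq_one_iff (Wr.comm_s _ _) (Wr.conj_s _ _ (Wr.comm_s _ _))]
        intro i
        rw [Wr.conj_f _ _ (Wr.comm_s _ _)]
        by_cases hi : i ∈ V
        · have hj : i - u.s ∉ U := fun hj => h ⟨i, hi, i - u.s, hj, by abel⟩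
          rw [h2 _ hj]
          simp
        · rw [h1 _ hi]
          simp
      rw [if_pos h5]
      exact Finset.sum_nonneg fun i _ => Finset.sum_nonneg fun j _ => by split_ifs <;> norm_num
  refine h3.trans ?_
  rw [Dist.E_sum]
  have h6 : ∀ i ∈ V, (D.pow n).E (fun u => ∑ j ∈ U, if u.s = i - j then (1 : ℝ) else 0) ≤
      (4 * m) * B := by
    intro i _
    rw [Dist.E_sum]
    calc _ ≤ ∑ j ∈ U, B := Finset.sum_le_sum fun j _ => hB _
      _ = U.card * B := by rw [Finset.sum_const, nsmul_eq_mul]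
      _ ≤ (4 * m) * B := by
        have : (U.card : ℝ) ≤ 4 * m := by
          have : U.card ≤ 4 * m := by omega
          exact_mod_cast this
        gcongr
  refine (Finset.sum_le_sum h6).trans ?_
  rw [Finset.sum_const, nsmul_eq_mul]
  have : (V.card : ℝ) ≤ 4 * m := by
    have : V.card ≤ 4 * m := by omega
    exact_mod_cast this
  gcongr

/-- The bound for the word `w5`. -/
lemma w5_bound (D : Dist (Wr L A)) (n m : ℕ) (B : ℝ)
    (hB : ∀ v : A, (D.pow n).E (fun g => if g.s = v then 1 else 0) ≤ B)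
    (hS : ∀ t, Wr.SL m ((D.pow n).st t)) :
    1 - D.lawProb w5 n ≤ (4 * m) * ((4 * m) * B) := by
  classical
  rw [Dist.one_sub_lawProb, Dist.Ed_five]
  refine Dist.E_le _ fun a => Dist.E_le _ fun b => Dist.E_le _ fun c => Dist.E_le _ fun e => ?_
  simp only [lift_w5]
  exact fail_le D n m B hB _ _ _ _ (hS a) (hS b) (hS c) (hS e)

end

/-! ### The group -/

/-- index of the nontrivial steps: switch - walk - switch -/
abbrev Sig (L : Type) := L × (Fin 6 → Bool) × L

variable {L : Type} [Group L]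

/-- the step -/
def stp (x : Sig L) : Wr L (Fin 6 → ℤ) := Wr.sws x.1 (sgv x.2.1) x.2.2

lemma sgv_ne_zero (ε : Fin 6 → Bool) : sgv ε ≠ 0 := by
  intro h
  have := congrFun h 0
  simp only [sgv, sg, Pi.zero_apply] at this
  split_ifs at this <;> simp at this

lemma sg_inj : Function.Injective sg := by
  intro a b h
  cases a <;> cases b <;> simp [sg] at h ⊢ <;> omega

lemma sgv_inj : Function.Injective sgv := by
  intro a b h
  funext j
  exact sg_inj (congrFun h j)

lemma stp_inj : Function.Injective (stp (L := L)) := by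
  rintro ⟨a, ε, b⟩ ⟨a', ε', b'⟩ h
  obtain ⟨h1, h2, h3⟩ := Wr.sws_inj (sgv_ne_zero ε) h
  simp only [Prod.mk.injEq]
  exact ⟨h1, sgv_inj h2, h3⟩

lemma stp_ne_one (x : Sig L) : stp x ≠ 1 := by
  intro h
  have := congrArg Wr.s h
  simp only [stp, Wr.sws_s, Wr.one_s] at this
  exact sgv_ne_zero _ this

lemma stp_inv (x : Sig L) : (stp x)⁻¹ = stp (x.2.2⁻¹, (fun j => !(x.2.1 j)), x.1⁻¹) := by
  unfold stp
  rw [Wr.sws_inv]
  congr 1
  funext j
  have hb : ∀ b : Bool, -(sg b) = sg (!b) := by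
    intro b
    cases b <;> simp [sg]
  exact hb _

/-- uniform distribution on an indexed family -/
noncomputable def Dist.unif {G ι : Type} [Fintype ι] [Nonempty ι] (st : ι → G) : Dist G where
  ι := ι
  fi := inferInstance
  p := fun _ => 1 / (Fintype.card ι : ℝ)
  st := st
  nn := fun _ => by positivity
  one := by
    rw [Finset.sum_const, Finset.card_univ, nsmul_eq_mul]
    have : (Fintype.card ι : ℝ) ≠ 0 := by
      exact_mod_cast Fintype.card_ne_zero
    field_simp

lemma Dist.lawProb_unif {G ι : Type} [Group G] [Fintype ι] [Nonempty ι] (st : ι → G) {d : ℕ}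
    (w : FreeGroup (Fin d)) (n : ℕ) : (Dist.unif st).lawProb w n =
    (Nat.card {t : Fin d → Fin n → ι //
      FreeGroup.lift (fun i => (List.ofFn fun k => st (t i k)).prod) w = 1} : ℝ) /
      (Fintype.card ι : ℝ) ^ (d * n) := by
  classical
  have h1 : (Dist.unif st).lawProb w n = ∑ t : Fin d → Fin n → ι,
      (∏ _i : Fin d, ∏ _k : Fin n, 1 / (Fintype.card ι : ℝ)) *
        (if FreeGroup.lift (fun i => (List.ofFn fun k => st (t i k)).prod) w = 1 then 1 else 0) :=
    rfl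
  rw [h1, ← Finset.mul_sum, Finset.sum_boole, Nat.card_eq_fintype_card, Fintype.card_subtype]
  simp only [Finset.prod_const, Finset.card_univ, Fintype.card_fin, one_div]
  rw [← pow_mul, inv_pow, mul_comm n d]
  ring

/-- the walk with steps uniform on `S ∪ {1}` -/
noncomputable def DU (L : Type) [Group L] [Fintype L] : Dist (Wr L (Fin 6 → ℤ)) :=
  Dist.unif (ι := Option (Sig L)) (fun o => o.elim 1 stp)

lemma card_sig (L : Type) [Fintype L] : Fintype.card (Sig L) = Fintype.card L ^ 2 * 64 := by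
  simp [Fintype.card_prod]
  ring

variable [Fintype L]

lemma DU_pos (F : (Fin 6 → ℤ) → ℝ) : (DU L).E (fun g => F g.s) =
    (1 - (Fintype.card (Sig L) : ℝ) / Fintype.card (Option (Sig L))) * F 0 +
      ((Fintype.card (Sig L) : ℝ) / Fintype.card (Option (Sig L))) *
        ((1 / 2 ^ 6) * ∑ ε : Fin 6 → Bool, F (sgv ε)) := by
  have hc : (Fintype.card (Option (Sig L)) : ℝ) = Fintype.card (Sig L) + 1 := by
    rw [Fintype.card_option]; push_cast; ring
  have h1 : (DU L).E (fun g => F g.s) = ∑ o : Option (Sig L),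
      (1 / (Fintype.card (Option (Sig L)) : ℝ)) * F (o.elim 1 stp : Wr L (Fin 6 → ℤ)).s := rfl
  rw [h1, ← Finset.mul_sum, Fintype.sum_option]
  simp only [Option.elim, Wr.one_s, stp, Wr.sws_s]
  have h2 : ∑ x : Sig L, F (sgv x.2.1) = (Fintype.card L : ℝ) ^ 2 *
      ∑ ε : Fin 6 → Bool, F (sgv ε) := by
    rw [Fintype.sum_prod_type]
    simp only [Fintype.sum_prod_type, Finset.sum_const, Finset.card_univ, nsmul_eq_mul,
      ← Finset.mul_sum]
    ring
  rw [h2, hc, card_sig]
  push_cast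
  field_simp
  ring

lemma DU_SL (n : ℕ) (t : ((DU L).pow n).ι) : Wr.SL (2 * n) (((DU L).pow n).st t) := by
  have h := Wr.SL.prod (m := 2) (List.ofFn fun k => (DU L).st (t k)) (by
    intro x hx
    rw [List.mem_ofFn] at hx
    obtain ⟨k, rfl⟩ := hx
    rcases h : t k with _ | a
    · exact Wr.SL.one.mono (by norm_num)
    · exact Wr.SL.sws _ _ _)
  rw [List.length_ofFn] at h
  exact h

lemma DU_anti (n : ℕ) (v : Fin 6 → ℤ) :
    ((DU L).pow n).E (fun g => if g.s = v then 1 else 0) ≤ 48 / ((n : ℝ) + 1) ^ 3 := by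
  have hc : (Fintype.card (Option (Sig L)) : ℝ) = Fintype.card (Sig L) + 1 := by
    rw [Fintype.card_option]; push_cast; ring
  have h0 : (1 : ℝ) ≤ Fintype.card (Sig L) := by
    have : 0 < Fintype.card (Sig L) := Fintype.card_pos_iff.2 ⟨(1, fun _ => true, 1)⟩
    exact_mod_cast this
  have h1 : (1 / 2 : ℝ) ≤ (Fintype.card (Sig L) : ℝ) / Fintype.card (Option (Sig L)) := by
    rw [hc, div_le_div_iff₀ (by norm_num) (by linarith)]
    linarith
  have h2 : (Fintype.card (Sig L) : ℝ) / Fintype.card (Option (Sig L)) ≤ 1 := by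
    rw [hc, div_le_one (by linarith)]
    linarith
  refine (anti (DU L) _ (by linarith) h2 DU_pos n v).trans ?_
  have h3 : (1 / 8 : ℝ) ≤ ((Fintype.card (Sig L) : ℝ) / Fintype.card (Option (Sig L))) ^ 3 := by
    calc (1 / 8 : ℝ) = (1 / 2) ^ 3 := by norm_num
      _ ≤ _ := by gcongr
  calc _ ≤ 6 / ((1 / 8) * ((n : ℝ) + 1) ^ 3) := by gcongr
    _ = _ := by field_simp; norm_num

lemma DU_bound (n : ℕ) : 1 - (DU L).lawProb w5 n ≤ 3072 / ((n : ℝ) + 1) := by
  refine (w5_bound (DU L) n (2 * n) _ (DU_anti n) (DU_SL n)).trans ?_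
  push_cast
  have h : (0 : ℝ) ≤ n := by positivity
  rw [show (4 * (2 * (n : ℝ))) * ((4 * (2 * n)) * (48 / ((n : ℝ) + 1) ^ 3)) =
    3072 * (n : ℝ) ^ 2 / ((n : ℝ) + 1) ^ 3 by ring]
  rw [div_le_div_iff₀ (by positivity) (by positivity)]
  have : (n : ℝ) ^ 2 ≤ ((n : ℝ) + 1) ^ 2 := by gcongr; linarith
  nlinarith [mul_nonneg h h]

end Pool.Agent.R901.WR
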