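import Mathlib

/-!
The unrestricted wreath product of a group `L` with an abelian group `A`.
-/

open scoped commutatorElement

namespace Pool.Agent.R901.WR

/-- Elements: a configuration `f : A → L` and a position `s : A`. -/
@[ext] structure Wr (L A : Type) where
  f : A → L
  s : A

namespace Wr

variable {L A : Type} [Group L] [AddCommGroup A]

instance : Mul (Wr L A) := ⟨fun x y => ⟨fun i => x.f i * y.f (i - x.s), x.s + y.s⟩⟩
instance : One (Wr L A) := ⟨⟨fun _ => 1, 0⟩⟩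
instance : Inv (Wr L A) := ⟨fun x => ⟨fun i => (x.f (i + x.s))⁻¹, -x.s⟩⟩

@[simp] lemma mul_f (x y : Wr L A) (i : A) : (x * y).f i = x.f i * y.f (i - x.s) := rfl
@[simp] lemma mul_s (x y : Wr L A) : (x * y).s = x.s + y.s := rfl
@[simp] lemma one_f (i : A) : (1 : Wr L A).f i = 1 := rfl
@[simp] lemma one_s : (1 : Wr L A).s = 0 := rfl
@[simp] lemma inv_f' (x : Wr L A) (i : A) : (x⁻¹).f i = (x.f (i + x.s))⁻¹ := rfl
@[simp] lemma inv_s' (x : Wr L A) : (x⁻¹).s = -x.s := rfl

instance : Group (Wr L A) := Group.ofLeftAxioms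
  (fun x y z => by
    ext i
    · simp [mul_assoc, sub_sub]
    · simp [add_assoc])
  (fun x => by
    ext i
    · simp
    · simp)
  (fun x => by
    ext i
    · simp
    · simp)

@[simp] lemma inv_f (x : Wr L A) (i : A) : (x⁻¹).f i = (x.f (i + x.s))⁻¹ := rfl
@[simp] lemma inv_s (x : Wr L A) : (x⁻¹).s = -x.s := rfl

lemma comm_s (x y : Wr L A) : (⁅x, y⁆).s = 0 := by
  simp [commutatorElement_def]

lemma comm_f (x y : Wr L A) (i : A) :
    (⁅x, y⁆).f i = x.f i * y.f (i - x.s) * (x.f (i - y.s))⁻¹ * (y.f i)⁻¹ := by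
  simp only [commutatorElement_def, mul_f, mul_s, inv_f, inv_s]
  congr 3
  · congr 2
    abel
  · congr 1
    abel

/-- For elements with position `0` the commutator is pointwise. -/
lemma comm_f_zero {x y : Wr L A} (hx : x.s = 0) (hy : y.s = 0) (i : A) :
    (⁅x, y⁆).f i = ⁅x.f i, y.f i⁆ := by
  rw [comm_f, hx, hy, sub_zero, commutatorElement_def]

lemma comm_eq_one_iff {x y : Wr L A} (hx : x.s = 0) (hy : y.s = 0) :
    ⁅x, y⁆ = 1 ↔ ∀ i, ⁅x.f i, y.f i⁆ = 1 := by
  constructor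
  · intro h i
    rw [← comm_f_zero hx hy, h]; rfl
  · intro h
    ext i
    · rw [comm_f_zero hx hy, h]; rfl
    · rw [comm_s]; rfl

lemma conj_s (u c : Wr L A) (hc : c.s = 0) : (u * c * u⁻¹).s = 0 := by
  simp [hc]

lemma conj_f (u c : Wr L A) (hc : c.s = 0) (i : A) :
    (u * c * u⁻¹).f i = u.f i * c.f (i - u.s) * (u.f i)⁻¹ := by
  simp only [mul_f, mul_s, inv_f, inv_s, hc]
  congr 3
  abel

/-- the lamp at the origin -/
def lamp [DecidableEq A] (a : L) : Wr L A := ⟨Pi.mulSingle 0 a, 0⟩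

/-- translation -/
def tr (τ : A) : Wr L A := ⟨fun _ => 1, τ⟩

variable [DecidableEq A]

@[simp] lemma lamp_s (a : L) : (lamp a : Wr L A).s = 0 := rfl
@[simp] lemma tr_s (τ : A) : (tr τ : Wr L A).s = τ := rfl
@[simp] lemma tr_f (τ i : A) : (tr τ : Wr L A).f i = 1 := rfl
lemma lamp_f (a : L) (i : A) : (lamp a : Wr L A).f i = if i = 0 then a else 1 := by
  simp only [lamp, Pi.mulSingle_apply]

lemma lamp_mul (a b : L) : (lamp (a * b) : Wr L A) = lamp a * lamp b := by
  ext i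
  · simp only [mul_f, lamp_f, lamp_s, sub_zero]
    split_ifs <;> simp
  · simp

lemma lamp_one : (lamp 1 : Wr L A) = 1 := by
  ext i
  · simp [lamp_f]
  · simp

lemma lamp_inv (a : L) : (lamp a⁻¹ : Wr L A) = (lamp a)⁻¹ := by
  rw [eq_inv_iff_mul_eq_one, ← lamp_mul]
  simp [lamp_one]

omit [DecidableEq A] in
lemma tr_add (τ σ : A) : (tr (τ + σ) : Wr L A) = tr τ * tr σ := by
  ext i <;> simp [tr]

omit [DecidableEq A] in
lemma tr_zero : (tr 0 : Wr L A) = 1 := by
  ext i <;> simp [tr]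

omit [DecidableEq A] in
lemma tr_neg (τ : A) : (tr (-τ) : Wr L A) = (tr τ)⁻¹ := by
  rw [eq_inv_iff_mul_eq_one, ← tr_add]
  simp [tr_zero]

/-- switch - walk - switch -/
def sws (a : L) (τ : A) (b : L) : Wr L A := lamp a * tr τ * lamp b

@[simp] lemma sws_s (a : L) (τ : A) (b : L) : (sws a τ b).s = τ := by simp [sws]

lemma sws_f (a : L) (τ : A) (b : L) (i : A) :
    (sws a τ b).f i = (if i = 0 then a else 1) * (if i = τ then b else 1) := by
  simp only [sws, mul_f, lamp_f, tr_f, mul_s, lamp_s, tr_s, zero_add, mul_one]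
  congr 2
  simp [sub_eq_zero]

lemma sws_inv (a : L) (τ : A) (b : L) : (sws a τ b)⁻¹ = sws b⁻¹ (-τ) a⁻¹ := by
  simp only [sws, mul_inv_rev, lamp_inv, tr_neg, mul_assoc]

lemma sws_inj {a b a' b' : L} {τ τ' : A} (hτ : τ ≠ 0) (h : sws a τ b = sws a' τ' b') :
    a = a' ∧ τ = τ' ∧ b = b' := by
  have h1 : τ = τ' := by
    have := congrArg Wr.s h
    simpa using this
  subst h1
  refine ⟨?_, rfl, ?_⟩
  · have := congrFun (congrArg Wr.f h) 0
    simpa [sws_f, hτ.symm] using this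
  · have := congrFun (congrArg Wr.f h) τ
    simpa [sws_f, hτ] using this

/-- at most `n` lamps are on -/
def SL (n : ℕ) (x : Wr L A) : Prop := ∃ V : Finset A, V.card ≤ n ∧ ∀ i, i ∉ V → x.f i = 1

lemma SL.mul {m n : ℕ} {x y : Wr L A} (hx : SL m x) (hy : SL n y) : SL (m + n) (x * y) := by
  obtain ⟨V, hV, h1⟩ := hx
  obtain ⟨U, hU, h2⟩ := hy
  refine ⟨V ∪ U.image (fun i => i + x.s), ?_, ?_⟩
  · exact le_trans (Finset.card_union_le _ _) (add_le_add hV (le_trans Finset.card_image_le hU))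
  · intro i hi
    rw [Finset.mem_union, not_or] at hi
    rw [mul_f, h1 i hi.1, h2, one_mul]
    intro h
    apply hi.2
    rw [Finset.mem_image]
    exact ⟨_, h, by abel⟩

lemma SL.inv {m : ℕ} {x : Wr L A} (hx : SL m x) : SL m x⁻¹ := by
  obtain ⟨V, hV, h1⟩ := hx
  refine ⟨V.image (fun i => i - x.s), le_trans Finset.card_image_le hV, ?_⟩
  intro i hi
  rw [inv_f, h1, inv_one]
  intro h
  apply hi
  rw [Finset.mem_image]
  exact ⟨_, h, by abel⟩

lemma SL.one : SL 0 (1 : Wr L A) := ⟨∅, by simp, fun i _ => rfl⟩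

lemma SL.mono {m n : ℕ} {x : Wr L A} (hx : SL m x) (h : m ≤ n) : SL n x := by
  obtain ⟨V, hV, h1⟩ := hx
  exact ⟨V, hV.trans h, h1⟩

lemma SL.comm {m n : ℕ} {x y : Wr L A} (hx : SL m x) (hy : SL n y) : SL (2 * (m + n)) ⁅x, y⁆ := by
  rw [commutatorElement_def]
  exact (((hx.mul hy).mul hx.inv).mul hy.inv).mono (by omega)

lemma SL.prod {m : ℕ} (l : List (Wr L A)) (h : ∀ x ∈ l, SL m x) : SL (m * l.length) l.prod := by
  induction l with
  | nil => simpa using SL.one
  | cons a l ih =>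
    rw [List.prod_cons, List.length_cons]
    exact ((h a (by simp)).mul (ih fun x hx => h x (by simp [hx]))).mono (by ring_nf; rfl)

lemma SL.sws (a : L) (τ : A) (b : L) : SL 2 (sws a τ b) := by
  refine ⟨{0, τ}, Finset.card_le_two, ?_⟩
  intro i hi
  simp only [Finset.mem_insert, Finset.mem_singleton, not_or] at hi
  rw [sws_f, if_neg hi.1, if_neg hi.2, one_mul]

end Wr

end Pool.Agent.R901.WR
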