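import Pool.Agent.R901.WR.Dist
import Pool.Agent.R901.WR.Wr

/-!
Anti-concentration of the position of a (lazy) walk on `ℤ ^ 6`.
-/

open Finset

namespace Pool.Agent.R901.WR

/-- the maximal binomial probability -/
noncomputable def cm (m : ℕ) : ℝ := (m.choose (m / 2) : ℝ) / 2 ^ m

lemma cm_nonneg (m : ℕ) : 0 ≤ cm m := by unfold cm; positivity

lemma choose_le_cm (m k : ℕ) : (m.choose k : ℝ) / 2 ^ m ≤ cm m := by
  unfold cm
  have : (m.choose k : ℝ) ≤ m.choose (m / 2) := by exact_mod_cast Nat.choose_le_middle k m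
  gcongr

lemma cm_odd (k : ℕ) : cm (2 * k + 1) = cm (2 * k) * ((2 * k + 1) / (2 * k + 2)) := by
  unfold cm
  have h1 : (2 * k + 1) / 2 = k := by omega
  have h2 : 2 * k / 2 = k := by omega
  rw [h1, h2]
  have h3 : (2 * k + 1).choose k * (k + 1) = (2 * k + 1) * (2 * k).choose k := by
    have := Nat.add_one_mul_choose_eq (2 * k) k
    have h4 : (2 * k + 1).choose k = (2 * k + 1).choose (k + 1) := by
      rw [← Nat.choose_symm_half]
    rw [h4, ← this]
  have h5 : ((2 * k + 1).choose k : ℝ) * (k + 1) = (2 * k + 1) * (2 * k).choose k := by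
    exact_mod_cast h3
  have h6 : ((2 * k + 1).choose k : ℝ) = (2 * k + 1) * (2 * k).choose k / (k + 1) := by
    rw [← h5]
    field_simp
  rw [h6, pow_succ]
  field_simp

lemma cm_even (k : ℕ) : cm (2 * k + 2) = cm (2 * k + 1) := by
  unfold cm
  have h1 : (2 * k + 2) / 2 = k + 1 := by omega
  have h2 : (2 * k + 1) / 2 = k := by omega
  rw [h1, h2]
  have h3 : (2 * k + 2).choose (k + 1) = 2 * (2 * k + 1).choose k := by
    rw [Nat.choose_succ_succ, ← Nat.choose_symm_half]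
    ring
  rw [h3, pow_succ 2 (2 * k + 1)]
  push_cast
  field_simp

lemma cm_sq (m : ℕ) : cm m ^ 2 * (m + 1) ≤ 1 := by
  have key : ∀ k : ℕ, cm (2 * k) ^ 2 * (2 * k + 1) ≤ 1 := by
    intro k
    induction k with
    | zero => simp [cm]
    | succ k ih =>
      have e : 2 * (k + 1) = 2 * k + 2 := by ring
      rw [e, cm_even, cm_odd]
      push_cast
      have h1 : (cm (2 * k) * ((2 * k + 1) / (2 * k + 2))) ^ 2 * (2 * ((k : ℝ) + 1) + 1) =
        (cm (2 * k) ^ 2 * (2 * k + 1)) * (((2 * k + 1) * (2 * k + 3)) / (2 * k + 2) ^ 2) := by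
        field_simp
        ring
      rw [h1]
      have h2 : (((2 * (k : ℝ) + 1) * (2 * k + 3)) / (2 * k + 2) ^ 2) ≤ 1 := by
        rw [div_le_one (by positivity)]
        nlinarith
      have h3 : 0 ≤ cm (2 * k) ^ 2 * (2 * k + 1) := by positivity
      calc _ ≤ cm (2 * k) ^ 2 * (2 * k + 1) * 1 := mul_le_mul_of_nonneg_left h2 h3
        _ ≤ 1 := by rw [mul_one]; exact ih
  rcases Nat.even_or_odd' m with ⟨k, rfl | rfl⟩
  · have := key k
    push_cast
    exact this
  · rw [cm_odd]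
    push_cast
    have h1 : (cm (2 * k) * ((2 * k + 1) / (2 * k + 2))) ^ 2 * (2 * (k : ℝ) + 1 + 1) =
        (cm (2 * k) ^ 2 * (2 * k + 1)) * ((2 * k + 1) / (2 * k + 2)) := by
      field_simp
      ring
    rw [h1]
    have h2 : ((2 * (k : ℝ) + 1) / (2 * k + 2)) ≤ 1 := by
      rw [div_le_one (by positivity)]
      linarith
    have h3 : 0 ≤ cm (2 * k) ^ 2 * (2 * k + 1) := by positivity
    calc _ ≤ cm (2 * k) ^ 2 * (2 * k + 1) * 1 := mul_le_mul_of_nonneg_left h2 h3
      _ ≤ 1 := by rw [mul_one]; exact key k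

/-- simple random walk on `ℤ` -/
noncomputable def fw : ℕ → ℤ → ℝ
  | 0, k => if k = 0 then 1 else 0
  | m + 1, k => (fw m (k - 1) + fw m (k + 1)) / 2

lemma fw_low (m : ℕ) : ∀ k : ℤ, k < -m → fw m k = 0 := by
  induction m with
  | zero => intro k hk; simp only [fw]; rw [if_neg]; rintro rfl; simp at hk
  | succ m ih =>
    intro k hk
    push_cast at hk
    rw [fw, ih _ (by linarith), ih _ (by linarith)]
    simp

lemma fw_odd (m : ℕ) : ∀ j : ℤ, fw m (2 * j + 1 - m) = 0 := by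
  induction m with
  | zero => intro j; simp only [fw]; rw [if_neg]; push_cast; omega
  | succ m ih =>
    intro j
    rw [fw]
    have h1 : (2 * j + 1 - ((m + 1 : ℕ) : ℤ)) - 1 = 2 * (j - 1) + 1 - m := by push_cast; ring
    have h2 : (2 * j + 1 - ((m + 1 : ℕ) : ℤ)) + 1 = 2 * j + 1 - m := by push_cast; ring
    rw [h1, h2, ih, ih]
    simp

lemma fw_even (m : ℕ) : ∀ j : ℕ, fw m (2 * j - m) = (m.choose j : ℝ) / 2 ^ m := by
  induction m with
  | zero =>
    intro j
    simp only [fw]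
    rcases j with _ | j
    · simp
    · rw [if_neg]
      · simp
      · push_cast; omega
  | succ m ih =>
    intro j
    rw [fw]
    rcases j with _ | j
    · have h1 : (2 * ((0 : ℕ) : ℤ) - ((m + 1 : ℕ) : ℤ)) - 1 < -m := by push_cast; linarith
      have h2 : (2 * ((0 : ℕ) : ℤ) - ((m + 1 : ℕ) : ℤ)) + 1 = 2 * ((0 : ℕ) : ℤ) - m := by
        push_cast; ring
      rw [fw_low _ _ h1, h2, ih, pow_succ]
      simp
      ring
    · have h1 : (2 * ((j + 1 : ℕ) : ℤ) - ((m + 1 : ℕ) : ℤ)) - 1 = 2 * (j : ℤ) - m := by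
        push_cast; ring
      have h2 : (2 * ((j + 1 : ℕ) : ℤ) - ((m + 1 : ℕ) : ℤ)) + 1 = 2 * ((j + 1 : ℕ) : ℤ) - m := by
        push_cast; ring
      rw [h1, h2, ih, ih, Nat.choose_succ_succ, pow_succ]
      push_cast
      ring

lemma fw_nonneg (m : ℕ) : ∀ k, 0 ≤ fw m k := by
  induction m with
  | zero => intro k; simp only [fw]; split_ifs <;> norm_num
  | succ m ih => intro k; rw [fw]; have := ih (k - 1); have := ih (k + 1); positivity

lemma fw_le (m : ℕ) (k : ℤ) : fw m k ≤ cm m := by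
  obtain ⟨j, hj⟩ : ∃ j : ℤ, k = 2 * j - m ∨ k = 2 * j + 1 - m := by
    refine ⟨(k + m) / 2, ?_⟩
    omega
  rcases hj with rfl | rfl
  · rcases lt_or_ge j 0 with h | h
    · rw [fw_low _ _ (by linarith)]
      exact cm_nonneg _
    · obtain ⟨i, rfl⟩ := Int.eq_ofNat_of_zero_le h
      rw [fw_even]
      exact choose_le_cm _ _
  · rw [fw_odd]
    exact cm_nonneg _

/-- signs -/
def sg (b : Bool) : ℤ := if b then 1 else -1

/-- sign vectors -/
def sgv (ε : Fin 6 → Bool) : Fin 6 → ℤ := fun j => sg (ε j)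

/-- simple random walk on `ℤ ^ 6` with independent coordinates -/
noncomputable def Fw (m : ℕ) (v : Fin 6 → ℤ) : ℝ := ∏ j, fw m (v j)

lemma Fw_zero (v : Fin 6 → ℤ) : Fw 0 v = if v = 0 then 1 else 0 := by
  unfold Fw
  simp only [fw]
  split_ifs with h
  · subst h
    simp
  · obtain ⟨j, hj⟩ := Function.ne_iff.1 h
    exact Finset.prod_eq_zero (Finset.mem_univ j) (if_neg hj)

lemma Fw_succ (m : ℕ) (v : Fin 6 → ℤ) :
    Fw (m + 1) v = (1 / 2 ^ 6) * ∑ ε : Fin 6 → Bool, Fw m (v - sgv ε) := by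
  unfold Fw
  have h1 : ∀ j, fw (m + 1) (v j) = ∑ b : Bool, (1 / 2) * fw m (v j - sg b) := by
    intro j
    rw [fw]
    simp only [Fintype.sum_bool, sg]
    simp
    ring
  simp only [h1]
  rw [Finset.prod_univ_sum, Fintype.piFinset_univ, Finset.mul_sum]
  refine Finset.sum_congr rfl fun ε _ => ?_
  rw [Finset.prod_mul_distrib]
  simp [sgv]

lemma Fw_le (m : ℕ) (v : Fin 6 → ℤ) : Fw m v ≤ 1 / ((m : ℝ) + 1) ^ 3 := by
  have h1 : Fw m v ≤ cm m ^ 6 := by
    unfold Fw
    have := Finset.prod_le_prod (s := (Finset.univ : Finset (Fin 6)))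
      (f := fun j => fw m (v j)) (g := fun _ => cm m)
      (fun j _ => fw_nonneg m _) (fun j _ => fw_le m _)
    simpa using this
  refine h1.trans ?_
  have h2 : cm m ^ 2 ≤ 1 / ((m : ℝ) + 1) := by
    rw [le_div_iff₀ (by positivity)]
    exact cm_sq m
  calc cm m ^ 6 = (cm m ^ 2) ^ 3 := by ring
    _ ≤ (1 / ((m : ℝ) + 1)) ^ 3 := by gcongr
    _ = _ := by rw [div_pow, one_pow]

/-- the averaging operator -/
noncomputable def Tw : Module.End ℝ ((Fin 6 → ℤ) → ℝ) where
  toFun F v := (1 / 2 ^ 6) * ∑ ε : Fin 6 → Bool, F (v - sgv ε)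
  map_add' F F' := by
    funext v
    simp only [Pi.add_apply, Finset.sum_add_distrib, mul_add]
  map_smul' c F := by
    funext v
    simp only [Pi.smul_apply, smul_eq_mul, ← Finset.mul_sum, RingHom.id_apply]
    ring

lemma Tw_pow (m : ℕ) : (Tw ^ m) (Fw 0) = Fw m := by
  induction m with
  | zero => simp
  | succ m ih =>
    rw [pow_succ', Module.End.mul_apply, ih]
    funext v
    rw [Fw_succ]
    rfl

lemma choose_smooth (n j : ℕ) : (n.choose j : ℝ) * ((n + 1) * (n + 2) * (n + 3)) =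
    ((n + 3).choose (j + 3) : ℝ) * ((j + 1) * (j + 2) * (j + 3)) := by
  have h1 := Nat.add_one_mul_choose_eq n j
  have h2 := Nat.add_one_mul_choose_eq (n + 1) (j + 1)
  have h3 := Nat.add_one_mul_choose_eq (n + 2) (j + 2)
  have h1' : ((n : ℝ) + 1) * n.choose j = (n + 1).choose (j + 1) * (j + 1) := by
    exact_mod_cast h1
  have h2' : ((n : ℝ) + 2) * (n + 1).choose (j + 1) = (n + 2).choose (j + 2) * (j + 2) := by
    have : (((n + 1 + 1) * (n + 1).choose (j + 1) : ℕ) : ℝ) =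
      (((n + 1 + 1).choose (j + 1 + 1) * (j + 1 + 1) : ℕ) : ℝ) := by exact_mod_cast h2
    push_cast at this
    linarith
  have h3' : ((n : ℝ) + 3) * (n + 2).choose (j + 2) = (n + 3).choose (j + 3) * (j + 3) := by
    have : (((n + 2 + 1) * (n + 2).choose (j + 2) : ℕ) : ℝ) =
      (((n + 2 + 1).choose (j + 2 + 1) * (j + 2 + 1) : ℕ) : ℝ) := by exact_mod_cast h3
    push_cast at this
    linarith
  calc (n.choose j : ℝ) * ((n + 1) * (n + 2) * (n + 3))
      = (((n : ℝ) + 1) * n.choose j) * ((n + 2) * (n + 3)) := by ring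
    _ = ((((n : ℝ) + 2) * (n + 1).choose (j + 1)) * (n + 3)) * (j + 1) := by rw [h1']; ring
    _ = (((n : ℝ) + 3) * (n + 2).choose (j + 2)) * ((j + 1) * (j + 2)) := by rw [h2']; ring
    _ = _ := by rw [h3']; ring

lemma smooth (n : ℕ) (p : ℝ) (hp : 0 < p) (hp1 : p ≤ 1) :
    ∑ m ∈ antidiagonal n, (n.choose m.1 : ℝ) * ((1 - p) ^ m.1 * (p ^ m.2 *
      (1 / ((m.2 : ℝ) + 1) ^ 3))) ≤ 6 / (p ^ 3 * ((n : ℝ) + 1) ^ 3) := by
  have hq : 0 ≤ 1 - p := by linarith
  have hb := add_pow p (1 - p) (n + 3)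
  rw [show p + (1 - p) = 1 by ring, one_pow] at hb
  have h1 : ∑ j ∈ range (n + 1), p ^ (j + 3) * (1 - p) ^ (n - j) * ((n + 3).choose (j + 3) : ℝ)
      ≤ 1 := by
    refine le_trans ?_ hb.symm.le
    rw [Finset.sum_range_succ' _ (n + 3), Finset.sum_range_succ' _ (n + 2),
      Finset.sum_range_succ' _ (n + 1)]
    have : ∑ j ∈ range (n + 1), p ^ (j + 3) * (1 - p) ^ (n - j) * ((n + 3).choose (j + 3) : ℝ) =
      ∑ k ∈ range (n + 1), p ^ (k + 1 + 1 + 1) * (1 - p) ^ (n + 3 - (k + 1 + 1 + 1)) *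
        ((n + 3).choose (k + 1 + 1 + 1) : ℝ) := by
      refine Finset.sum_congr rfl fun k _ => ?_
      have e : n + 3 - (k + 1 + 1 + 1) = n - k := by omega
      rw [e]
    rw [this]
    have a1 : 0 ≤ p ^ (0 + 1 + 1) * (1 - p) ^ (n + 3 - (0 + 1 + 1)) *
      ((n + 3).choose (0 + 1 + 1) : ℝ) := by positivity
    have a2 : 0 ≤ p ^ (0 + 1) * (1 - p) ^ (n + 3 - (0 + 1)) * ((n + 3).choose (0 + 1) : ℝ) := by
      positivity
    have a3 : 0 ≤ p ^ 0 * (1 - p) ^ (n + 3 - 0) * ((n + 3).choose 0 : ℝ) := by positivity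
    linarith
  have h2 : ∑ m ∈ antidiagonal n, (n.choose m.1 : ℝ) * ((1 - p) ^ m.1 * (p ^ m.2 *
      (1 / ((m.2 : ℝ) + 1) ^ 3))) = ∑ j ∈ range (n + 1), (n.choose j : ℝ) * ((1 - p) ^ (n - j) *
        (p ^ j * (1 / ((j : ℝ) + 1) ^ 3))) := by
    rw [← Finset.Nat.sum_antidiagonal_swap, Finset.Nat.sum_antidiagonal_eq_sum_range_succ_mk]
    refine Finset.sum_congr rfl fun j hj => ?_
    rw [Finset.mem_range] at hj
    simp only [Prod.swap_prod_mk]
    rw [Nat.choose_symm (by omega)]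
  rw [h2]
  have h3 : ∀ j ∈ range (n + 1), (n.choose j : ℝ) * ((1 - p) ^ (n - j) *
        (p ^ j * (1 / ((j : ℝ) + 1) ^ 3))) ≤ (6 / (p ^ 3 * ((n + 1) * (n + 2) * (n + 3)))) *
        (p ^ (j + 3) * (1 - p) ^ (n - j) * ((n + 3).choose (j + 3) : ℝ)) := by
    intro j _
    have hc := choose_smooth n j
    have hc' : ((n + 3).choose (j + 3) : ℝ) = (n.choose j : ℝ) * ((n + 1) * (n + 2) * (n + 3)) /
        (((j : ℝ) + 1) * (j + 2) * (j + 3)) := by
      rw [hc]; field_simp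
    rw [hc']
    have e : (6 / (p ^ 3 * (((n : ℝ) + 1) * (n + 2) * (n + 3)))) *
        (p ^ (j + 3) * (1 - p) ^ (n - j) * ((n.choose j : ℝ) * ((n + 1) * (n + 2) * (n + 3)) /
        (((j : ℝ) + 1) * (j + 2) * (j + 3)))) =
        (n.choose j : ℝ) * ((1 - p) ^ (n - j) * (p ^ j * (6 /
          (((j : ℝ) + 1) * (j + 2) * (j + 3))))) := by
      rw [pow_add]
      field_simp
    rw [e]
    have h4 : 1 / ((j : ℝ) + 1) ^ 3 ≤ 6 / (((j : ℝ) + 1) * (j + 2) * (j + 3)) := by
      rw [div_le_div_iff₀ (by positivity) (by positivity)]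
      have : (0 : ℝ) ≤ j := by positivity
      nlinarith [mul_nonneg this this, mul_nonneg (mul_nonneg this this) this]
    gcongr
  refine (Finset.sum_le_sum h3).trans ?_
  rw [← Finset.mul_sum]
  calc _ ≤ (6 / (p ^ 3 * (((n : ℝ) + 1) * (n + 2) * (n + 3)))) * 1 := by
        gcongr
    _ ≤ _ := by
      rw [mul_one]
      have : ((n : ℝ) + 1) ^ 3 ≤ ((n : ℝ) + 1) * (n + 2) * (n + 3) := by
        have : (0 : ℝ) ≤ n := by positivity
        nlinarith [mul_nonneg this this]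
      gcongr

/-- Anti-concentration for a walk whose position makes, with probability `p`, a step with
independent uniform signs in the six coordinates and stays otherwise. -/
theorem anti {L : Type} [Group L] (D : Dist (Wr L (Fin 6 → ℤ))) (p : ℝ) (hp : 0 < p) (hp1 : p ≤ 1)
    (hD : ∀ F : (Fin 6 → ℤ) → ℝ, D.E (fun g => F g.s) =
      (1 - p) * F 0 + p * ((1 / 2 ^ 6) * ∑ ε : Fin 6 → Bool, F (sgv ε)))
    (n : ℕ) (v : Fin 6 → ℤ) :
    (D.pow n).E (fun g => if g.s = v then 1 else 0) ≤ 6 / (p ^ 3 * ((n : ℝ) + 1) ^ 3) := by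
  have key : ∀ n : ℕ, (fun v => (D.pow n).E (fun g => if g.s = v then (1 : ℝ) else 0)) =
      (((1 - p) • (1 : Module.End ℝ ((Fin 6 → ℤ) → ℝ)) + p • Tw) ^ n) (Fw 0) := by
    intro n
    induction n with
    | zero =>
      funext v
      rw [Dist.E_pow_zero, pow_zero, Module.End.one_apply, Fw_zero]
      simp only [Wr.one_s]
      congr 1
      exact propext eq_comm
    | succ n ih =>
      rw [pow_succ', Module.End.mul_apply, ← ih]
      funext v
      rw [Dist.E_pow_succ]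
      have h1 : D.E (fun s => (D.pow n).E (fun g => if (s * g).s = v then (1 : ℝ) else 0)) =
        D.E (fun s => (fun u : Fin 6 → ℤ => (D.pow n).E (fun g => if g.s = v - u
          then (1 : ℝ) else 0)) s.s) := by
        congr 1
        funext s
        dsimp only
        congr 1
        funext g
        congr 1
        rw [Wr.mul_s]
        exact propext ⟨fun h => by rw [← h]; abel, fun h => by rw [h]; abel⟩
      rw [h1, hD (fun u : Fin 6 → ℤ => (D.pow n).E (fun g => if g.s = v - u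
          then (1 : ℝ) else 0))]
      simp only [LinearMap.add_apply, LinearMap.smul_apply, Module.End.one_apply, Pi.add_apply,
        Pi.smul_apply, smul_eq_mul, sub_zero]
      rfl
  have h2 := congrFun (key n) v
  rw [h2]
  have hc : Commute ((1 - p) • (1 : Module.End ℝ ((Fin 6 → ℤ) → ℝ))) (p • Tw) :=
    (Commute.smul_left (Commute.one_left _) _)
  rw [hc.add_pow']
  simp only [LinearMap.sum_apply, Finset.sum_apply]
  refine le_trans (Finset.sum_le_sum fun m _ => ?_) (smooth n p hp hp1)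
  have e : ((n.choose m.1) • (((1 - p) • (1 : Module.End ℝ ((Fin 6 → ℤ) → ℝ))) ^ m.1 *
      (p • Tw) ^ m.2)) (Fw 0) v =
      (n.choose m.1 : ℝ) * ((1 - p) ^ m.1 * (p ^ m.2 * Fw m.2 v)) := by
    rw [smul_pow, smul_pow, one_pow, ← Nat.cast_smul_eq_nsmul ℝ]
    simp only [LinearMap.smul_apply, Module.End.mul_apply, Module.End.one_apply, Tw_pow,
      Pi.smul_apply, smul_eq_mul]
  rw [e]
  have hq : 0 ≤ 1 - p := by linarith
  have := Fw_le m.2 v
  gcongr

end Pool.Agent.R901.WR
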