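import Pool.Agent.R901.WR.Dist

/-!
Step distributions as functions on the group.
-/

open Finset

namespace Pool.Agent.R901.WR

/-- A finitely supported probability measure on `G` whose support generates `G` and which gives
positive mass to the identity. -/
structure IsStep {G : Type} [Group G] (μ : G → ℝ) : Prop where
  finite_support : (Function.support μ).Finite
  nonneg : ∀ g, 0 ≤ μ g
  total : ∑ᶠ g, μ g = 1
  generates : Subgroup.closure (Function.support μ) = ⊤
  lazy : 0 < μ 1

/-- `stepProb μ w n`: the probability that `w = 1` holds for the positions `g₁, …, g_d` after `n`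
steps of `d` independent random walks with step distribution `μ`: the sum over the `d`-tuples of
`n`-step sequences in the support of `μ` whose products satisfy `w = 1` of the products of the
step probabilities. -/
noncomputable def stepProb {G : Type} [Group G] (μ : G → ℝ) {d : ℕ} (w : FreeGroup (Fin d))
    (n : ℕ) : ℝ :=
  open Classical in
  ∑ᶠ t : Fin d → Fin n → ↥(Function.support μ), (∏ i, ∏ k, μ (t i k)) *
    (if FreeGroup.lift (fun i => (List.ofFn fun k => (t i k : G)).prod) w = 1 then 1 else 0)

namespace Dist

variable {G : Type}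

/-- the probability mass function -/
noncomputable def push (D : Dist G) (g : G) : ℝ :=
  open Classical in D.E (fun x => if x = g then 1 else 0)

lemma push_nonneg (D : Dist G) (g : G) : 0 ≤ D.push g := by
  classical
  exact E_nonneg _ fun i => by split_ifs <;> norm_num

lemma push_pos (D : Dist G) (i : D.ι) (h : 0 < D.p i) : 0 < D.push (D.st i) := by
  classical
  have h1 : D.p i * (if D.st i = D.st i then (1 : ℝ) else 0) ≤ D.push (D.st i) :=
    Finset.single_le_sum (f := fun j => D.p j * (if D.st j = D.st i then (1 : ℝ) else 0))
      (fun j _ => mul_nonneg (D.nn j) (by split_ifs <;> norm_num)) (Finset.mem_univ i)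
  rw [if_pos rfl, mul_one] at h1
  linarith

lemma push_support (D : Dist G) : Function.support D.push = {g | ∃ i, 0 < D.p i ∧ D.st i = g} := by
  classical
  ext g
  constructor
  · intro hg
    by_contra hn
    apply hg
    unfold push E
    refine Finset.sum_eq_zero fun i _ => ?_
    dsimp only
    by_cases h : D.st i = g
    · have : ¬ 0 < D.p i := fun h1 => hn ⟨i, h1, h⟩
      have h2 : D.p i = 0 := le_antisymm (not_lt.1 this) (D.nn i)
      rw [h2, zero_mul]
    · rw [if_neg h, mul_zero]
  · rintro ⟨i, hi, rfl⟩
    exact (D.push_pos i hi).ne'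

lemma push_finite (D : Dist G) : (Function.support D.push).Finite := by
  rw [push_support]
  refine (Set.finite_range D.st).subset ?_
  rintro g ⟨i, _, rfl⟩
  exact ⟨i, rfl⟩

lemma sum_push (D : Dist G) [Fintype ↥(Function.support D.push)] (F : G → ℝ) :
    ∑ s : ↥(Function.support D.push), D.push s * F s = D.E F := by
  classical
  have h1 : ∀ s : ↥(Function.support D.push), D.push s * F s =
      ∑ i, D.p i * ((if D.st i = s then (1 : ℝ) else 0) * F s) := by
    intro s
    rw [push, E, Finset.sum_mul]
    exact Finset.sum_congr rfl fun i _ => by ring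
  rw [Finset.sum_congr rfl fun s _ => h1 s, Finset.sum_comm]
  refine Finset.sum_congr rfl fun i _ => ?_
  rw [← Finset.mul_sum]
  rcases (D.nn i).eq_or_lt with h | h
  · rw [← h, zero_mul, zero_mul]
  · congr 1
    have hm : D.st i ∈ Function.support D.push := (D.push_pos i h).ne'
    rw [Finset.sum_eq_single (⟨D.st i, hm⟩ : ↥(Function.support D.push))]
    · simp
    · intro s _ hs
      rw [if_neg, zero_mul]
      intro h2
      apply hs
      exact Subtype.ext h2.symm
    · intro h2
      exact absurd (Finset.mem_univ _) h2

/-- the distribution indexed by the support -/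
noncomputable def onSupp (D : Dist G) : Dist G :=
  letI : Fintype ↥(Function.support D.push) := D.push_finite.fintype
  { ι := ↥(Function.support D.push)
    fi := D.push_finite.fintype
    p := fun s => D.push s
    st := fun s => s
    nn := fun s => D.push_nonneg s
    one := by
      have := D.sum_push (fun _ => 1)
      simp only [mul_one] at this
      rw [this, E_const] }

lemma onSupp_E (D : Dist G) (F : G → ℝ) : D.onSupp.E F = D.E F := by
  letI : Fintype ↥(Function.support D.push) := D.push_finite.fintype
  rw [← D.sum_push F]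
  rfl

lemma stepProb_push [Group G] (D : Dist G) {d : ℕ} (w : FreeGroup (Fin d)) (n : ℕ) :
    stepProb D.push w n = D.lawProb w n := by
  classical
  letI : Fintype ↥(Function.support D.push) := D.push_finite.fintype
  rw [← lawProb_congr D.onSupp_E w n]
  unfold stepProb
  rw [finsum_eq_sum_of_fintype]
  rfl

lemma isStep_push [Group G] (D : Dist G) (hg : Subgroup.closure {g | ∃ i, 0 < D.p i ∧ D.st i = g} = ⊤)
    (i : D.ι) (hi : 0 < D.p i) (h1 : D.st i = 1) : IsStep D.push where
  finite_support := D.push_finite
  nonneg := D.push_nonneg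
  total := by
    letI : Fintype ↥(Function.support D.push) := D.push_finite.fintype
    rw [← finsum_mem_support, finsum_mem_eq_finite_toFinset_sum _ D.push_finite]
    have := D.sum_push (fun _ => 1)
    simp only [mul_one, E_const] at this
    rw [← this]
    refine Finset.sum_subtype _ (fun x => ?_) _
    simp
  generates := by rw [push_support]; exact hg
  lazy := by rw [← h1]; exact D.push_pos i hi

/-- restriction to a subgroup containing all outcomes -/
def toSub [Group G] (D : Dist G) (H : Subgroup G) (h : ∀ i, D.st i ∈ H) : Dist H where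
  ι := D.ι
  fi := D.fi
  p := D.p
  st := fun i => ⟨D.st i, h i⟩
  nn := D.nn
  one := D.one

lemma toSub_lawProb [Group G] (D : Dist G) (H : Subgroup G) (h : ∀ i, D.st i ∈ H) {d : ℕ}
    (w : FreeGroup (Fin d)) (n : ℕ) : (D.toSub H h).lawProb w n = D.lawProb w n := by
  rw [← lawProb_map H.subtype Subtype.val_injective]
  exact lawProb_congr (fun F => rfl) w n

/-- generation inside a subgroup -/
lemma closure_toSub [Group G] (D : Dist G) (H : Subgroup G) (h : ∀ i, D.st i ∈ H)
    (hg : H ≤ Subgroup.closure {g | ∃ i, 0 < D.p i ∧ D.st i = g}) :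
    Subgroup.closure {g | ∃ i, 0 < (D.toSub H h).p i ∧ (D.toSub H h).st i = g} = ⊤ := by
  apply Subgroup.map_injective (Subgroup.subtype_injective H)
  rw [MonoidHom.map_closure, ← MonoidHom.range_eq_map, Subgroup.range_subtype]
  have h1 : (H.subtype '' {g | ∃ i, 0 < (D.toSub H h).p i ∧ (D.toSub H h).st i = g}) =
      {g | ∃ i, 0 < D.p i ∧ D.st i = g} := by
    ext g
    constructor
    · rintro ⟨_, ⟨i, hi, rfl⟩, rfl⟩
      exact ⟨i, hi, rfl⟩
    · rintro ⟨i, hi, rfl⟩
      exact ⟨_, ⟨i, hi, rfl⟩, rfl⟩
  rw [h1]
  refine le_antisymm ?_ hg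
  rw [Subgroup.closure_le]
  rintro _ ⟨i, _, rfl⟩
  exact h i

end Dist

end Pool.Agent.R901.WR
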