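import Pool.Agent.R901.WR.Anti
import Pool.Agent.R901.WR.Push

/-!
The wreath product `L ≀ ℤ`: a drifted walk satisfies `[[x,y],[z⁻¹,v⁻¹]] = 1` with positive
probability, a centred walk with probability tending to zero.
-/

open Finset Filter Topology
open scoped commutatorElement

namespace Pool.Agent.R901.WR

/-! ### The drifted walk -/

section Drift

variable (L : Type) [Group L] [Fintype L]

/-- drifted walk: `t` with probability `1/2`, `t⁻¹` with probability `1/4`, a uniform lamp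
with probability `1/4` -/
noncomputable def Dn : Dist (Wr L ℤ) where
  ι := Option (Option L)
  fi := inferInstance
  p := fun o => o.elim (1 / 2) fun o => o.elim (1 / 4) fun _ => 1 / (4 * Fintype.card L)
  st := fun o => o.elim (Wr.tr 1) fun o => o.elim (Wr.tr (-1)) fun a => Wr.lamp a
  nn := by
    rintro (_ | _ | a) <;> simp
  one := by
    rw [Fintype.sum_option, Fintype.sum_option]
    simp only [Option.elim, Finset.sum_const, Finset.card_univ, nsmul_eq_mul]
    have : (Fintype.card L : ℝ) ≠ 0 := by exact_mod_cast Fintype.card_ne_zero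
    field_simp
    norm_num

variable {L}

lemma Dn_E (F : Wr L ℤ → ℝ) : (Dn L).E F = 1 / 2 * F (Wr.tr 1) + (1 / 4 * F (Wr.tr (-1)) +
    ∑ a : L, 1 / (4 * Fintype.card L) * F (Wr.lamp a)) := by
  unfold Dist.E
  have : ∀ f : Option (Option L) → ℝ, ∑ i : (Dn L).ι, f i = ∑ i : Option (Option L), f i :=
    fun f => rfl
  rw [this, Fintype.sum_option, Fintype.sum_option]
  rfl

/-- all lamps at sites `≥ 1 - j`, and position `≥ 1 - j` -/
def Gd (j : ℤ) (x : Wr L ℤ) : Prop := (∀ i, i < 1 - j → x.f i = 1) ∧ 1 - j ≤ x.s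

lemma Dn_good (n : ℕ) : ∀ j : ℕ, open Classical in
    1 - (1 / 2 : ℝ) ^ j ≤ ((Dn L).pow n).E (fun x => if Gd (j : ℤ) x then 1 else 0) := by
  classical
  induction n with
  | zero =>
    intro j
    rw [Dist.E_pow_zero]
    rcases j with _ | j
    · split_ifs <;> norm_num
    · rw [if_pos]
      · have : (0 : ℝ) < (1 / 2) ^ (j + 1) := by positivity
        linarith
      · refine ⟨fun i _ => rfl, ?_⟩
        simp
  | succ n ih =>
    intro j
    rcases j with _ | j
    · simp only [pow_zero, sub_self]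
      exact Dist.pow_nonneg _ _ fun g => by split_ifs <;> norm_num
    · rw [Dist.E_pow_succ, Dn_E]
      have e1 : ((Dn L).pow n).E (fun x => if Gd ((j + 2 : ℕ) : ℤ) x then (1 : ℝ) else 0) ≤
          ((Dn L).pow n).E (fun g => if Gd ((j + 1 : ℕ) : ℤ) (Wr.tr 1 * g) then 1 else 0) := by
        refine Dist.E_mono _ fun i => ?_
        set g := ((Dn L).pow n).st i
        by_cases h : Gd ((j + 2 : ℕ) : ℤ) g
        · have : Gd ((j + 1 : ℕ) : ℤ) (Wr.tr 1 * g) := by
            obtain ⟨h1, h2⟩ := h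
            push_cast at h1 h2
            refine ⟨fun i hi => ?_, ?_⟩
            · rw [Wr.mul_f, Wr.tr_f, one_mul]
              apply h1
              push_cast at hi
              simp only [Wr.tr_s]
              linarith
            · push_cast
              simp only [Wr.mul_s, Wr.tr_s]
              linarith
          rw [if_pos h, if_pos this]
        · rw [if_neg h]; split_ifs <;> norm_num
      have e2 : ((Dn L).pow n).E (fun x => if Gd ((j : ℕ) : ℤ) x then (1 : ℝ) else 0) ≤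
          ((Dn L).pow n).E (fun g => if Gd ((j + 1 : ℕ) : ℤ) (Wr.tr (-1) * g) then 1 else 0) := by
        refine Dist.E_mono _ fun i => ?_
        set g := ((Dn L).pow n).st i
        by_cases h : Gd ((j : ℕ) : ℤ) g
        · have : Gd ((j + 1 : ℕ) : ℤ) (Wr.tr (-1) * g) := by
            obtain ⟨h1, h2⟩ := h
            refine ⟨fun i hi => ?_, ?_⟩
            · rw [Wr.mul_f, Wr.tr_f, one_mul]
              apply h1
              push_cast at hi
              simp only [Wr.tr_s]
              linarith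
            · push_cast
              simp only [Wr.mul_s, Wr.tr_s]
              linarith
          rw [if_pos h, if_pos this]
        · rw [if_neg h]; split_ifs <;> norm_num
      have e3 : ∀ a : L, ((Dn L).pow n).E (fun x => if Gd ((j + 1 : ℕ) : ℤ) x
          then (1 : ℝ) else 0) ≤
          ((Dn L).pow n).E (fun g => if Gd ((j + 1 : ℕ) : ℤ) (Wr.lamp a * g) then 1 else 0) := by
        intro a
        refine Dist.E_mono _ fun i => ?_
        set g := ((Dn L).pow n).st i
        by_cases h : Gd ((j + 1 : ℕ) : ℤ) g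
        · have : Gd ((j + 1 : ℕ) : ℤ) (Wr.lamp a * g) := by
            obtain ⟨h1, h2⟩ := h
            refine ⟨fun i hi => ?_, ?_⟩
            · have hi' := hi
              push_cast at hi
              rw [Wr.mul_f, Wr.lamp_f, if_neg (by omega), one_mul, Wr.lamp_s, sub_zero]
              exact h1 _ hi'
            · simpa using h2
          rw [if_pos h, if_pos this]
        · rw [if_neg h]; split_ifs <;> norm_num
      have f1 := ih (j + 2)
      have f2 := ih j
      have f3 := ih (j + 1)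
      have hL : (Fintype.card L : ℝ) ≠ 0 := by exact_mod_cast Fintype.card_ne_zero
      have g3 : 1 / 4 * (1 - (1 / 2 : ℝ) ^ (j + 1)) ≤ ∑ a : L, 1 / (4 * (Fintype.card L : ℝ)) *
          ((Dn L).pow n).E (fun g => if Gd ((j + 1 : ℕ) : ℤ) (Wr.lamp a * g) then 1 else 0) := by
        calc 1 / 4 * (1 - (1 / 2 : ℝ) ^ (j + 1)) =
              ∑ _a : L, 1 / (4 * (Fintype.card L : ℝ)) * (1 - (1 / 2 : ℝ) ^ (j + 1)) := by
              rw [Finset.sum_const, Finset.card_univ, nsmul_eq_mul]
              field_simp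
          _ ≤ _ := by
              refine Finset.sum_le_sum fun a _ => ?_
              have := f3.trans (e3 a)
              gcongr
      have g1 := f1.trans e1
      have g2 := f2.trans e2
      have e4 : (1 / 2 : ℝ) ^ (j + 2) = (1 / 2) ^ j / 4 := by rw [pow_add]; ring
      have e5 : (1 / 2 : ℝ) ^ (j + 1) = (1 / 2) ^ j / 2 := by rw [pow_add]; ring
      rw [e4] at g1
      rw [e5] at g3 ⊢
      linarith

/-- lamps only at sites `≥ 1`, position `≥ 1` -/
def Gp (x : Wr L ℤ) : Prop := (∀ i, i ≤ 0 → x.f i = 1) ∧ 1 ≤ x.s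

/-- lamps only at sites `≤ -1`, position `≤ -1` -/
def Gm (x : Wr L ℤ) : Prop := (∀ i, 0 ≤ i → x.f i = 1) ∧ x.s ≤ -1

lemma Dn_Gp (n : ℕ) : open Classical in
    (1 / 4 : ℝ) ≤ ((Dn L).pow (n + 1)).E (fun x => if Gp x then 1 else 0) := by
  classical
  rw [Dist.E_pow_succ, Dn_E]
  have h0 : ∀ s : Wr L ℤ, 0 ≤ ((Dn L).pow n).E (fun g => if Gp (s * g) then (1 : ℝ) else 0) :=
    fun s => Dist.pow_nonneg _ _ fun g => by split_ifs <;> norm_num
  have h1 : (1 / 2 : ℝ) ≤ ((Dn L).pow n).E (fun g => if Gp (Wr.tr 1 * g) then 1 else 0) := by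
    have h := Dn_good (L := L) n 1
    have h2 : ((Dn L).pow n).E (fun x => if Gd ((1 : ℕ) : ℤ) x then (1 : ℝ) else 0) ≤
        ((Dn L).pow n).E (fun g => if Gp (Wr.tr 1 * g) then 1 else 0) := by
      refine Dist.E_mono _ fun i => ?_
      set g := ((Dn L).pow n).st i
      by_cases h : Gd ((1 : ℕ) : ℤ) g
      · have : Gp (Wr.tr 1 * g) := by
          obtain ⟨h1, h2⟩ := h
          refine ⟨fun i hi => ?_, ?_⟩
          · rw [Wr.mul_f, Wr.tr_f, one_mul]
            apply h1
            push_cast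
            simp only [Wr.tr_s]
            linarith
          · push_cast at h2
            simp only [Wr.mul_s, Wr.tr_s]
            linarith
        rw [if_pos h, if_pos this]
      · rw [if_neg h]; split_ifs <;> norm_num
    norm_num at h
    norm_num at h2 ⊢
    linarith
  have h2 := h0 (Wr.tr (-1))
  have h3 : 0 ≤ ∑ a : L, 1 / (4 * (Fintype.card L : ℝ)) *
      ((Dn L).pow n).E (fun g => if Gp (Wr.lamp a * g) then (1 : ℝ) else 0) :=
    Finset.sum_nonneg fun a _ => mul_nonneg (by positivity) (h0 _)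
  linarith

/-- mirror symmetry -/
def mir : Wr L ℤ →* Wr L ℤ where
  toFun x := ⟨fun i => x.f (-i), -x.s⟩
  map_one' := by ext <;> simp
  map_mul' x y := by
    ext i
    · simp only [Wr.mul_f]
      congr 2
      ring
    · simp only [Wr.mul_s]
      ring

lemma mir_Gm (x : Wr L ℤ) (h : Gp x) : Gm (mir x) := by
  refine ⟨fun i hi => h.1 _ (by linarith), ?_⟩
  have := h.2
  change -x.s ≤ -1
  linarith

lemma Dn_inv (F : Wr L ℤ → ℝ) : ((Dn L).map mir).E F = (Dn L).E (fun g => F g⁻¹) := by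
  rw [Dist.E_map, Dn_E, Dn_E]
  have h1 : mir (Wr.tr 1 : Wr L ℤ) = (Wr.tr 1)⁻¹ := by
    rw [← Wr.tr_neg]; rfl
  have h2 : mir (Wr.tr (-1) : Wr L ℤ) = (Wr.tr (-1))⁻¹ := by
    rw [← Wr.tr_neg]; rfl
  have h3 : ∀ a : L, mir (Wr.lamp a : Wr L ℤ) = Wr.lamp a := by
    intro a
    ext i
    · change (Wr.lamp a : Wr L ℤ).f (-i) = _
      simp only [Wr.lamp_f, neg_eq_zero]
    · change - (Wr.lamp a : Wr L ℤ).s = _
      simp
  rw [h1, h2]
  simp only [h3]
  congr 2
  refine Fintype.sum_equiv (Equiv.inv L) _ _ fun a => ?_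
  congr 2
  rw [Equiv.inv_apply, Wr.lamp_inv, inv_inv]

lemma Dn_Gm (n : ℕ) : open Classical in
    (1 / 4 : ℝ) ≤ ((Dn L).pow (n + 1)).E (fun x => if Gm x⁻¹ then 1 else 0) := by
  classical
  have h1 := Dist.pow_inv (Dn L) ((Dn L).map mir) Dn_inv (n + 1)
    (fun x => if Gm x then 1 else 0)
  rw [← h1, Dist.pow_map]
  refine (Dn_Gp n).trans (Dist.E_mono _ fun i => ?_)
  set g := ((Dn L).pow (n + 1)).st i
  by_cases h : Gp g
  · rw [if_pos h, if_pos (mir_Gm g h)]
  · rw [if_neg h]; split_ifs <;> norm_num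

end Drift

/-! ### The word -/

/-- the word `[[x₂, x₀], [x₃⁻¹, x₁⁻¹]]` -/
def w4 : FreeGroup (Fin 4) :=
  ⁅⁅(FreeGroup.of 2 : FreeGroup (Fin 4)), (FreeGroup.of 0 : FreeGroup (Fin 4))⁆,
    ⁅(FreeGroup.of 3 : FreeGroup (Fin 4))⁻¹, (FreeGroup.of 1 : FreeGroup (Fin 4))⁻¹⁆⁆

lemma lift_w4 {G : Type} [Group G] (y v x z : G) :
    FreeGroup.lift ![y, v, x, z] w4 = ⁅⁅x, y⁆, ⁅z⁻¹, v⁻¹⁆⁆ := by
  unfold w4
  simp only [map_commutatorElement, map_mul, map_inv, FreeGroup.lift_apply_of]
  rfl

lemma Dist.Ed_four {G : Type} [Group G] (D : Dist G) (F : (Fin 4 → G) → ℝ) : D.Ed 4 F =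
    D.E fun y => D.E fun v => D.E fun x => D.E fun z => F ![y, v, x, z] := by
  rw [Ed_succ]
  congr 1; funext a
  rw [Ed_succ]
  congr 1; funext b
  rw [Ed_succ]
  congr 1; funext c
  rw [Ed_succ]
  congr 1; funext e
  rw [Ed_zero]
  rfl

section Drift2

variable {L : Type} [Group L] [Fintype L]

lemma w4_of_good (x y z v : Wr L ℤ) (hx : Gp x) (hy : Gp y) (hz : Gm z) (hv : Gm v) :
    ⁅⁅x, y⁆, ⁅z, v⁆⁆ = 1 := by
  rw [Wr.comm_eq_one_iff (Wr.comm_s _ _) (Wr.comm_s _ _)]
  intro i
  rcases le_or_gt i 0 with h | h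
  · have : (⁅x, y⁆).f i = 1 := by
      rw [Wr.comm_f, hx.1 i h, hy.1 i h, hy.1 (i - x.s) (by linarith [hx.2]),
        hx.1 (i - y.s) (by linarith [hy.2])]
      simp
    rw [this]; simp
  · have : (⁅z, v⁆).f i = 1 := by
      rw [Wr.comm_f, hz.1 i h.le, hv.1 i h.le, hv.1 (i - z.s) (by linarith [hz.2]),
        hz.1 (i - v.s) (by linarith [hv.2])]
      simp
    rw [this]; simp

theorem drift (n : ℕ) : (1 / 256 : ℝ) ≤ (Dn L).lawProb w4 (n + 1) := by
  classical
  unfold Dist.lawProb
  rw [Dist.Ed_four]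
  simp only [lift_w4]
  set E := ((Dn L).pow (n + 1)).E with hE
  have hp := Dn_Gp (L := L) n
  have hm := Dn_Gm (L := L) n
  rw [← hE] at hp hm
  set P : ℝ := E (fun x => if Gp x then 1 else 0) with hP
  set M : ℝ := E (fun x => if Gm x⁻¹ then 1 else 0) with hM
  have key : E (fun y => E fun v => E fun x => E fun z =>
      (if Gp y then (1 : ℝ) else 0) * ((if Gm v⁻¹ then (1 : ℝ) else 0) *
        ((if Gp x then (1 : ℝ) else 0) * (if Gm z⁻¹ then (1 : ℝ) else 0)))) = P * (M * (P * M)) := by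
    simp only [hE, Dist.E_const_mul]
    simp only [← hE, ← hM]
    simp only [hE, Dist.E_mul_const]
    simp only [← hE, ← hM, ← hP]
  have h1 : E (fun y => E fun v => E fun x => E fun z =>
      (if Gp y then (1 : ℝ) else 0) * ((if Gm v⁻¹ then (1 : ℝ) else 0) *
        ((if Gp x then (1 : ℝ) else 0) * (if Gm z⁻¹ then (1 : ℝ) else 0)))) ≤
      E (fun y => E fun v => E fun x => E fun z =>
        if ⁅⁅x, y⁆, ⁅z⁻¹, v⁻¹⁆⁆ = 1 then 1 else 0) := by
    refine Dist.E_mono _ fun iy => Dist.E_mono _ fun iv => Dist.E_mono _ fun ix =>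
      Dist.E_mono _ fun iz => ?_
    set y := ((Dn L).pow (n + 1)).st iy
    set v := ((Dn L).pow (n + 1)).st iv
    set x := ((Dn L).pow (n + 1)).st ix
    set z := ((Dn L).pow (n + 1)).st iz
    by_cases hy : Gp y
    · by_cases hv : Gm v⁻¹
      · by_cases hx : Gp x
        · by_cases hz : Gm z⁻¹
          · rw [if_pos (w4_of_good x y z⁻¹ v⁻¹ hx hy hz hv)]
            simp [hy, hv, hx, hz]
          · rw [if_neg hz]; simp only [mul_zero]; split_ifs <;> norm_num
        · rw [if_neg hx]; simp only [mul_zero, zero_mul]; split_ifs <;> norm_num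
      · rw [if_neg hv]; simp only [mul_zero, zero_mul]; split_ifs <;> norm_num
    · rw [if_neg hy]; simp only [zero_mul]; split_ifs <;> norm_num
  rw [key] at h1
  refine le_trans ?_ h1
  calc (1 / 256 : ℝ) = 1 / 4 * (1 / 4 * (1 / 4 * (1 / 4))) := by norm_num
    _ ≤ P * (M * (P * M)) := by gcongr

end Drift2

end Pool.Agent.R901.WR
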