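import Pool.Agent.R901.WR.A
import Pool.Agent.R901.WR.B

/-!
The centred switch - walk - switch walk on `L ≀ ℤ`.
-/

open Finset Filter Topology
open scoped commutatorElement

namespace Pool.Agent.R901.WR

/-! ### Recurrence -/

/-- the probability that the lazy simple walk started at `x` has not visited `0` -/
noncomputable def av : ℕ → ℕ → ℝ
  | 0, x => if x = 0 then 0 else 1
  | _ + 1, 0 => 0
  | n + 1, x + 1 => (av n x + 2 * av n (x + 1) + av n (x + 2)) / 4

lemma av_zero (n : ℕ) : av n 0 = 0 := by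
  cases n <;> simp [av]

lemma av_mem (n : ℕ) : ∀ x, 0 ≤ av n x ∧ av n x ≤ 1 := by
  induction n with
  | zero => intro x; rw [av]; split_ifs <;> norm_num
  | succ n ih =>
    intro x
    rcases x with _ | x
    · rw [av]; norm_num
    · rw [av]
      have h1 := ih x
      have h2 := ih (x + 1)
      have h3 := ih (x + 2)
      constructor <;> linarith [h1.1, h1.2, h2.1, h2.2, h3.1, h3.2]

lemma av_anti (n : ℕ) : ∀ x, av (n + 1) x ≤ av n x := by
  induction n with
  | zero =>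
    intro x
    rcases x with _ | x
    · simp [av]
    · have := (av_mem 1 (x + 1)).2
      rw [show av 0 (x + 1) = 1 by simp [av]]
      exact this
  | succ n ih =>
    intro x
    rcases x with _ | x
    · simp [av]
    · have e1 : av (n + 1 + 1) (x + 1) =
          (av (n + 1) x + 2 * av (n + 1) (x + 1) + av (n + 1) (x + 2)) / 4 := rfl
      have e2 : av (n + 1) (x + 1) = (av n x + 2 * av n (x + 1) + av n (x + 2)) / 4 := rfl
      rw [e1]
      linarith [ih x, ih (x + 1), ih (x + 2)]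

lemma av_tendsto (x : ℕ) : Tendsto (fun n => av n x) atTop (𝓝 0) := by
  have hl : ∀ x, ∃ l, Tendsto (fun n => av n x) atTop (𝓝 l) := fun x =>
    ⟨_, tendsto_atTop_ciInf (antitone_nat_of_succ_le fun n => av_anti n x)
      ⟨0, by rintro _ ⟨n, rfl⟩; exact (av_mem n x).1⟩⟩
  choose l hl using hl
  have h0 : l 0 = 0 := by
    refine tendsto_nhds_unique (hl 0) ?_
    simp only [av_zero]
    exact tendsto_const_nhds
  have hrec : ∀ x, l (x + 1) = (l x + 2 * l (x + 1) + l (x + 2)) / 4 := by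
    intro x
    have h1 : Tendsto (fun n => av (n + 1) (x + 1)) atTop (𝓝 (l (x + 1))) :=
      (hl (x + 1)).comp (tendsto_add_atTop_nat 1)
    refine tendsto_nhds_unique h1 ?_
    simp only [av]
    exact (((hl x).add ((hl (x + 1)).const_mul 2)).add (hl (x + 2))).div_const 4
  have hlin : ∀ x : ℕ, l x = x * l 1 ∧ l (x + 1) = (x + 1) * l 1 := by
    intro x
    induction x with
    | zero => simp [h0]
    | succ x ih =>
      obtain ⟨h1, h2⟩ := ih
      refine ⟨by push_cast; exact h2, ?_⟩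
      have h3 := hrec x
      push_cast
      have h4 : l (x + 1 + 1) = l (x + 2) := rfl
      rw [h4]
      linarith
  have hb : ∀ x, 0 ≤ l x ∧ l x ≤ 1 := fun x =>
    ⟨ge_of_tendsto' (hl x) fun n => (av_mem n x).1, le_of_tendsto' (hl x) fun n => (av_mem n x).2⟩
  have h1 : l 1 = 0 := by
    refine le_antisymm ?_ (hb 1).1
    by_contra hc
    push Not at hc
    obtain ⟨N, hN⟩ := exists_nat_gt (1 / l 1)
    have h2 := (hb N).2
    rw [(hlin N).1] at h2
    rw [div_lt_iff₀ hc] at hN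
    linarith
  have := hl x
  rwa [(hlin x).1, h1, mul_zero] at this

/-! ### The walk -/

variable {L : Type} [Group L] [Fintype L]

/-- increment of the position -/
def tau (b : Bool × Bool) : ℤ := (if b.1 then 1 else 0) + (if b.2 then 1 else 0) - 1

/-- centred switch - walk - switch walk -/
noncomputable def Dc (L : Type) [Group L] [Fintype L] : Dist (Wr L ℤ) :=
  Dist.unif (ι := L × (Bool × Bool) × L) (fun x => Wr.sws x.1 (tau x.2.1) x.2.2)

lemma Dc_E (F : Wr L ℤ → ℝ) : (Dc L).E F = ∑ b : Bool × Bool, (1 / 4) *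
    ∑ a : L, (1 / (Fintype.card L : ℝ)) * ∑ c : L, (1 / (Fintype.card L : ℝ)) *
      F (Wr.sws a (tau b) c) := by
  have h1 : (Dc L).E F = ∑ x : L × (Bool × Bool) × L,
      (1 / (Fintype.card (L × (Bool × Bool) × L) : ℝ)) * F (Wr.sws x.1 (tau x.2.1) x.2.2) := rfl
  rw [h1, Fintype.sum_prod_type]
  have h2 : ∀ a : L, ∑ y : (Bool × Bool) × L,
      (1 / (Fintype.card (L × (Bool × Bool) × L) : ℝ)) * F (Wr.sws a (tau y.1) y.2) =
      ∑ b : Bool × Bool, ∑ c : L,
      (1 / (Fintype.card (L × (Bool × Bool) × L) : ℝ)) * F (Wr.sws a (tau b) c) :=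
    fun a => Fintype.sum_prod_type _
  simp only [h2]
  rw [Finset.sum_comm]
  simp only [Finset.mul_sum]
  refine Finset.sum_congr rfl fun b _ => Finset.sum_congr rfl fun a _ =>
    Finset.sum_congr rfl fun c _ => ?_
  have hL : (Fintype.card L : ℝ) ≠ 0 := by exact_mod_cast Fintype.card_ne_zero
  simp only [Fintype.card_prod, Fintype.card_bool]
  push_cast
  field_simp

lemma Dc_pos (F : ℤ → ℝ) : (Dc L).E (fun g => F g.s) = (F (-1) + 2 * F 0 + F 1) / 4 := by
  rw [Dc_E]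
  simp only [Wr.sws_s, Finset.sum_const, Finset.card_univ, nsmul_eq_mul]
  have hL : (Fintype.card L : ℝ) ≠ 0 := by exact_mod_cast Fintype.card_ne_zero
  simp only [Fintype.sum_prod_type, Fintype.sum_bool, tau]
  simp only [if_true, if_false, Bool.false_eq_true]
  norm_num
  field_simp
  ring

lemma Dc_posn (n : ℕ) : ∀ k : ℤ, ((Dc L).pow n).E (fun g => if g.s = k then (1 : ℝ) else 0) =
    fw (2 * n) (2 * k) := by
  induction n with
  | zero =>
    intro k
    rw [Dist.E_pow_zero, mul_zero, fw]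
    simp only [Wr.one_s]
    congr 1
    exact propext ⟨fun h => by omega, fun h => by omega⟩
  | succ n ih =>
    intro k
    rw [Dist.E_pow_succ]
    have h1 : (Dc L).E (fun s => ((Dc L).pow n).E (fun g => if (s * g).s = k
        then (1 : ℝ) else 0)) =
        (Dc L).E (fun s => (fun u : ℤ => ((Dc L).pow n).E (fun g => if g.s = k - u
          then (1 : ℝ) else 0)) s.s) := by
      congr 1
      funext s
      dsimp only
      congr 1
      funext g
      congr 1
      rw [Wr.mul_s]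
      exact propext ⟨fun h => by rw [← h]; ring, fun h => by rw [h]; ring⟩
    rw [h1, Dc_pos (fun u : ℤ => ((Dc L).pow n).E (fun g => if g.s = k - u
          then (1 : ℝ) else 0))]
    simp only [ih]
    have e : 2 * (n + 1) = 2 * n + 1 + 1 := by ring
    rw [e, fw, fw, fw]
    have e1 : 2 * (k - -1) = 2 * k + 1 + 1 := by ring
    have e2 : 2 * (k - 1) = 2 * k - 1 - 1 := by ring
    have e3 : 2 * k + 1 - 1 = 2 * k := by ring
    have e4 : 2 * k - 1 + 1 = 2 * k := by ring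
    rw [e1, e2, e3, e4, sub_zero]
    ring

lemma Dc_inv (F : Wr L ℤ → ℝ) : (Dc L).E F = (Dc L).E (fun g => F g⁻¹) := by
  have h1 : ∀ F : Wr L ℤ → ℝ, (Dc L).E F = ∑ x : L × (Bool × Bool) × L,
      (1 / (Fintype.card (L × (Bool × Bool) × L) : ℝ)) * F (Wr.sws x.1 (tau x.2.1) x.2.2) :=
    fun F => rfl
  rw [h1, h1]
  let e : L × (Bool × Bool) × L → L × (Bool × Bool) × L :=
    fun x => (x.2.2⁻¹, (!x.2.1.1, !x.2.1.2), x.1⁻¹)
  have he : Function.Involutive e := by
    rintro ⟨a, ⟨b, b'⟩, c⟩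
    simp [e]
  refine Fintype.sum_equiv (he.toPerm e) _ _ fun x => ?_
  have h2 : (Wr.sws ((he.toPerm e) x).1 (tau ((he.toPerm e) x).2.1) ((he.toPerm e) x).2.2)⁻¹ =
      Wr.sws x.1 (tau x.2.1) x.2.2 := by
    rw [Wr.sws_inv]
    have h3 : -tau ((he.toPerm e) x).2.1 = tau x.2.1 := by
      obtain ⟨a, ⟨b, b'⟩, c⟩ := x
      change - tau (!b, !b') = tau (b, b')
      cases b <;> cases b' <;> simp [tau]
    rw [h3]
    change Wr.sws (x.1⁻¹)⁻¹ (tau x.2.1) (x.2.2⁻¹)⁻¹ = _
    rw [inv_inv, inv_inv]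
  rw [h2]

lemma Dc_pow_inv (n : ℕ) (F : Wr L ℤ → ℝ) :
    ((Dc L).pow n).E (fun g => F g⁻¹) = ((Dc L).pow n).E F :=
  (Dist.pow_inv _ _ Dc_inv n F).symm

/-- a lamp configuration -/
def lam (φ : ℤ → L) : Wr L ℤ := ⟨φ, 0⟩

/-- approximate left invariance -/
def Inv (n : ℕ) (g : Wr L ℤ) (ε : ℝ) : Prop :=
  ∀ F : Wr L ℤ → ℝ, (∀ x, 0 ≤ F x) → (∀ x, F x ≤ 1) →
    ((Dc L).pow n).E F ≤ ((Dc L).pow n).E (fun x => F (g * x)) + ε

lemma Inv.mul {n : ℕ} {g h : Wr L ℤ} {ε δ : ℝ} (hg : Inv n g ε) (hh : Inv n h δ) :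
    Inv n (g * h) (ε + δ) := by
  intro F h0 h1
  have e1 := hg F h0 h1
  have e2 := hh (fun x => F (g * x)) (fun x => h0 _) (fun x => h1 _)
  simp only [mul_assoc]
  linarith

lemma inv_zero (n : ℕ) (c : L) : Inv (n + 1) (lam (Pi.mulSingle 0 c)) 0 := by
  intro F h0 h1
  rw [add_zero, Dist.E_pow_succ, Dist.E_pow_succ, Dc_E, Dc_E]
  refine Finset.sum_le_sum fun b _ => mul_le_mul_of_nonneg_left (le_of_eq ?_) (by norm_num)
  refine Fintype.sum_equiv (Equiv.mulLeft c⁻¹) _ _ fun a => ?_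
  congr 1
  refine Finset.sum_congr rfl fun a' _ => ?_
  congr 1
  congr 1
  funext g
  congr 1
  have : (lam (Pi.mulSingle 0 c) : Wr L ℤ) = Wr.lamp c := rfl
  rw [this, Equiv.coe_mulLeft]
  simp only [Wr.sws, Wr.lamp_mul, ← mul_assoc, Wr.lamp_inv, mul_inv_cancel, one_mul]

lemma single_comm (i : ℤ) (c : L) (j : ℤ) (hi : i ≠ 0) (b : L) :
    (lam (Pi.mulSingle i c) : Wr L ℤ) * Wr.lamp b * Wr.tr j =
      Wr.lamp b * Wr.tr j * lam (Pi.mulSingle (i - j) c) := by
  ext k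
  · simp only [Wr.mul_f, Wr.lamp_f, Wr.tr_f, lam, Wr.mul_s, Wr.lamp_s, Wr.tr_s, mul_one,
      sub_zero, zero_add, Pi.mulSingle_apply]
    by_cases hk : k = i
    · subst hk
      simp [hi]
    · have : ¬ k - j = i - j := fun h => hk (by linarith)
      simp [hk, this]
  · simp [lam]

lemma single_comm' (i : ℤ) (c : L) (hi : i ≠ 0) (b : L) :
    (lam (Pi.mulSingle i c) : Wr L ℤ) * Wr.lamp b = Wr.lamp b * lam (Pi.mulSingle i c) := by
  have := single_comm i c 0 hi b
  rwa [Wr.tr_zero, mul_one, mul_one, sub_zero] at this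

lemma av_avg (n : ℕ) (i : ℤ) (hi : i ≠ 0) :
    ∑ b : Bool × Bool, (1 / 4) * av n (i - tau b).natAbs = av (n + 1) i.natAbs := by
  simp only [Fintype.sum_prod_type, Fintype.sum_bool, tau]
  simp only [if_true, if_false, Bool.false_eq_true]
  have e1 : i - (1 + 1 - 1) = i - 1 := by ring
  have e2 : i - (1 + 0 - 1) = i := by ring
  have e3 : i - (0 + 1 - 1) = i := by ring
  have e4 : i - (0 + 0 - 1) = i + 1 := by ring
  rw [e1, e2, e3, e4]
  rcases lt_or_gt_of_ne hi with h | h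
  · obtain ⟨k, hk⟩ : ∃ k : ℕ, i = -(k + 1) := ⟨(-i - 1).toNat, by omega⟩
    subst hk
    have a1 : (-((k : ℤ) + 1) - 1).natAbs = k + 2 := by omega
    have a2 : (-((k : ℤ) + 1)).natAbs = k + 1 := by omega
    have a3 : (-((k : ℤ) + 1) + 1).natAbs = k := by omega
    rw [a1, a2, a3, av]
    ring
  · obtain ⟨k, hk⟩ : ∃ k : ℕ, i = k + 1 := ⟨(i - 1).toNat, by omega⟩
    subst hk
    have a1 : ((k : ℤ) + 1 - 1).natAbs = k := by omega
    have a2 : ((k : ℤ) + 1).natAbs = k + 1 := by omega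
    have a3 : ((k : ℤ) + 1 + 1).natAbs = k + 2 := by omega
    rw [a1, a2, a3, av]
    ring

lemma inv_single (n : ℕ) : ∀ (i : ℤ) (_ : i ≠ 0) (c : L),
    Inv n (lam (Pi.mulSingle i c)) (av n i.natAbs) := by
  induction n with
  | zero =>
    intro i hi c F h0 h1
    rw [Dist.E_pow_zero, Dist.E_pow_zero, av, if_neg (by omega)]
    linarith [h0 (lam (Pi.mulSingle i c) * 1), h1 1]
  | succ n ih =>
    intro i hi c F h0 h1
    rw [Dist.E_pow_succ, Dist.E_pow_succ, Dc_E, Dc_E, ← av_avg n i hi,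
      ← Finset.sum_add_distrib]
    refine Finset.sum_le_sum fun b _ => ?_
    rw [← mul_add]
    refine mul_le_mul_of_nonneg_left ?_ (by norm_num)
    have hL : (Fintype.card L : ℝ) ≠ 0 := by exact_mod_cast Fintype.card_ne_zero
    have hc : ∀ r : ℝ, r = ∑ _a : L, (1 / (Fintype.card L : ℝ)) * r := by
      intro r
      rw [Finset.sum_const, Finset.card_univ, nsmul_eq_mul]
      field_simp
    rw [hc (av n (i - tau b).natAbs), ← Finset.sum_add_distrib]
    refine Finset.sum_le_sum fun a _ => ?_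
    rw [← mul_add]
    refine mul_le_mul_of_nonneg_left ?_ (by positivity)
    have hm : ∀ (a' : L) (g : Wr L ℤ), lam (Pi.mulSingle i c) * (Wr.sws a (tau b) a' * g) =
        Wr.lamp a * Wr.tr (tau b) * (lam (Pi.mulSingle (i - tau b) c) * Wr.lamp a' * g) := by
      intro a' g
      have := single_comm i c (tau b) hi a
      calc lam (Pi.mulSingle i c) * (Wr.sws a (tau b) a' * g)
          = (lam (Pi.mulSingle i c) * Wr.lamp a * Wr.tr (tau b)) * (Wr.lamp a' * g) := by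
            simp only [Wr.sws, mul_assoc]
        _ = _ := by rw [this]; simp only [mul_assoc]
    by_cases hj : i - tau b = 0
    · rw [hj, Int.natAbs_zero, av_zero, add_zero]
      refine le_of_eq ?_
      refine Fintype.sum_equiv (Equiv.mulLeft c⁻¹) _ _ fun a' => ?_
      congr 1
      congr 1
      funext g
      congr 1
      rw [hm, hj]
      have : (lam (Pi.mulSingle 0 c) : Wr L ℤ) = Wr.lamp c := rfl
      rw [this, Equiv.coe_mulLeft]
      simp only [Wr.sws, Wr.lamp_mul, Wr.lamp_inv, mul_assoc, mul_inv_cancel_left]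
    · rw [hc (av n (i - tau b).natAbs), ← Finset.sum_add_distrib]
      refine Finset.sum_le_sum fun a' _ => ?_
      rw [← mul_add]
      refine mul_le_mul_of_nonneg_left ?_ (by positivity)
      have h2 := ih (i - tau b) hj c (fun g => F (Wr.sws a (tau b) a' * g)) (fun x => h0 _)
        (fun x => h1 _)
      refine h2.trans (le_of_eq ?_)
      congr 2
      funext g
      rw [hm]
      congr 1
      have := single_comm' (i - tau b) c hj a'
      rw [this]
      simp only [Wr.sws, mul_assoc]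

lemma inv_any (n : ℕ) (i : ℤ) (c : L) :
    Inv (n + 1) (lam (Pi.mulSingle i c)) (av (n + 1) i.natAbs) := by
  by_cases hi : i = 0
  · subst hi
    rw [Int.natAbs_zero, av_zero]
    exact inv_zero n c
  · exact inv_single (n + 1) i hi c

lemma inv_conf (n : ℕ) (φ : ℤ → L) (s : Finset ℤ) :
    Inv (n + 1) (lam (fun i => if i ∈ s then φ i else 1)) (∑ i ∈ s, av (n + 1) i.natAbs) := by
  induction s using Finset.induction_on with
  | empty =>
    intro F h0 h1
    have : (lam (fun i => if i ∈ (∅ : Finset ℤ) then φ i else 1) : Wr L ℤ) = 1 := by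
      ext i <;> simp [lam]
    rw [this]
    simp
  | insert i s hi ih =>
    rw [Finset.sum_insert hi]
    have : (lam (fun k => if k ∈ insert i s then φ k else 1) : Wr L ℤ) =
        lam (Pi.mulSingle i (φ i)) * lam (fun i => if i ∈ s then φ i else 1) := by
      ext k
      · simp only [lam, Wr.mul_f, sub_zero, Pi.mulSingle_apply]
        by_cases hk : k = i
        · subst hk
          simp [hi]
        · simp [hk]
      · simp [lam]
    rw [this]
    exact (inv_any n i (φ i)).mul ih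

/-! ### The commutator -/

/-- the configuration coming from `χ : I → L × L` -/
def ext1 (I : Finset ℤ) (χ : I → L) (i : ℤ) : L := if h : i ∈ I then χ ⟨i, h⟩ else 1

lemma ext1_not (I : Finset ℤ) (χ : I → L) (i : ℤ) (h : i ∉ I) : ext1 I χ i = 1 := dif_neg h

lemma comm_lam (I : Finset ℤ) (χ : I → L) (x y : Wr L ℤ) (i : I)
    (hy : (i : ℤ) - y.s ∉ I) :
    (⁅lam (ext1 I χ) * x, y⁆).f i = χ i * (⁅x, y⁆).f i := by
  rw [Wr.comm_f, Wr.comm_f]
  simp only [lam, Wr.mul_f, Wr.mul_s, sub_zero, zero_add]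
  rw [ext1_not I χ _ hy, one_mul]
  have : ext1 I χ i = χ i := by
    unfold ext1
    rw [dif_pos i.2]
  rw [this]
  simp only [mul_assoc]

/-- number of commuting pairs -/
lemma card_twist [DecidableEq L] (c d : L) :
    (Finset.univ.filter fun p : L × L => ⁅p.1 * c, p.2 * d⁆ = 1).card =
      (Finset.univ.filter fun p : L × L => ⁅p.1, p.2⁆ = 1).card := by
  refine Finset.card_bij (fun p _ => (p.1 * c, p.2 * d)) ?_ ?_ ?_
  · intro p hp
    simpa using hp
  · rintro ⟨a, b⟩ _ ⟨a', b'⟩ _ h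
    simp only [Prod.mk.injEq, mul_left_inj] at h
    exact Prod.ext h.1 h.2
  · rintro ⟨a, b⟩ hp
    refine ⟨(a * c⁻¹, b * d⁻¹), ?_, ?_⟩
    · simpa using hp
    · simp

lemma avg_bound [DecidableEq L] (I : Finset ℤ) (x y z v : Wr L ℤ)
    (hy : ∀ i ∈ I, i - y.s ∉ I) (hv : ∀ i ∈ I, i - v.s ∉ I) (κ : ℝ)
    (hκ : ((Finset.univ.filter fun p : L × L => ⁅p.1, p.2⁆ = 1).card : ℝ) ≤
      κ * Fintype.card (L × L)) :
    open Classical in
    (∑ χ : I → L × L, if ⁅⁅lam (ext1 I fun i => (χ i).1) * x, y⁆,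
      ⁅lam (ext1 I fun i => (χ i).2) * z, v⁆⁆ = 1 then (1 : ℝ) else 0) ≤
      κ ^ I.card * Fintype.card (I → L × L) := by
  classical
  have h1 : ∀ χ : I → L × L, (if ⁅⁅lam (ext1 I fun i => (χ i).1) * x, y⁆,
      ⁅lam (ext1 I fun i => (χ i).2) * z, v⁆⁆ = 1 then (1 : ℝ) else 0) ≤
      if χ ∈ Fintype.piFinset (fun i : I => Finset.univ.filter fun p : L × L =>
        ⁅p.1 * (⁅x, y⁆).f i, p.2 * (⁅z, v⁆).f i⁆ = 1) then (1 : ℝ) else 0 := by
    intro χ
    by_cases h : ⁅⁅lam (ext1 I fun i => (χ i).1) * x, y⁆,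
      ⁅lam (ext1 I fun i => (χ i).2) * z, v⁆⁆ = 1
    · rw [if_pos h, if_pos]
      rw [Fintype.mem_piFinset]
      intro i
      rw [Finset.mem_filter]
      refine ⟨Finset.mem_univ _, ?_⟩
      rw [Wr.comm_eq_one_iff (Wr.comm_s _ _) (Wr.comm_s _ _)] at h
      have := h i
      rwa [comm_lam I _ x y i (hy i i.2), comm_lam I _ z v i (hv i i.2)] at this
    · rw [if_neg h]; split_ifs <;> norm_num
  refine (Finset.sum_le_sum fun χ _ => h1 χ).trans ?_
  rw [Finset.sum_boole, Finset.filter_mem_eq_inter, Finset.univ_inter, Fintype.card_piFinset]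
  simp only [card_twist]
  rw [Finset.prod_const, Finset.card_univ, Fintype.card_coe, Fintype.card_fun, Fintype.card_coe]
  push_cast
  rw [← mul_pow]
  gcongr

lemma fixed_bound [DecidableEq L] (n : ℕ) (I : Finset ℤ) (y v : Wr L ℤ)
    (hy : ∀ i ∈ I, i - y.s ∉ I) (hv : ∀ i ∈ I, i - v.s ∉ I) (κ : ℝ)
    (hκ : ((Finset.univ.filter fun p : L × L => ⁅p.1, p.2⁆ = 1).card : ℝ) ≤
      κ * Fintype.card (L × L)) :
    open Classical in
    ((Dc L).pow (n + 1)).E (fun x => ((Dc L).pow (n + 1)).E (fun z =>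
      if ⁅⁅x, y⁆, ⁅z, v⁆⁆ = 1 then (1 : ℝ) else 0)) ≤
      κ ^ I.card + 2 * ∑ i ∈ I, av (n + 1) i.natAbs := by
  classical
  set E := ((Dc L).pow (n + 1)).E with hE
  set ε := ∑ i ∈ I, av (n + 1) i.natAbs with hε
  have hext : ∀ χ : I → L, Inv (n + 1) (lam (ext1 I χ)) ε := by
    intro χ
    have h := inv_conf n (ext1 I χ) I
    have e : (lam (fun i => if i ∈ I then ext1 I χ i else 1) : Wr L ℤ) = lam (ext1 I χ) := by
      congr 1
      funext i
      by_cases hi : i ∈ I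
      · rw [if_pos hi]
      · rw [if_neg hi, ext1_not I χ i hi]
    rwa [e] at h
  have step : ∀ χ : I → L × L, E (fun x => E (fun z =>
      if ⁅⁅x, y⁆, ⁅z, v⁆⁆ = 1 then (1 : ℝ) else 0)) ≤
      E (fun x => E (fun z => if ⁅⁅lam (ext1 I fun i => (χ i).1) * x, y⁆,
      ⁅lam (ext1 I fun i => (χ i).2) * z, v⁆⁆ = 1 then (1 : ℝ) else 0)) + 2 * ε := by
    intro χ
    have h1 : E (fun x => E (fun z => if ⁅⁅x, y⁆, ⁅z, v⁆⁆ = 1 then (1 : ℝ) else 0)) ≤
        E (fun x => E (fun z => if ⁅⁅x, y⁆,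
          ⁅lam (ext1 I fun i => (χ i).2) * z, v⁆⁆ = 1 then (1 : ℝ) else 0) + ε) := by
      refine Dist.E_mono _ fun i => ?_
      exact hext (fun i => (χ i).2) (fun z => if ⁅⁅((Dc L).pow (n + 1)).st i, y⁆, ⁅z, v⁆⁆ = 1
        then (1 : ℝ) else 0) (fun z => by split_ifs <;> norm_num)
        (fun z => by split_ifs <;> norm_num)
    have h2 : E (fun x => E (fun z => if ⁅⁅x, y⁆,
          ⁅lam (ext1 I fun i => (χ i).2) * z, v⁆⁆ = 1 then (1 : ℝ) else 0) + ε) =
        E (fun x => E (fun z => if ⁅⁅x, y⁆,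
          ⁅lam (ext1 I fun i => (χ i).2) * z, v⁆⁆ = 1 then (1 : ℝ) else 0)) + ε := by
      rw [hE, Dist.E_add, Dist.E_const]
    have h3 := hext (fun i => (χ i).1) (fun x => E (fun z => if ⁅⁅x, y⁆,
          ⁅lam (ext1 I fun i => (χ i).2) * z, v⁆⁆ = 1 then (1 : ℝ) else 0))
      (fun x => Dist.E_nonneg _ fun i => by split_ifs <;> norm_num)
      (fun x => Dist.E_le _ fun i => by split_ifs <;> norm_num)
    linarith
  have hN : (0 : ℝ) < Fintype.card (I → L × L) := by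
    exact_mod_cast Fintype.card_pos_iff.2 ⟨fun _ => 1⟩
  have hsum := Finset.sum_le_sum fun (χ : I → L × L) (_ : χ ∈ Finset.univ) => step χ
  rw [Finset.sum_const, Finset.card_univ, nsmul_eq_mul, Finset.sum_add_distrib,
    Finset.sum_const, Finset.card_univ, nsmul_eq_mul] at hsum
  have hsw : ∑ χ : I → L × L, E (fun x => E (fun z =>
      if ⁅⁅lam (ext1 I fun i => (χ i).1) * x, y⁆,
      ⁅lam (ext1 I fun i => (χ i).2) * z, v⁆⁆ = 1 then (1 : ℝ) else 0)) ≤
      κ ^ I.card * Fintype.card (I → L × L) := by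
    rw [hE, ← Dist.E_sum]
    refine Dist.E_le _ fun ix => ?_
    rw [← Dist.E_sum]
    refine Dist.E_le _ fun iz => ?_
    exact avg_bound I _ y _ v hy hv κ hκ
  have h4 := hsum.trans (add_le_add_left hsw _)
  have h5 : E (fun x => E (fun z => if ⁅⁅x, y⁆, ⁅z, v⁆⁆ = 1 then (1 : ℝ) else 0)) *
      Fintype.card (I → L × L) ≤ (κ ^ I.card + 2 * ε) * Fintype.card (I → L × L) := by
    linarith
  exact le_of_mul_le_mul_right h5 hN


lemma near_bound (n K : ℕ) :
    ((Dc L).pow n).E (fun y => if |y.s| ≤ 2 * (K : ℤ) then (1 : ℝ) else 0) ≤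
      (4 * K + 1) * cm (2 * n) := by
  have h1 : ((Dc L).pow n).E (fun y => if |y.s| ≤ 2 * (K : ℤ) then (1 : ℝ) else 0) ≤
      ((Dc L).pow n).E (fun y => ∑ k ∈ Finset.Icc (-(2 * (K : ℤ))) (2 * K),
        if y.s = k then (1 : ℝ) else 0) := by
    refine Dist.E_mono _ fun i => ?_
    set y := ((Dc L).pow n).st i
    by_cases h : |y.s| ≤ 2 * (K : ℤ)
    · rw [if_pos h]
      have h2 : (if y.s = y.s then (1 : ℝ) else 0) ≤ ∑ k ∈ Finset.Icc (-(2 * (K : ℤ))) (2 * K),
          if y.s = k then (1 : ℝ) else 0 :=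
        Finset.single_le_sum (f := fun k => if y.s = k then (1 : ℝ) else 0)
          (fun k _ => by split_ifs <;> norm_num) (Finset.mem_Icc.2 (abs_le.1 h))
      rwa [if_pos rfl] at h2
    · rw [if_neg h]
      exact Finset.sum_nonneg fun k _ => by split_ifs <;> norm_num
  refine h1.trans ?_
  rw [Dist.E_sum]
  calc _ ≤ ∑ k ∈ Finset.Icc (-(2 * (K : ℤ))) (2 * K), cm (2 * n) := by
        refine Finset.sum_le_sum fun k _ => ?_
        rw [Dc_posn]
        exact fw_le _ _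
    _ = _ := by
        rw [Finset.sum_const, Int.card_Icc, nsmul_eq_mul]
        congr 1
        have : (2 * (K : ℤ) + 1 - -(2 * K)).toNat = 4 * K + 1 := by omega
        rw [this]
        push_cast
        ring

theorem centred_bound [DecidableEq L] (n K : ℕ) (κ : ℝ) (h0 : 0 ≤ κ)
    (hκ : ((Finset.univ.filter fun p : L × L => ⁅p.1, p.2⁆ = 1).card : ℝ) ≤
      κ * Fintype.card (L × L)) :
    (Dc L).lawProb w4 (n + 1) ≤ 2 * ((4 * K + 1) * cm (2 * (n + 1))) +
      (κ ^ (2 * K + 1) + 2 * ∑ i ∈ Finset.Icc (-(K : ℤ)) K, av (n + 1) i.natAbs) := by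
  classical
  unfold Dist.lawProb
  rw [Dist.Ed_four]
  simp only [lift_w4]
  set R : ℝ := κ ^ (2 * K + 1) + 2 * ∑ i ∈ Finset.Icc (-(K : ℤ)) K, av (n + 1) i.natAbs with hR
  have hR0 : 0 ≤ R := by
    have : 0 ≤ ∑ i ∈ Finset.Icc (-(K : ℤ)) K, av (n + 1) i.natAbs :=
      Finset.sum_nonneg fun i _ => (av_mem _ _).1
    positivity
  set E := ((Dc L).pow (n + 1)).E with hE
  have e1 : ∀ y v x : Wr L ℤ, E (fun z => if ⁅⁅x, y⁆, ⁅z⁻¹, v⁆⁆ = 1 then (1 : ℝ) else 0) =
      E (fun z => if ⁅⁅x, y⁆, ⁅z, v⁆⁆ = 1 then (1 : ℝ) else 0) := fun y v x =>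
    Dc_pow_inv (n + 1) (fun z => if ⁅⁅x, y⁆, ⁅z, v⁆⁆ = 1 then (1 : ℝ) else 0)
  have e2 : ∀ y : Wr L ℤ, E (fun v => E (fun x => E (fun z => if ⁅⁅x, y⁆, ⁅z⁻¹, v⁻¹⁆⁆ = 1
      then (1 : ℝ) else 0))) =
      E (fun v => E (fun x => E (fun z => if ⁅⁅x, y⁆, ⁅z, v⁆⁆ = 1 then (1 : ℝ) else 0))) := by
    intro y
    simp only [e1]
    exact Dc_pow_inv (n + 1) (fun v => E (fun x => E (fun z => if ⁅⁅x, y⁆, ⁅z, v⁆⁆ = 1
      then (1 : ℝ) else 0)))
  simp only [e2]
  have e3 : E (fun y => E (fun v => E (fun x => E (fun z => if ⁅⁅x, y⁆, ⁅z, v⁆⁆ = 1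
      then (1 : ℝ) else 0)))) ≤
      E (fun y => E (fun v => (if |y.s| ≤ 2 * (K : ℤ) then (1 : ℝ) else 0) +
        ((if |v.s| ≤ 2 * (K : ℤ) then (1 : ℝ) else 0) + R))) := by
    refine Dist.E_mono _ fun iy => Dist.E_mono _ fun iv => ?_
    set y := ((Dc L).pow (n + 1)).st iy
    set v := ((Dc L).pow (n + 1)).st iv
    have hle : E (fun x => E (fun z => if ⁅⁅x, y⁆, ⁅z, v⁆⁆ = 1 then (1 : ℝ) else 0)) ≤ 1 :=
      Dist.E_le _ fun i => Dist.E_le _ fun j => by split_ifs <;> norm_num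
    by_cases hy : |y.s| ≤ 2 * (K : ℤ)
    · rw [if_pos hy]
      have : (0 : ℝ) ≤ if |v.s| ≤ 2 * (K : ℤ) then (1 : ℝ) else 0 := by split_ifs <;> norm_num
      linarith
    · by_cases hv : |v.s| ≤ 2 * (K : ℤ)
      · rw [if_pos hv, if_neg hy]
        linarith
      · rw [if_neg hy, if_neg hv, zero_add, zero_add]
        have h1 : ∀ i ∈ Finset.Icc (-(K : ℤ)) K, i - y.s ∉ Finset.Icc (-(K : ℤ)) K := by
          intro i hi hc
          rw [Finset.mem_Icc] at hi hc
          apply hy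
          rw [abs_le]
          constructor <;> linarith
        have h2 : ∀ i ∈ Finset.Icc (-(K : ℤ)) K, i - v.s ∉ Finset.Icc (-(K : ℤ)) K := by
          intro i hi hc
          rw [Finset.mem_Icc] at hi hc
          apply hv
          rw [abs_le]
          constructor <;> linarith
        have h3 := fixed_bound n (Finset.Icc (-(K : ℤ)) K) y v h1 h2 κ hκ
        have h4 : (Finset.Icc (-(K : ℤ)) K).card = 2 * K + 1 := by
          rw [Int.card_Icc]
          omega
        rw [h4] at h3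
        exact h3
  refine e3.trans ?_
  have e4 : ∀ y : Wr L ℤ, E (fun v => (if |y.s| ≤ 2 * (K : ℤ) then (1 : ℝ) else 0) +
        ((if |v.s| ≤ 2 * (K : ℤ) then (1 : ℝ) else 0) + R)) =
      (if |y.s| ≤ 2 * (K : ℤ) then (1 : ℝ) else 0) +
        (E (fun v => if |v.s| ≤ 2 * (K : ℤ) then (1 : ℝ) else 0) + R) := by
    intro y
    rw [hE, Dist.E_add, Dist.E_add, Dist.E_const, Dist.E_const]
  simp only [e4]
  have e5 : E (fun y => (if |y.s| ≤ 2 * (K : ℤ) then (1 : ℝ) else 0) +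
        (E (fun v => if |v.s| ≤ 2 * (K : ℤ) then (1 : ℝ) else 0) + R)) =
      E (fun y => if |y.s| ≤ 2 * (K : ℤ) then (1 : ℝ) else 0) +
        (E (fun v => if |v.s| ≤ 2 * (K : ℤ) then (1 : ℝ) else 0) + R) := by
    rw [hE, Dist.E_add, Dist.E_const]
  rw [e5]
  have h6 := near_bound (L := L) (n + 1) K
  rw [← hE] at h6
  linarith

lemma cm_tendsto : Tendsto (fun n : ℕ => cm (2 * (n + 1))) atTop (𝓝 0) := by
  have h1 : Tendsto (fun n : ℕ => 1 / Real.sqrt ((n : ℝ) + 1)) atTop (𝓝 0) := by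
    have : Tendsto (fun n : ℕ => Real.sqrt ((n : ℝ) + 1)) atTop atTop :=
      Real.tendsto_sqrt_atTop.comp (tendsto_atTop_add_const_right _ _ tendsto_natCast_atTop_atTop)
    exact tendsto_const_nhds.div_atTop this
  refine squeeze_zero (fun n => cm_nonneg _) (fun n => ?_) h1
  have h2 := cm_sq (2 * (n + 1))
  have h3 : (0 : ℝ) < Real.sqrt ((n : ℝ) + 1) := Real.sqrt_pos.2 (by positivity)
  rw [le_div_iff₀ h3]
  have h4 : (cm (2 * (n + 1)) * Real.sqrt ((n : ℝ) + 1)) ^ 2 ≤ 1 := by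
    rw [mul_pow, Real.sq_sqrt (by positivity)]
    refine le_trans ?_ h2
    gcongr
    push_cast
    linarith [show (0 : ℝ) ≤ n by positivity]
  have h5 : 0 ≤ cm (2 * (n + 1)) * Real.sqrt ((n : ℝ) + 1) := mul_nonneg (cm_nonneg _) h3.le
  nlinarith

theorem centred_tendsto [DecidableEq L] (κ : ℝ) (h0 : 0 ≤ κ) (h1 : κ < 1)
    (hκ : ((Finset.univ.filter fun p : L × L => ⁅p.1, p.2⁆ = 1).card : ℝ) ≤
      κ * Fintype.card (L × L)) :
    Tendsto (fun n => (Dc L).lawProb w4 n) atTop (𝓝 0) := by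
  rw [← tendsto_add_atTop_iff_nat 1]
  rw [Metric.tendsto_atTop]
  intro η hη
  have hK : Tendsto (fun K : ℕ => κ ^ (2 * K + 1)) atTop (𝓝 0) :=
    (tendsto_pow_atTop_nhds_zero_of_lt_one h0 h1).comp
      (tendsto_atTop_mono (fun K => by simp only [id]; omega) tendsto_id)
  obtain ⟨K, hK⟩ := (hK.eventually (gt_mem_nhds (half_pos hη))).exists
  have hlim : Tendsto (fun n : ℕ => 2 * ((4 * (K : ℝ) + 1) * cm (2 * (n + 1))) +
      (κ ^ (2 * K + 1) + 2 * ∑ i ∈ Finset.Icc (-(K : ℤ)) K, av (n + 1) i.natAbs)) atTop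
      (𝓝 (2 * ((4 * (K : ℝ) + 1) * 0) + (κ ^ (2 * K + 1) +
        2 * ∑ i ∈ Finset.Icc (-(K : ℤ)) K, 0))) := by
    refine ((cm_tendsto.const_mul _).const_mul 2).add (tendsto_const_nhds.add
      ((tendsto_finsetSum _ fun i _ => ?_).const_mul 2))
    exact (av_tendsto _).comp (tendsto_add_atTop_nat 1)
  simp only [mul_zero, Finset.sum_const_zero, zero_add, add_zero] at hlim
  have hev := hlim.eventually (gt_mem_nhds (show κ ^ (2 * K + 1) < η by linarith))
  obtain ⟨N, hN⟩ := eventually_atTop.1 hev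
  refine ⟨N, fun n hn => ?_⟩
  rw [Real.dist_eq, sub_zero, abs_of_nonneg (Dist.lawProb_nonneg _ _ _)]
  exact (centred_bound n K κ h0 hκ).trans_lt (hN n hn)

end Pool.Agent.R901.WR
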