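import Pool.Agent.R901.WR.A
import Pool.Agent.R901.WR.Push

/-!
Finite groups: the gap lemma for `[[x,y],u[z,v]u⁻¹]` and convergence of the lazy walk to the
uniform distribution.
-/

open Finset Filter Topology
open scoped commutatorElement

namespace Pool.Agent.R901.WR

/-! ### The uniform distribution -/

section Unif

variable (G : Type) [Group G] [Fintype G]

/-- uniform distribution on a finite group -/
noncomputable def UU : Dist G := Dist.unif (ι := G) (fun g => g)

variable {G}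

lemma UU_E (F : G → ℝ) : (UU G).E F = ∑ g : G, (1 / (Fintype.card G : ℝ)) * F g := rfl

lemma UU_bij (e : G ≃ G) (F : G → ℝ) : (UU G).E (fun g => F (e g)) = (UU G).E F := by
  rw [UU_E, UU_E]
  exact Fintype.sum_equiv e _ _ fun g => rfl

lemma UU_mul_left (h : G) (F : G → ℝ) : (UU G).E (fun g => F (h * g)) = (UU G).E F :=
  UU_bij (Equiv.mulLeft h) F

lemma UU_mul_right (h : G) (F : G → ℝ) : (UU G).E (fun g => F (g * h)) = (UU G).E F :=
  UU_bij (Equiv.mulRight h) F

lemma UU_inv (F : G → ℝ) : (UU G).E (fun g => F g⁻¹) = (UU G).E F :=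
  UU_bij (Equiv.inv G) F

lemma UU_conj (h : G) (F : G → ℝ) : (UU G).E (fun g => F (h * g * h⁻¹)) = (UU G).E F := by
  rw [UU_mul_left h (fun g => F (g * h⁻¹)), UU_mul_right]

/-- Gap lemma, part (a). -/
lemma gap_a (H : Subgroup G)
    (hH : open Classical in 3 / 4 < (UU G).E (fun z => (UU G).E (fun v =>
      if ⁅z, v⁆ ∈ H then (1 : ℝ) else 0))) (a b : G) : ⁅a, b⁆ ∈ H := by
  classical
  have step1 : ∀ z0 : G, 1 / 2 < (UU G).E (fun v => if ⁅z0, v⁆ ∈ H then (1 : ℝ) else 0) := by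
    intro z0
    have e1 : (UU G).E (fun z1 => (UU G).E (fun v =>
        if ⁅z0 * z1⁻¹, z1 * v * z1⁻¹⁆ ∈ H then (1 : ℝ) else 0)) =
        (UU G).E (fun z => (UU G).E (fun v => if ⁅z, v⁆ ∈ H then (1 : ℝ) else 0)) := by
      have : ∀ z1 : G, (UU G).E (fun v =>
        if ⁅z0 * z1⁻¹, z1 * v * z1⁻¹⁆ ∈ H then (1 : ℝ) else 0) =
          (UU G).E (fun v => if ⁅z0 * z1⁻¹, v⁆ ∈ H then (1 : ℝ) else 0) := fun z1 =>
        UU_conj z1 (fun v => if ⁅z0 * z1⁻¹, v⁆ ∈ H then (1 : ℝ) else 0)
      simp only [this]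
      rw [UU_inv (fun z1 => (UU G).E (fun v => if ⁅z0 * z1, v⁆ ∈ H then (1 : ℝ) else 0))]
      exact UU_mul_left z0 (fun z => (UU G).E (fun v => if ⁅z, v⁆ ∈ H then (1 : ℝ) else 0))
    have e2 : (UU G).E (fun z1 => (UU G).E (fun v =>
        (if ⁅z0 * z1⁻¹, z1 * v * z1⁻¹⁆ ∈ H then (1 : ℝ) else 0) +
          (if ⁅z1, v⁆ ∈ H then (1 : ℝ) else 0))) ≤
        (UU G).E (fun _ => (UU G).E (fun v => (if ⁅z0, v⁆ ∈ H then (1 : ℝ) else 0) + 1)) := by
      refine Dist.E_mono _ fun i => Dist.E_mono _ fun j => ?_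
      set z1 := (UU G).st i
      set v := (UU G).st j
      by_cases h1 : ⁅z0 * z1⁻¹, z1 * v * z1⁻¹⁆ ∈ H
      · by_cases h2 : ⁅z1, v⁆ ∈ H
        · have h3 : ⁅z0, v⁆ ∈ H := by
            have : ⁅z0, v⁆ = ⁅z0 * z1⁻¹, z1 * v * z1⁻¹⁆ * ⁅z1, v⁆ := by
              simp only [commutatorElement_def]
              group
            rw [this]
            exact mul_mem h1 h2
          simp only [if_pos h1, if_pos h2, if_pos h3]
          rfl
        · rw [if_neg h2, if_pos h1]; split_ifs <;> norm_num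
      · rw [if_neg h1]; split_ifs <;> norm_num
    simp only [Dist.E_add, Dist.E_const] at e2
    rw [e1] at e2
    linarith
  -- step 2
  have e3 := step1 b
  have e4 := step1 (a * b * a⁻¹)
  rw [← UU_mul_right a⁻¹] at e4
  obtain ⟨v, hv1, hv2⟩ : ∃ v, ⁅b, v⁆ ∈ H ∧ ⁅a * b * a⁻¹, v * a⁻¹⁆ ∈ H := by
    by_contra hc
    push Not at hc
    have : (UU G).E (fun v => (if ⁅b, v⁆ ∈ H then (1 : ℝ) else 0) +
        (if ⁅a * b * a⁻¹, v * a⁻¹⁆ ∈ H then (1 : ℝ) else 0)) ≤ 1 := by
      refine Dist.E_le _ fun i => ?_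
      by_cases h : ⁅b, (UU G).st i⁆ ∈ H
      · rw [if_pos h, if_neg (hc _ h)]; norm_num
      · rw [if_neg h]; split_ifs <;> norm_num
    rw [Dist.E_add] at this
    linarith
  have : ⁅a, b⁆ = ⁅a * b * a⁻¹, v * a⁻¹⁆ * (⁅b, v⁆)⁻¹ := by
    simp only [commutatorElement_def]
    group
  rw [this]
  exact mul_mem hv2 (inv_mem hv1)

/-- Gap lemma, part (b). -/
lemma gap_b (hG : ∃ x y z v : G, ⁅⁅x, y⁆, ⁅z, v⁆⁆ ≠ 1) :
    open Classical in
    (UU G).E (fun x => (UU G).E (fun y => (UU G).E (fun z => (UU G).E (fun v =>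
      (UU G).E (fun u => if ⁅⁅x, y⁆, u * ⁅z, v⁆ * u⁻¹⁆ = 1 then (1 : ℝ) else 0))))) ≤ 15 / 16 := by
  classical
  -- remove the conjugation
  have e1 : ∀ A : G, (UU G).E (fun z => (UU G).E (fun v =>
      (UU G).E (fun u => if ⁅A, u * ⁅z, v⁆ * u⁻¹⁆ = 1 then (1 : ℝ) else 0))) =
      (UU G).E (fun z => (UU G).E (fun v => if ⁅A, ⁅z, v⁆⁆ = 1 then (1 : ℝ) else 0)) := by
    intro A
    have h1 : ∀ z : G, (UU G).E (fun v =>
        (UU G).E (fun u => if ⁅A, u * ⁅z, v⁆ * u⁻¹⁆ = 1 then (1 : ℝ) else 0)) =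
        (UU G).E (fun u => (UU G).E (fun v => if ⁅A, u * ⁅z, v⁆ * u⁻¹⁆ = 1
          then (1 : ℝ) else 0)) := fun z => Dist.E_comm _ _ _
    simp only [h1]
    rw [Dist.E_comm]
    have h2 : ∀ u : G, (UU G).E (fun z => (UU G).E (fun v => if ⁅A, u * ⁅z, v⁆ * u⁻¹⁆ = 1
          then (1 : ℝ) else 0)) =
        (UU G).E (fun z => (UU G).E (fun v => if ⁅A, ⁅z, v⁆⁆ = 1 then (1 : ℝ) else 0)) := by
      intro u
      have h3 : ∀ z v : G, u * ⁅z, v⁆ * u⁻¹ = ⁅u * z * u⁻¹, u * v * u⁻¹⁆ := by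
        intro z v
        simp only [commutatorElement_def]
        group
      simp only [h3]
      have h4 : ∀ z : G, (UU G).E (fun v => if ⁅A, ⁅u * z * u⁻¹, u * v * u⁻¹⁆⁆ = 1
          then (1 : ℝ) else 0) = (UU G).E (fun v => if ⁅A, ⁅u * z * u⁻¹, v⁆⁆ = 1
          then (1 : ℝ) else 0) := fun z =>
        UU_conj u (fun v => if ⁅A, ⁅u * z * u⁻¹, v⁆⁆ = 1 then (1 : ℝ) else 0)
      simp only [h4]
      exact UU_conj u (fun z => (UU G).E (fun v => if ⁅A, ⁅z, v⁆⁆ = 1 then (1 : ℝ) else 0))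
    simp only [h2]
    rw [Dist.E_const]
  simp only [e1]
  -- centraliser of the commutators
  let Z : Subgroup G := Subgroup.centralizer {g | ∃ z v : G, g = ⁅z, v⁆}
  have hmem : ∀ A B : G, A ∈ Subgroup.centralizer {B} ↔ ⁅A, B⁆ = 1 := by
    intro A B
    rw [Subgroup.mem_centralizer_iff, commutatorElement_eq_one_iff_mul_comm]
    constructor
    · intro h
      exact (h B rfl).symm
    · rintro h _ rfl
      exact h.symm
  have e2 : ∀ x y : G, (UU G).E (fun z => (UU G).E (fun v => if ⁅⁅x, y⁆, ⁅z, v⁆⁆ = 1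
      then (1 : ℝ) else 0)) ≤ 3 / 4 + 1 / 4 * (if ⁅x, y⁆ ∈ Z then (1 : ℝ) else 0) := by
    intro x y
    by_cases hZ : ⁅x, y⁆ ∈ Z
    · rw [if_pos hZ]
      refine le_trans (Dist.E_le (c := 1) _ fun i => Dist.E_le _ fun j => ?_) (by norm_num)
      split_ifs <;> norm_num
    · rw [if_neg hZ, mul_zero, add_zero]
      by_contra hc
      push Not at hc
      apply hZ
      rw [Subgroup.mem_centralizer_iff]
      rintro _ ⟨z, v, rfl⟩
      have h5 : ∀ z v : G, (⁅⁅x, y⁆, ⁅z, v⁆⁆ = 1) = (⁅z, v⁆ ∈ Subgroup.centralizer {⁅x, y⁆}) := by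
        intro z v
        rw [hmem, commutatorElement_eq_one_iff_mul_comm, commutatorElement_eq_one_iff_mul_comm]
        exact propext eq_comm
      have h6 := gap_a (Subgroup.centralizer {⁅x, y⁆}) (by
        refine hc.trans_le (le_of_eq ?_)
        simp only [h5]) z v
      rw [hmem, commutatorElement_eq_one_iff_mul_comm] at h6
      exact h6
  have e3 : (UU G).E (fun x => (UU G).E (fun y => if ⁅x, y⁆ ∈ Z then (1 : ℝ) else 0)) ≤ 3 / 4 := by
    by_contra hc
    push Not at hc
    obtain ⟨x, y, z, v, hne⟩ := hG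
    apply hne
    have h7 := gap_a Z hc x y
    rw [Subgroup.mem_centralizer_iff] at h7
    rw [commutatorElement_eq_one_iff_mul_comm]
    exact (h7 _ ⟨z, v, rfl⟩).symm
  calc _ ≤ (UU G).E (fun x => (UU G).E (fun y =>
        3 / 4 + 1 / 4 * (if ⁅x, y⁆ ∈ Z then (1 : ℝ) else 0))) :=
        Dist.E_mono _ fun i => Dist.E_mono _ fun j => e2 _ _
    _ = 3 / 4 + 1 / 4 * (UU G).E (fun x => (UU G).E (fun y =>
        if ⁅x, y⁆ ∈ Z then (1 : ℝ) else 0)) := by
        simp only [Dist.E_add, Dist.E_const, Dist.E_const_mul]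
    _ ≤ 15 / 16 := by linarith

end Unif

/-! ### Mixing -/

section Mix

variable {G : Type} [Group G]

lemma Dist.E_pow_add (D : Dist G) (n m : ℕ) (F : G → ℝ) :
    (D.pow (n + m)).E F = (D.pow n).E (fun x => (D.pow m).E (fun y => F (x * y))) := by
  induction n generalizing F with
  | zero => rw [Nat.zero_add, Dist.E_pow_zero]; simp only [one_mul]
  | succ n ih =>
    rw [show n + 1 + m = n + m + 1 by ring, Dist.E_pow_succ, Dist.E_pow_succ]
    congr 1
    funext s
    rw [ih]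
    simp only [mul_assoc]

lemma Dist.E_eq_sum_push [Fintype G] (D : Dist G) (F : G → ℝ) :
    D.E F = ∑ g : G, D.push g * F g := by
  classical
  have h1 : ∀ g : G, D.push g * F g =
      ∑ i, D.p i * ((if D.st i = g then (1 : ℝ) else 0) * F g) := by
    intro s
    rw [push, E, Finset.sum_mul]
    exact Finset.sum_congr rfl fun i _ => by ring
  rw [Finset.sum_congr rfl fun s _ => h1 s, Finset.sum_comm]
  refine Finset.sum_congr rfl fun i _ => ?_
  rw [← Finset.mul_sum]
  congr 1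
  rw [Finset.sum_eq_single (D.st i)]
  · simp
  · intro s _ hs
    rw [if_neg (Ne.symm hs), zero_mul]
  · intro h2
    exact absurd (Finset.mem_univ _) h2

/-- the distribution indexed by the group itself -/
noncomputable def Dist.flat [Fintype G] (D : Dist G) : Dist G where
  ι := G
  fi := inferInstance
  p := D.push
  st := fun g => g
  nn := D.push_nonneg
  one := by
    have := D.E_eq_sum_push (fun _ => 1)
    simp only [mul_one] at this
    rw [← this, Dist.E_const]

lemma Dist.Ed_eq_sum_push [Fintype G] (D : Dist G) (d : ℕ) (F : (Fin d → G) → ℝ) :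
    D.Ed d F = ∑ g : Fin d → G, (∏ i, D.push (g i)) * F g := by
  rw [Dist.Ed_congr (D' := D.flat) (fun F => D.E_eq_sum_push F)]
  rfl

/-- translation operator -/
noncomputable def TT (D : Dist G) (n : ℕ) (F : G → ℝ) (g : G) : ℝ :=
  (D.pow n).E (fun x => F (g * x))

lemma TT_add (D : Dist G) (n m : ℕ) (F : G → ℝ) : TT D (n + m) F = TT D n (TT D m F) := by
  funext g
  unfold TT
  rw [Dist.E_pow_add]
  simp only [mul_assoc]

lemma TT_osc (D : Dist G) (n : ℕ) (F : G → ℝ) (c : ℝ) (h : ∀ g g', F g - F g' ≤ c) :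
    ∀ g g', TT D n F g - TT D n F g' ≤ c := by
  intro g g'
  unfold TT
  rw [← Dist.E_sub]
  exact Dist.E_le _ fun i => h _ _

variable [Fintype G]

lemma TT_avg (D : Dist G) (n : ℕ) (F : G → ℝ) : (UU G).E (TT D n F) = (UU G).E F := by
  unfold TT
  rw [Dist.E_comm]
  simp only [UU_mul_right]
  rw [Dist.E_const]

lemma push_pow_pos_succ (D : Dist G) (h1 : 0 < D.push 1) (n : ℕ) (g : G)
    (h : 0 < (D.pow n).push g) : 0 < (D.pow (n + 1)).push g := by
  classical
  have h2 : (D.pow n).push g * D.push 1 ≤ (D.pow (n + 1)).push g := by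
    unfold Dist.push
    rw [Dist.E_pow_succ', ← Dist.E_mul_const]
    refine Dist.E_mono _ fun i => ?_
    by_cases hi : (D.pow n).st i = g
    · rw [if_pos hi, one_mul]
      refine Dist.E_mono _ fun j => ?_
      by_cases hj : D.st j = 1
      · rw [if_pos hj, if_pos (by rw [hi, hj, mul_one])]
      · rw [if_neg hj]; split_ifs <;> norm_num
    · rw [if_neg hi, zero_mul]
      exact Dist.E_nonneg _ fun j => by split_ifs <;> norm_num
  exact lt_of_lt_of_le (mul_pos h h1) h2

lemma push_pow_pos_mono (D : Dist G) (h1 : 0 < D.push 1) (n m : ℕ) (hnm : n ≤ m) (g : G)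
    (h : 0 < (D.pow n).push g) : 0 < (D.pow m).push g := by
  induction m, hnm using Nat.le_induction with
  | base => exact h
  | succ m _ ih => exact push_pow_pos_succ D h1 m g ih

lemma push_pow_mul (D : Dist G) (n m : ℕ) (g h : G) (hg : 0 < (D.pow n).push g)
    (hh : 0 < (D.pow m).push h) : 0 < (D.pow (n + m)).push (g * h) := by
  classical
  have h2 : (D.pow n).push g * (D.pow m).push h ≤ (D.pow (n + m)).push (g * h) := by
    unfold Dist.push
    rw [Dist.E_pow_add, ← Dist.E_mul_const]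
    refine Dist.E_mono _ fun i => ?_
    by_cases hi : (D.pow n).st i = g
    · rw [if_pos hi, one_mul]
      refine Dist.E_mono _ fun j => ?_
      by_cases hj : (D.pow m).st j = h
      · rw [if_pos hj, if_pos (by rw [hi, hj])]
      · rw [if_neg hj]; split_ifs <;> norm_num
    · rw [if_neg hi, zero_mul]
      exact Dist.E_nonneg _ fun j => by split_ifs <;> norm_num
  exact lt_of_lt_of_le (mul_pos hg hh) h2

lemma exists_push_pos (D : Dist G)
    (hg : Subgroup.closure {g | ∃ i, 0 < D.p i ∧ D.st i = g} = ⊤) (g : G) :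
    ∃ n, 0 < (D.pow n).push g := by
  classical
  have hone : 0 < (D.pow 0).push 1 := by
    unfold Dist.push
    rw [Dist.E_pow_zero, if_pos rfl]
    norm_num
  have hmem : g ∈ Subgroup.closure {g | ∃ i, 0 < D.p i ∧ D.st i = g} := by
    rw [hg]; trivial
  induction hmem using Subgroup.closure_induction with
  | mem x hx =>
    obtain ⟨i, hi, rfl⟩ := hx
    refine ⟨1, ?_⟩
    have h1 : (D.pow 1).push (D.st i) = D.push (D.st i) := by
      unfold Dist.push
      rw [Dist.E_pow_succ]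
      simp only [Dist.E_pow_zero, mul_one]
    rw [h1]
    exact D.push_pos i hi
  | one => exact ⟨0, hone⟩
  | mul x y _ _ hx hy =>
    obtain ⟨n, hn⟩ := hx
    obtain ⟨m, hm⟩ := hy
    exact ⟨_, push_pow_mul D n m x y hn hm⟩
  | inv x _ hx =>
    obtain ⟨n, hn⟩ := hx
    have hpow : ∀ k : ℕ, ∃ m, 0 < (D.pow m).push (x ^ k) := by
      intro k
      induction k with
      | zero => exact ⟨0, by rw [pow_zero]; exact hone⟩
      | succ k ih =>
        obtain ⟨m, hm⟩ := ih
        exact ⟨_, by rw [pow_succ]; exact push_pow_mul D m n _ _ hm hn⟩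
    have hx : x⁻¹ = x ^ (orderOf x - 1) := by
      have h1 : x ^ orderOf x = 1 := pow_orderOf_eq_one x
      have h2 : 0 < orderOf x := orderOf_pos x
      obtain ⟨k, hk⟩ : ∃ k, orderOf x = k + 1 := ⟨orderOf x - 1, by omega⟩
      rw [hk, Nat.add_sub_cancel]
      rw [hk, pow_succ] at h1
      exact (eq_inv_of_mul_eq_one_left h1).symm
    rw [hx]
    exact hpow _

/-- A lazy walk generating a finite group converges to the uniform distribution. -/
theorem mixing (D : Dist G) (h1 : 0 < D.push 1)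
    (hg : Subgroup.closure {g | ∃ i, 0 < D.p i ∧ D.st i = g} = ⊤) (F : G → ℝ) :
    Tendsto (fun n => (D.pow n).E F) atTop (𝓝 ((UU G).E F)) := by
  classical
  choose nf hnf using exists_push_pos D hg
  set N := Finset.univ.sup nf with hN
  have hNpos : ∀ g, 0 < (D.pow N).push g := fun g =>
    push_pow_pos_mono D h1 (nf g) N (Finset.le_sup (Finset.mem_univ g)) g (hnf g)
  obtain ⟨ε, hε, hε'⟩ : ∃ ε : ℝ, 0 < ε ∧ ∀ g, ε ≤ (D.pow N).push g := by
    obtain ⟨g0, _, hg0⟩ := Finset.exists_min_image Finset.univ (fun g => (D.pow N).push g)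
      ⟨1, Finset.mem_univ _⟩
    exact ⟨_, hNpos g0, fun g => hg0 g (Finset.mem_univ g)⟩
  have hε1 : ε ≤ 1 := by
    refine (hε' 1).trans ?_
    unfold Dist.push
    exact Dist.E_le _ fun i => by split_ifs <;> norm_num
  -- contraction
  have contr : ∀ (F : G → ℝ) (c : ℝ), (∀ g g', F g - F g' ≤ c) →
      ∀ g g', TT D N F g - TT D N F g' ≤ (1 - ε) * c := by
    intro F c hc g g'
    obtain ⟨a, _, ha⟩ := Finset.exists_min_image Finset.univ F ⟨1, Finset.mem_univ _⟩
    obtain ⟨b, _, hb⟩ := Finset.exists_max_image Finset.univ F ⟨1, Finset.mem_univ _⟩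
    have h2 : TT D N F g' ≥ F a := Dist.E_ge _ fun i => ha _ (Finset.mem_univ _)
    have h3 : TT D N F g ≤ F b - (F b - F a) * ε := by
      have h4 : TT D N F g ≤ (D.pow N).E (fun x => F b - (F b - F a) *
          (if x = g⁻¹ * a then (1 : ℝ) else 0)) := by
        refine Dist.E_mono _ fun i => ?_
        by_cases hi : (D.pow N).st i = g⁻¹ * a
        · rw [if_pos hi, hi, mul_inv_cancel_left]
          linarith
        · rw [if_neg hi]
          have := hb (g * (D.pow N).st i) (Finset.mem_univ _)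
          linarith
      rw [Dist.E_sub, Dist.E_const, Dist.E_const_mul] at h4
      have h5 := hε' (g⁻¹ * a)
      unfold Dist.push at h5
      have h6 : 0 ≤ F b - F a := by
        have := ha b (Finset.mem_univ _)
        linarith
      have h7 := mul_le_mul_of_nonneg_left h5 h6
      linarith
    have h8 := hc b a
    have h9 : (1 - ε) * (F b - F a) ≤ (1 - ε) * c := mul_le_mul_of_nonneg_left h8 (by linarith)
    linarith
  obtain ⟨c, hc0, hc⟩ : ∃ c : ℝ, 0 ≤ c ∧ ∀ g g', F g - F g' ≤ c := by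
    obtain ⟨a, _, ha⟩ := Finset.exists_min_image Finset.univ F ⟨1, Finset.mem_univ _⟩
    obtain ⟨b, _, hb⟩ := Finset.exists_max_image Finset.univ F ⟨1, Finset.mem_univ _⟩
    refine ⟨F b - F a, by linarith [ha b (Finset.mem_univ _)], fun g g' => ?_⟩
    linarith [ha g' (Finset.mem_univ _), hb g (Finset.mem_univ _)]
  have iter : ∀ k : ℕ, ∀ g g', TT D (k * N) F g - TT D (k * N) F g' ≤ (1 - ε) ^ k * c := by
    intro k
    induction k with
    | zero =>
      intro g g'
      rw [Nat.zero_mul, pow_zero, one_mul]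
      unfold TT
      rw [Dist.E_pow_zero, Dist.E_pow_zero]
      exact hc _ _
    | succ k ih =>
      intro g g'
      rw [show (k + 1) * N = N + k * N by ring, TT_add]
      refine (contr _ _ ih g g').trans (le_of_eq ?_)
      rw [pow_succ]
      ring
  have bound : ∀ k n : ℕ, k * N ≤ n → |(D.pow n).E F - (UU G).E F| ≤ (1 - ε) ^ k * c := by
    intro k n hn
    have h2 : ∀ g g', TT D n F g - TT D n F g' ≤ (1 - ε) ^ k * c := by
      have : n = (n - k * N) + k * N := by omega
      rw [this, TT_add]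
      exact TT_osc D _ _ _ (iter k)
    have h3 : (D.pow n).E F = TT D n F 1 := by
      unfold TT
      simp only [one_mul]
    rw [h3, ← TT_avg D n F]
    have h4 : (UU G).E (TT D n F) ≤ TT D n F 1 + (1 - ε) ^ k * c :=
      Dist.E_le _ fun i => by linarith [h2 ((UU G).st i) 1]
    have h5 : TT D n F 1 - (1 - ε) ^ k * c ≤ (UU G).E (TT D n F) :=
      Dist.E_ge _ fun i => by linarith [h2 1 ((UU G).st i)]
    rw [abs_le]
    constructor <;> linarith
  rw [Metric.tendsto_atTop]
  intro η hη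
  have hlim : Tendsto (fun k : ℕ => (1 - ε) ^ k * c) atTop (𝓝 (0 * c)) :=
    (tendsto_pow_atTop_nhds_zero_of_lt_one (by linarith) (by linarith)).mul_const c
  rw [zero_mul] at hlim
  obtain ⟨k, hk⟩ := (hlim.eventually (gt_mem_nhds hη)).exists
  refine ⟨k * N, fun n hn => ?_⟩
  rw [Real.dist_eq]
  exact (bound k n hn).trans_lt hk

/-- The probability of a word converges to the probability for uniform elements. -/
theorem mixing_law (D : Dist G) (h1 : 0 < D.push 1)
    (hg : Subgroup.closure {g | ∃ i, 0 < D.p i ∧ D.st i = g} = ⊤) {d : ℕ}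
    (w : FreeGroup (Fin d)) :
    open Classical in
    Tendsto (fun n => D.lawProb w n) atTop
      (𝓝 ((UU G).Ed d (fun g => if FreeGroup.lift g w = 1 then (1 : ℝ) else 0))) := by
  classical
  unfold Dist.lawProb
  simp only [Dist.Ed_eq_sum_push]
  refine tendsto_finsetSum _ fun g _ => ?_
  refine Tendsto.mul_const _ (tendsto_finsetProd _ fun i _ => ?_)
  exact mixing D h1 hg _

/-- For the word `w5` the limit is at most `15/16` unless all commutators commute. -/
theorem eventually_gap (D : Dist G) (h1 : 0 < D.push 1)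
    (hg : Subgroup.closure {g | ∃ i, 0 < D.p i ∧ D.st i = g} = ⊤)
    (hG : ∃ x y z v : G, ⁅⁅x, y⁆, ⁅z, v⁆⁆ ≠ 1) :
    ∀ᶠ n in atTop, D.lawProb w5 n < 31 / 32 := by
  classical
  have h2 := mixing_law D h1 hg w5
  refine h2.eventually (gt_mem_nhds ?_)
  rw [Dist.Ed_five]
  simp only [lift_w5]
  exact lt_of_le_of_lt (gap_b hG) (by norm_num)

end Mix

end Pool.Agent.R901.WR
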