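import Pool.Agent.R901.WR.C1

/-!
The configurations with blocks: at small times the word holds, at some later time it fails with
probability at least `1/32`, and for large times it holds with probability tending to one.
-/

open Finset Filter Topology
open scoped commutatorElement

namespace Pool.Agent.R901.WR

/-- index of the nontrivial steps -/
abbrev Ix := Bool × (Fin 6 → Bool) × Bool

section General

variable {L A : Type} [Group L] [AddCommGroup A]

/-- a power of `h` -/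
def hb (h : A → L) (a : Bool) : Wr L A := ⟨fun i => if a then h i else 1, 0⟩

/-- the step `h^a t^τ h^b` -/
def stepH (h : A → L) (τ : (Fin 6 → Bool) → A) (x : Ix) : Wr L A :=
  hb h x.1 * Wr.tr (τ x.2.1) * hb h x.2.2

lemma stepH_s (h : A → L) (τ : (Fin 6 → Bool) → A) (x : Ix) : (stepH h τ x).s = τ x.2.1 := by
  simp [stepH, hb, Wr.tr]

lemma stepH_f (h : A → L) (τ : (Fin 6 → Bool) → A) (x : Ix) (i : A) : (stepH h τ x).f i =
    (if x.1 then h i else 1) * (if x.2.2 then h (i - τ x.2.1) else 1) := by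
  simp [stepH, hb, Wr.tr]

/-- the lazy walk -/
noncomputable def DL (h : A → L) (τ : (Fin 6 → Bool) → A) : Dist (Wr L A) where
  ι := Option Ix
  fi := inferInstance
  p := fun o => o.elim (1 / 2) fun _ => 1 / 512
  st := fun o => o.elim 1 (stepH h τ)
  nn := by
    rintro (_ | x) <;> simp
  one := by
    rw [Fintype.sum_option]
    simp only [Option.elim, Finset.sum_const, Finset.card_univ, nsmul_eq_mul]
    have : Fintype.card Ix = 256 := by simp
    rw [this]
    norm_num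

/-- product of the steps with the indices `t` -/
def prd (h : A → L) (τ : (Fin 6 → Bool) → A) {n : ℕ} (t : Fin n → Option Ix) : Wr L A :=
  (List.ofFn fun k => (t k).elim 1 (stepH h τ)).prod

/-- weight of a sequence of indices -/
noncomputable def wt {n : ℕ} (t : Fin n → Option Ix) : ℝ :=
  ∏ k, (t k).elim (1 / 2) fun _ => 1 / 512

lemma wt_nonneg {n : ℕ} (t : Fin n → Option Ix) : 0 ≤ wt t :=
  Finset.prod_nonneg fun k _ => by rcases t k with _ | x <;> simp

lemma DL_lawProb (h : A → L) (τ : (Fin 6 → Bool) → A) {d : ℕ} (w : FreeGroup (Fin d)) (n : ℕ) :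
    open Classical in
    (DL h τ).lawProb w n = ∑ t : Fin d → Fin n → Option Ix, (∏ i, wt (t i)) *
      (if FreeGroup.lift (fun i => prd h τ (t i)) w = 1 then 1 else 0) := rfl

lemma DL_lawProb' (h : A → L) (τ : (Fin 6 → Bool) → A) {d : ℕ} (w : FreeGroup (Fin d)) (n : ℕ) :
    open Classical in
    1 - (DL h τ).lawProb w n = ∑ t : Fin d → Fin n → Option Ix, (∏ i, wt (t i)) *
      (if FreeGroup.lift (fun i => prd h τ (t i)) w = 1 then 0 else 1) := by
  classical
  rw [Dist.one_sub_lawProb]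
  rfl

lemma lawProb_mono {L' A' : Type} [Group L'] [AddCommGroup A'] (h : A → L)
    (τ : (Fin 6 → Bool) → A) (h' : A' → L') (τ' : (Fin 6 → Bool) → A') {d : ℕ}
    (w : FreeGroup (Fin d)) (n : ℕ)
    (H : ∀ t : Fin d → Fin n → Option Ix, FreeGroup.lift (fun i => prd h τ (t i)) w = 1 →
      FreeGroup.lift (fun i => prd h' τ' (t i)) w = 1) :
    (DL h τ).lawProb w n ≤ (DL h' τ').lawProb w n := by
  classical
  rw [DL_lawProb, DL_lawProb]
  refine Finset.sum_le_sum fun t _ => mul_le_mul_of_nonneg_left ?_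
    (Finset.prod_nonneg fun i _ => wt_nonneg _)
  by_cases hc : FreeGroup.lift (fun i => prd h τ (t i)) w = 1
  · rw [if_pos hc, if_pos (H t hc)]
  · rw [if_neg hc]; split_ifs <;> norm_num

lemma prd_ind (h : A → L) (τ : (Fin 6 → Bool) → A) (P : ℕ → Wr L A → Prop) (h0 : P 0 1)
    (hs : ∀ n g, P n g → P (n + 1) g)
    (hn : ∀ n x g, P n g → P (n + 1) (stepH h τ x * g)) {n : ℕ} (t : Fin n → Option Ix) :
    P n (prd h τ t) := by
  induction n with
  | zero => simpa [prd] using h0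
  | succ n ih =>
    have : prd h τ t = (t 0).elim 1 (stepH h τ) * prd h τ (fun k => t k.succ) := by
      unfold prd
      rw [List.ofFn_succ, List.prod_cons]
    rw [this]
    rcases t 0 with _ | x
    · simp only [Option.elim, one_mul]
      exact hs _ _ (ih _)
    · exact hn _ _ _ (ih _)

end General

/-! ### Decay for a finitely supported configuration -/

section Decay

variable {L : Type} [Group L]

lemma DL_pos (h : (Fin 6 → ℤ) → L) (F : (Fin 6 → ℤ) → ℝ) :
    (DL h sgv).E (fun g => F g.s) = (1 - 1 / 2) * F 0 +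
      (1 / 2) * ((1 / 2 ^ 6) * ∑ ε : Fin 6 → Bool, F (sgv ε)) := by
  have h1 : (DL h sgv).E (fun g => F g.s) = ∑ o : Option Ix,
      (o.elim (1 / 2 : ℝ) fun _ => 1 / 512) * F (o.elim 1 (stepH h sgv) : Wr L (Fin 6 → ℤ)).s := rfl
  rw [h1, Fintype.sum_option]
  simp only [Option.elim, Wr.one_s, stepH_s]
  have h2 : ∑ x : Ix, (1 / 512 : ℝ) * F (sgv x.2.1) = (4 / 512) *
      ∑ ε : Fin 6 → Bool, F (sgv ε) := by
    rw [Fintype.sum_prod_type]
    simp only [Fintype.sum_prod_type, Finset.sum_const, Finset.card_univ, nsmul_eq_mul,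
      ← Finset.mul_sum, Fintype.card_bool]
    push_cast
    ring
  rw [h2]
  ring

lemma decay (h : (Fin 6 → ℤ) → L) (V : Finset (Fin 6 → ℤ)) (hV : ∀ i, i ∉ V → h i = 1) :
    ∃ C : ℝ, 0 ≤ C ∧ ∀ n : ℕ, 1 - (DL h sgv).lawProb w5 n ≤ C / ((n : ℝ) + 1) := by
  refine ⟨3072 * (V.card : ℝ) ^ 2, by positivity, fun n => ?_⟩
  have hS : ∀ t, Wr.SL (2 * V.card * n) (((DL h sgv).pow n).st t) := by
    intro t
    have hb1 : ∀ a, Wr.SL V.card (hb h a) := by
      intro a
      refine ⟨V, le_rfl, fun i hi => ?_⟩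
      simp only [hb]
      rw [hV i hi]
      split_ifs <;> rfl
    refine prd_ind h sgv (fun n g => Wr.SL (2 * V.card * n) g) (Wr.SL.one.mono (by simp)) ?_ ?_ t
    · intro n g hg
      exact hg.mono (Nat.mul_le_mul_left _ (Nat.le_succ _))
    · intro n x g hg
      have h0 : Wr.SL 0 (Wr.tr (sgv x.2.1) : Wr L (Fin 6 → ℤ)) := ⟨∅, by simp, fun i _ => rfl⟩
      refine ((((hb1 x.1).mul h0).mul (hb1 x.2.2)).mul hg).mono ?_
      ring_nf
      rfl
  have hB : ∀ v, ((DL h sgv).pow n).E (fun g => if g.s = v then 1 else 0) ≤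
      48 / ((n : ℝ) + 1) ^ 3 := by
    intro v
    refine (anti (DL h sgv) (1 / 2) (by norm_num) (by norm_num) (DL_pos h) n v).trans
      (le_of_eq ?_)
    field_simp
    norm_num
  refine (w5_bound (DL h sgv) n (2 * V.card * n) _ hB hS).trans ?_
  push_cast
  have h : (0 : ℝ) ≤ n := by positivity
  have hc : (0 : ℝ) ≤ (V.card : ℝ) ^ 2 := by positivity
  rw [show (4 * (2 * (V.card : ℝ) * (n : ℝ))) * ((4 * (2 * (V.card : ℝ) * n)) *
    (48 / ((n : ℝ) + 1) ^ 3)) = (3072 * (V.card : ℝ) ^ 2) * ((n : ℝ) ^ 2 / ((n : ℝ) + 1) ^ 3) by ring]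
  rw [show 3072 * (V.card : ℝ) ^ 2 / ((n : ℝ) + 1) = (3072 * (V.card : ℝ) ^ 2) *
    (1 / ((n : ℝ) + 1)) by ring]
  refine mul_le_mul_of_nonneg_left ?_ (by positivity)
  rw [div_le_div_iff₀ (by positivity) (by positivity)]
  nlinarith [mul_nonneg h h, mul_nonneg (mul_nonneg h h) h]

end Decay

/-! ### Small times -/

section Small

variable {L : Type} [Group L]

/-- near the hyperplane `i 0 = c` the values lie in `K` -/
def Lc (K : Subgroup L) (c r m : ℤ) (x : Wr L (Fin 6 → ℤ)) : Prop :=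
  |x.s 0| ≤ m ∧ ∀ i : Fin 6 → ℤ, |i 0 - c| ≤ r → x.f i ∈ K

lemma abs_sgv (ε : Fin 6 → Bool) (j : Fin 6) : |sgv ε j| ≤ 1 := by
  simp only [sgv, sg]
  split_ifs <;> simp

lemma Lc_prd (h : (Fin 6 → ℤ) → L) (K : Subgroup L) (c r : ℤ)
    (hK : ∀ i : Fin 6 → ℤ, |i 0 - c| ≤ r → h i ∈ K) {n : ℕ} (t : Fin n → Option Ix) :
    Lc K c (r - n) n (prd h sgv t) := by
  refine prd_ind h sgv (fun n g => Lc K c (r - n) n g) ?_ ?_ ?_ t
  · refine ⟨by simp, fun i _ => ?_⟩
    rw [Wr.one_f]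
    exact one_mem _
  · rintro n g ⟨h1, h2⟩
    push_cast
    exact ⟨by linarith, fun i hi => h2 i (by linarith)⟩
  · rintro n x g ⟨h1, h2⟩
    push_cast
    have hτ := abs_sgv x.2.1 0
    refine ⟨?_, fun i hi => ?_⟩
    · rw [Wr.mul_s, Pi.add_apply, stepH_s]
      exact (abs_add_le _ _).trans (by linarith)
    · have e1 : |i 0 - sgv x.2.1 0 - c| ≤ r - n := by
        have : i 0 - sgv x.2.1 0 - c = (i 0 - c) + (- sgv x.2.1 0) := by ring
        rw [this]
        refine (abs_add_le _ _).trans ?_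
        rw [abs_neg]
        linarith
      rw [Wr.mul_f, stepH_s, stepH_f]
      refine mul_mem (mul_mem ?_ ?_) (h2 _ e1)
      · split_ifs
        · exact hK _ (by linarith [show (0 : ℤ) ≤ n by positivity])
        · exact one_mem _
      · split_ifs
        · exact hK _ (by
            rw [Pi.sub_apply]
            linarith [show (0 : ℤ) ≤ n by positivity])
        · exact one_mem _

lemma small_time (h : (Fin 6 → ℤ) → L) (n : ℕ)
    (hK : ∀ c : ℤ, ∃ K : Subgroup L, (∀ a ∈ K, ∀ b ∈ K, a * b = b * a) ∧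
      ∀ i : Fin 6 → ℤ, |i 0 - c| ≤ 3 * n → h i ∈ K) (t : Fin 5 → Fin n → Option Ix) :
    FreeGroup.lift (fun i => prd h sgv (t i)) w5 = 1 := by
  have h1 : (fun i => prd h sgv (t i)) = ![prd h sgv (t 0), prd h sgv (t 1), prd h sgv (t 2),
      prd h sgv (t 3), prd h sgv (t 4)] := by
    funext i
    fin_cases i <;> rfl
  rw [h1, lift_w5, Wr.comm_eq_one_iff (Wr.comm_s _ _) (Wr.conj_s _ _ (Wr.comm_s _ _))]
  intro i
  obtain ⟨K, hcomm, hK⟩ := hK (i 0)
  have hL : ∀ j : Fin 5, Lc K (i 0) (3 * n - n) n (prd h sgv (t j)) := fun j =>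
    Lc_prd h K (i 0) (3 * n) hK (t j)
  set X := fun j => prd h sgv (t j) with hX
  have hX0 : ∀ j : Fin 5, X j = prd h sgv (t j) := fun j => rfl
  simp only [← hX0] at hL ⊢
  have hn : (0 : ℤ) ≤ n := by positivity
  have hcK : ∀ (x y : Wr L (Fin 6 → ℤ)), Lc K (i 0) (3 * n - n) n x → Lc K (i 0) (3 * n - n) n y →
      ∀ k : Fin 6 → ℤ, |k 0 - i 0| ≤ n → (⁅x, y⁆).f k ∈ K := by
    intro x y hx hy k hk
    rw [Wr.comm_f]
    refine mul_mem (mul_mem (mul_mem (hx.2 _ (by linarith)) (hy.2 _ ?_))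
      (inv_mem (hx.2 _ ?_))) (inv_mem (hy.2 _ (by linarith)))
    · rw [Pi.sub_apply]
      have : k 0 - x.s 0 - i 0 = (k 0 - i 0) + (-x.s 0) := by ring
      rw [this]
      refine (abs_add_le _ _).trans ?_
      rw [abs_neg]
      linarith [hx.1]
    · rw [Pi.sub_apply]
      have : k 0 - y.s 0 - i 0 = (k 0 - i 0) + (-y.s 0) := by ring
      rw [this]
      refine (abs_add_le _ _).trans ?_
      rw [abs_neg]
      linarith [hy.1]
  rw [commutatorElement_eq_one_iff_mul_comm]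
  refine hcomm _ (hcK _ _ (hL 0) (hL 1) i (by simpa using hn)) _ ?_
  rw [Wr.conj_f _ _ (Wr.comm_s _ _)]
  have hu : (X 4).f i ∈ K := (hL 4).2 i (by simp only [sub_self, abs_zero]; linarith)
  refine mul_mem (mul_mem hu (hcK _ _ (hL 2) (hL 3) _ ?_)) (inv_mem hu)
  rw [Pi.sub_apply]
  have : i 0 - (X 4).s 0 - i 0 = -(X 4).s 0 := by ring
  rw [this, abs_neg]
  exact (hL 4).1

end Small

/-! ### Block patterns -/

section Pattern

variable {L : Type} [Group L]

/-- the pattern of period `4 ρ` -/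
def pat (α β : L) (ρ : ℕ) (j : ℤ) : L :=
  if j % (4 * ρ) < ρ then α else
    if 2 * ρ ≤ j % (4 * ρ) ∧ j % (4 * ρ) < 3 * ρ then β else 1

/-- the pattern on a box -/
def hh (α β : L) (ρ R : ℕ) (i : Fin 6 → ℤ) : L :=
  open Classical in if ∀ j, |i j| ≤ R then pat α β ρ (i 0) else 1

lemma hh_support (α β : L) (ρ R : ℕ) (i : Fin 6 → ℤ)
    (hi : i ∉ Fintype.piFinset fun _ : Fin 6 => Finset.Icc (-(R : ℤ)) R) : hh α β ρ R i = 1 := by
  unfold hh
  rw [if_neg]
  intro h
  apply hi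
  rw [Fintype.mem_piFinset]
  intro j
  rw [Finset.mem_Icc]
  exact abs_le.1 (h j)

lemma pat_far (ρ : ℕ) (n : ℕ) (hn : 6 * n ≤ ρ) (hρ : 1 ≤ ρ) (c j j' : ℤ) (hj : |j - c| ≤ 3 * n)
    (hj' : |j' - c| ≤ 3 * n) (h1 : j % (4 * ρ) < ρ) (h2 : 2 * ρ ≤ j' % (4 * ρ))
    (h3 : j' % (4 * ρ) < 3 * ρ) : False := by
  have hr : (1 : ℤ) ≤ ρ := by exact_mod_cast hρ
  have e1 := Int.emod_add_mul_ediv j (4 * ρ)
  have e2 := Int.emod_add_mul_ediv j' (4 * ρ)
  have e3 := Int.emod_nonneg j (show (4 * (ρ : ℤ)) ≠ 0 by positivity)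
  set a := j % (4 * ρ)
  set b := j' % (4 * ρ)
  set q := j / (4 * ρ)
  set q' := j' / (4 * ρ)
  rw [abs_le] at hj hj'
  have hn' : (6 * (n : ℤ)) ≤ ρ := by exact_mod_cast hn
  have d1 : j' - j ≤ ρ := by linarith
  have d2 : -(ρ : ℤ) ≤ j' - j := by linarith
  rcases lt_trichotomy q' q with h | h | h
  · have : (4 * (ρ : ℤ)) * (q' - q) ≤ (4 * ρ) * (-1) :=
      mul_le_mul_of_nonneg_left (by linarith) (by positivity)
    nlinarith
  · rw [h] at e2
    linarith
  · have : (4 * (ρ : ℤ)) * 1 ≤ (4 * ρ) * (q' - q) :=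
      mul_le_mul_of_nonneg_left (by linarith) (by positivity)
    nlinarith

lemma hh_small (α β : L) (ρ R n : ℕ) (hn : 6 * n ≤ ρ) (hρ : 1 ≤ ρ)
    (t : Fin 5 → Fin n → Option Ix) :
    FreeGroup.lift (fun i => prd (hh α β ρ R) sgv (t i)) w5 = 1 := by
  apply small_time
  intro c
  have hz : ∀ g : L, ∀ a ∈ Subgroup.zpowers g, ∀ b ∈ Subgroup.zpowers g, a * b = b * a := by
    rintro g _ ⟨k, rfl⟩ _ ⟨l, rfl⟩
    simp only
    rw [← zpow_add, ← zpow_add, add_comm]
  by_cases hc : ∃ j : ℤ, |j - c| ≤ 3 * n ∧ j % (4 * ρ) < ρ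
  · obtain ⟨j, hj, hj'⟩ := hc
    refine ⟨Subgroup.zpowers α, hz α, fun i hi => ?_⟩
    unfold hh
    split_ifs
    · unfold pat
      split_ifs with h1 h2
      · exact Subgroup.mem_zpowers α
      · exact (pat_far ρ n hn hρ c j (i 0) hj hi hj' h2.1 h2.2).elim
      · exact one_mem _
    · exact one_mem _
  · refine ⟨Subgroup.zpowers β, hz β, fun i hi => ?_⟩
    unfold hh
    split_ifs
    · unfold pat
      split_ifs with h1 h2
      · exact (hc ⟨i 0, hi, h1⟩).elim
      · exact Subgroup.mem_zpowers β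
      · exact one_mem _
    · exact one_mem _

end Pattern

end Pool.Agent.R901.WR
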