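import Pool.Agent.R901.WR.C2

/-!
Comparison of the block configuration with a periodic one, and the failure of the word.
-/

open Finset Filter Topology
open scoped commutatorElement

namespace Pool.Agent.R901.WR

section Sim

variable {L : Type} [Group L] {N : ℕ}

/-- `x` looks like `x'` in the box of radius `r` -/
def Sm (r m : ℤ) (x : Wr L (Fin 6 → ℤ)) (x' : Wr L (ZMod N)) : Prop :=
  (∀ j, |x.s j| ≤ m) ∧ x'.s = (x.s 0 : ZMod N) ∧
    ∀ i : Fin 6 → ℤ, (∀ j, |i j| ≤ r) → x.f i = x'.f (i 0 : ZMod N)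

lemma Sm.mul {r1 m1 r2 m2 : ℤ} {x y : Wr L (Fin 6 → ℤ)} {x' y' : Wr L (ZMod N)}
    (hx : Sm r1 m1 x x') (hy : Sm r2 m2 y y') (r m : ℤ) (h1 : r ≤ r1) (h2 : r + m1 ≤ r2)
    (h3 : m1 + m2 ≤ m) : Sm r m (x * y) (x' * y') := by
  obtain ⟨a1, a2, a3⟩ := hx
  obtain ⟨b1, b2, b3⟩ := hy
  refine ⟨fun j => ?_, ?_, fun i hi => ?_⟩
  · rw [Wr.mul_s, Pi.add_apply]
    exact (abs_add_le _ _).trans (by linarith [a1 j, b1 j])
  · rw [Wr.mul_s, Wr.mul_s, a2, b2, Pi.add_apply]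
    push_cast
    rfl
  · rw [Wr.mul_f, Wr.mul_f, a3 i fun j => (hi j).trans h1, b3 (i - x.s) fun j => ?_, a2]
    · rw [Pi.sub_apply]
      push_cast
      rfl
    · rw [Pi.sub_apply]
      have : i j - x.s j = i j + (-x.s j) := by ring
      rw [this]
      refine (abs_add_le _ _).trans ?_
      rw [abs_neg]
      linarith [a1 j, hi j]

lemma Sm.inv {r1 m1 : ℤ} {x : Wr L (Fin 6 → ℤ)} {x' : Wr L (ZMod N)}
    (hx : Sm r1 m1 x x') (r m : ℤ) (h1 : r + m1 ≤ r1) (h2 : m1 ≤ m) : Sm r m x⁻¹ x'⁻¹ := by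
  obtain ⟨a1, a2, a3⟩ := hx
  refine ⟨fun j => ?_, ?_, fun i hi => ?_⟩
  · rw [Wr.inv_s, Pi.neg_apply, abs_neg]
    exact (a1 j).trans h2
  · rw [Wr.inv_s, Wr.inv_s, a2, Pi.neg_apply]
    push_cast
    rfl
  · rw [Wr.inv_f, Wr.inv_f, a3 (i + x.s) fun j => ?_, a2]
    · rw [Pi.add_apply]
      push_cast
      rfl
    · rw [Pi.add_apply]
      refine (abs_add_le _ _).trans ?_
      linarith [a1 j, hi j]

lemma Sm.comm {r1 r2 m1 m2 : ℤ} {x y : Wr L (Fin 6 → ℤ)} {x' y' : Wr L (ZMod N)}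
    (hx : Sm r1 m1 x x') (hy : Sm r2 m2 y y') (r m : ℤ) (h1 : r + 2 * m1 + 2 * m2 ≤ r1)
    (h2 : r + 2 * m1 + 2 * m2 ≤ r2) (h3 : 2 * m1 + 2 * m2 ≤ m) (p1 : 0 ≤ m1) (p2 : 0 ≤ m2) :
    Sm r m ⁅x, y⁆ ⁅x', y'⁆ := by
  rw [commutatorElement_def, commutatorElement_def]
  have e1 := hx.mul hy (r + m1 + m2) (m1 + m2) (by linarith) (by linarith) le_rfl
  have e2 := hx.inv (r + 2 * m1 + 2 * m2 - m1) m1 (by linarith) le_rfl
  have e3 := hy.inv (r + 2 * m1 + 2 * m2 - m2) m2 (by linarith) le_rfl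
  have e4 := e1.mul e2 (r + 0) (2 * m1 + m2) (by linarith) (by linarith) (by linarith)
  exact e4.mul e3 r m (by linarith) (by linarith) (by linarith)

lemma Sm_prd (h : (Fin 6 → ℤ) → L) (h' : ZMod N → L) (R : ℤ)
    (hh' : ∀ i : Fin 6 → ℤ, (∀ j, |i j| ≤ R) → h i = h' (i 0 : ZMod N)) {n : ℕ}
    (t : Fin n → Option Ix) :
    Sm (R - n) n (prd h sgv t) (prd h' (fun ε => (sgv ε 0 : ZMod N)) t) := by
  induction n with
  | zero =>
    simp only [prd, List.ofFn_zero, List.prod_nil]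
    exact ⟨by simp, by simp, fun i _ => rfl⟩
  | succ n ih =>
    have e1 : prd h sgv t = (t 0).elim 1 (stepH h sgv) * prd h sgv (fun k => t k.succ) := by
      unfold prd
      rw [List.ofFn_succ, List.prod_cons]
    have e2 : prd h' (fun ε => (sgv ε 0 : ZMod N)) t = (t 0).elim 1 (stepH h' fun ε =>
        (sgv ε 0 : ZMod N)) * prd h' (fun ε => (sgv ε 0 : ZMod N)) (fun k => t k.succ) := by
      unfold prd
      rw [List.ofFn_succ, List.prod_cons]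
    rw [e1, e2]
    have e3 : Sm (R - 1) 1 ((t 0).elim 1 (stepH h sgv)) ((t 0).elim 1 (stepH h' fun ε =>
        (sgv ε 0 : ZMod N))) := by
      rcases t 0 with _ | x
      · exact ⟨by simp, by simp, fun i _ => rfl⟩
      · simp only [Option.elim]
        refine ⟨fun j => ?_, ?_, fun i hi => ?_⟩
        · rw [stepH_s]
          exact abs_sgv _ _
        · rw [stepH_s, stepH_s]
        · rw [stepH_f, stepH_f, hh' i fun j => (hi j).trans (by linarith),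
            hh' (i - sgv x.2.1) fun j => ?_]
          · rw [Pi.sub_apply]
            push_cast
            rfl
          · rw [Pi.sub_apply]
            have : i j - sgv x.2.1 j = i j + (-sgv x.2.1 j) := by ring
            rw [this]
            refine (abs_add_le _ _).trans ?_
            rw [abs_neg]
            linarith [hi j, abs_sgv x.2.1 j]
    refine e3.mul (ih _) _ _ ?_ ?_ ?_ <;> push_cast <;>
      linarith [show (0 : ℤ) ≤ n by positivity]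

lemma Sm_w5 (R n : ℤ) (hn : 0 ≤ n) (x : Fin 5 → Wr L (Fin 6 → ℤ)) (x' : Fin 5 → Wr L (ZMod N))
    (h : ∀ j, Sm (R - n) n (x j) (x' j)) :
    Sm (R - 27 * n) (20 * n) (⁅⁅x 0, x 1⁆, x 4 * ⁅x 2, x 3⁆ * (x 4)⁻¹⁆)
      (⁅⁅x' 0, x' 1⁆, x' 4 * ⁅x' 2, x' 3⁆ * (x' 4)⁻¹⁆) := by
  have e1 := (h 0).comm (h 1) (R - 5 * n) (4 * n) (by linarith) (by linarith) (by linarith) hn hn
  have e2 := (h 2).comm (h 3) (R - 5 * n) (4 * n) (by linarith) (by linarith) (by linarith) hn hn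
  have e3 := (h 4).mul e2 (R - 6 * n) (5 * n) (by linarith) (by linarith) (by linarith)
  have e4 := (h 4).inv (R - 2 * n) n (by linarith) (by linarith)
  have e5 := e3.mul e4 (R - 7 * n) (6 * n) (by linarith) (by linarith) (by linarith)
  exact e1.comm e5 (R - 27 * n) (20 * n) (by linarith) (by linarith) (by linarith)
    (by linarith) (by linarith)

end Sim

section Fail

variable {L : Type} [Group L]

/-- the periodic configuration -/
def ph (α β : L) (ρ : ℕ) (k : ZMod (4 * ρ)) : L := pat α β ρ (k.val : ℤ)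

/-- the increments of the position modulo `4 ρ` -/
def tb (ρ : ℕ) (ε : Fin 6 → Bool) : ZMod (4 * ρ) := (sgv ε 0 : ZMod (4 * ρ))

lemma ph_cast (α β : L) (ρ : ℕ) (hρ : 1 ≤ ρ) (j : ℤ) :
    ph α β ρ (j : ZMod (4 * ρ)) = pat α β ρ j := by
  haveI : NeZero (4 * ρ) := ⟨by omega⟩
  unfold ph pat
  rw [ZMod.val_intCast]
  push_cast
  rw [Int.emod_emod_of_dvd _ (dvd_refl _)]

lemma hh_le_ph (α β : L) (ρ R n : ℕ) (hρ : 1 ≤ ρ) (hR : 4 * ρ + 27 * n ≤ R) :
    (DL (hh α β ρ R) sgv).lawProb w5 n ≤ (DL (ph α β ρ) (tb ρ)).lawProb w5 n := by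
  haveI : NeZero (4 * ρ) := ⟨by omega⟩
  refine lawProb_mono _ _ _ _ _ _ fun t ht => ?_
  have h1 : ∀ (A : Type) [AddCommGroup A] (h : A → L) (τ : (Fin 6 → Bool) → A),
      (fun i => prd h τ (t i)) = ![prd h τ (t 0), prd h τ (t 1), prd h τ (t 2),
      prd h τ (t 3), prd h τ (t 4)] := by
    intro A _ h τ
    funext i
    fin_cases i <;> rfl
  rw [h1, lift_w5] at ht ⊢
  have hS := Sm_w5 (N := 4 * ρ) (R : ℤ) n (by positivity)
    (fun j => prd (hh α β ρ R) sgv (t j)) (fun j => prd (ph α β ρ) (tb ρ) (t j)) (fun j =>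
      Sm_prd _ _ _ (fun i hi => by
        rw [ph_cast α β ρ hρ]
        unfold hh
        rw [if_pos hi]) (t j))
  simp only [ht] at hS
  obtain ⟨_, h2, h3⟩ := hS
  ext k
  · have h4 := h3 (fun j => if j = 0 then (k.val : ℤ) else 0) (by
      intro j
      have hk : (k.val : ℤ) < 4 * ρ := by exact_mod_cast ZMod.val_lt k
      have hk0 : (0 : ℤ) ≤ k.val := by positivity
      have hR' : (4 * (ρ : ℤ) + 27 * n) ≤ R := by exact_mod_cast hR
      split_ifs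
      · rw [abs_of_nonneg hk0]
        linarith
      · rw [abs_zero]
        linarith [show (0 : ℤ) ≤ (ρ : ℤ) by positivity])
    simp only [if_true] at h4
    have h5 : (((k.val : ℕ) : ℤ) : ZMod (4 * ρ)) = k := by
      rw [Int.cast_natCast, ZMod.natCast_zmod_val]
    rw [h5] at h4
    exact h4.symm
  · rw [h2]
    simp

instance (ρ : ℕ) [NeZero (4 * ρ)] [Finite L] : Finite (Wr L (ZMod (4 * ρ))) := by
  refine Finite.of_injective (β := (ZMod (4 * ρ) → L) × ZMod (4 * ρ)) (fun x => (x.f, x.s)) ?_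
  intro x y h
  simp only [Prod.mk.injEq] at h
  exact Wr.ext h.1 h.2

lemma pat_zero (α β : L) (ρ : ℕ) (hρ : 1 ≤ ρ) : pat α β ρ 0 = α := by
  unfold pat
  rw [if_pos]
  rw [Int.zero_emod]
  exact_mod_cast hρ

lemma pat_neg (α β : L) (ρ : ℕ) (hρ : 1 ≤ ρ) : pat α β ρ (-1) = 1 := by
  have e : (-1 : ℤ) % (4 * ρ) = 4 * ρ - 1 := by
    have hr : (1 : ℤ) ≤ ρ := by exact_mod_cast hρ
    rw [← Int.add_emod_right]
    rw [Int.emod_eq_of_lt] <;> linarith
  have hr : (1 : ℤ) ≤ ρ := by exact_mod_cast hρ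
  unfold pat
  rw [e, if_neg (by linarith), if_neg]
  rintro ⟨_, h⟩
  linarith

lemma pat_two (α β : L) (ρ : ℕ) (hρ : 1 ≤ ρ) : pat α β ρ (2 * ρ) = β := by
  have hr : (1 : ℤ) ≤ ρ := by exact_mod_cast hρ
  have e : (2 * (ρ : ℤ)) % (4 * ρ) = 2 * ρ := by
    rw [Int.emod_eq_of_lt] <;> linarith
  unfold pat
  rw [e, if_neg (by linarith), if_pos]
  constructor <;> linarith

lemma pat_two' (α β : L) (ρ : ℕ) (hρ : 1 ≤ ρ) : pat α β ρ (2 * ρ - 1) = 1 := by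
  have hr : (1 : ℤ) ≤ ρ := by exact_mod_cast hρ
  have e : (2 * (ρ : ℤ) - 1) % (4 * ρ) = 2 * ρ - 1 := by
    rw [Int.emod_eq_of_lt] <;> linarith
  unfold pat
  rw [e, if_neg (by linarith), if_neg]
  rintro ⟨h, _⟩
  linarith

/-- The word fails with probability at least `1/32` for the periodic configuration. -/
theorem ph_gap [Finite L] (α β : L) (hαβ : ⁅β, α⁆ ≠ 1) (ρ : ℕ) (hρ : 1 ≤ ρ) :
    ∀ᶠ n in atTop, (DL (ph α β ρ) (tb ρ)).lawProb w5 n < 31 / 32 := by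
  haveI : NeZero (4 * ρ) := ⟨by omega⟩
  set D := DL (ph α β ρ) (tb ρ) with hD
  set H := Subgroup.closure {g | ∃ i, 0 < D.p i ∧ D.st i = g} with hH
  have hpos : ∀ i, 0 < D.p i := by
    rintro (_ | x)
    · exact (show (0 : ℝ) < 1 / 2 by norm_num)
    · exact (show (0 : ℝ) < 1 / 512 by norm_num)
  have hmem : ∀ i, D.st i ∈ H := fun i => Subgroup.subset_closure ⟨i, hpos i, rfl⟩
  haveI : Finite ↥H := Subtype.finite
  letI : Fintype ↥H := Fintype.ofFinite _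
  have h1 : 0 < (D.toSub H hmem).push 1 :=
    (D.toSub H hmem).push_pos none (hpos none)
  have h2 := Dist.closure_toSub D H hmem le_rfl
  have h3 : ∃ x y z v : ↥H, ⁅⁅x, y⁆, ⁅z, v⁆⁆ ≠ 1 := by
    have ht : (Wr.tr 1 : Wr L (ZMod (4 * ρ))) ∈ H := by
      have := hmem (some (false, (fun _ => true), false))
      have e : D.st (some (false, (fun _ => true), false)) = Wr.tr 1 := by
        change stepH (ph α β ρ) (tb ρ) _ = _
        ext k
        · rw [stepH_f]; simp [Wr.tr]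
        · rw [stepH_s]; simp [Wr.tr, tb, sgv, sg]
      rwa [e] at this
    have hh0 : (hb (ph α β ρ) true : Wr L (ZMod (4 * ρ))) ∈ H := by
      have := mul_mem (hmem (some (true, (fun _ => true), false))) (inv_mem ht)
      have e : D.st (some (true, (fun _ => true), false)) * (Wr.tr 1)⁻¹ =
          hb (ph α β ρ) true := by
        change stepH (ph α β ρ) (tb ρ) _ * _ = _
        ext k
        · rw [Wr.mul_f, stepH_f, stepH_s]; simp [Wr.tr, hb]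
        · rw [Wr.mul_s, stepH_s]; simp [Wr.tr, hb, tb, sgv, sg]
      rwa [e] at this
    have htp : ∀ k : ℕ, (Wr.tr (k : ZMod (4 * ρ)) : Wr L (ZMod (4 * ρ))) ∈ H := by
      intro k
      induction k with
      | zero => rw [Nat.cast_zero, Wr.tr_zero]; exact one_mem _
      | succ k ih => rw [Nat.cast_succ, Wr.tr_add]; exact mul_mem ih ht
    let x : ↥H := ⟨hb (ph α β ρ) true, hh0⟩
    let y : ↥H := ⟨Wr.tr 1, ht⟩
    let z : ↥H := ⟨Wr.tr ((2 * ρ : ℕ) : ZMod (4 * ρ)) * hb (ph α β ρ) true *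
      (Wr.tr ((2 * ρ : ℕ) : ZMod (4 * ρ)))⁻¹, mul_mem (mul_mem (htp _) hh0) (inv_mem (htp _))⟩
    refine ⟨x, y, z, y, fun hc => hαβ ?_⟩
    have h4 := congrArg (Subgroup.subtype H) hc
    simp only [map_commutatorElement, map_one] at h4
    change ⁅⁅hb (ph α β ρ) true, (Wr.tr 1 : Wr L (ZMod (4 * ρ)))⁆,
      ⁅Wr.tr ((2 * ρ : ℕ) : ZMod (4 * ρ)) * hb (ph α β ρ) true *
      (Wr.tr ((2 * ρ : ℕ) : ZMod (4 * ρ)))⁻¹, (Wr.tr 1 : Wr L (ZMod (4 * ρ)))⁆⁆ = 1 at h4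
    rw [Wr.comm_eq_one_iff (Wr.comm_s _ _) (Wr.comm_s _ _)] at h4
    have h5 := h4 (((2 * ρ : ℤ)) : ZMod (4 * ρ))
    have hb0 : (hb (ph α β ρ) true : Wr L (ZMod (4 * ρ))).s = 0 := rfl
    have hcs : (Wr.tr ((2 * ρ : ℕ) : ZMod (4 * ρ)) * hb (ph α β ρ) true *
      (Wr.tr ((2 * ρ : ℕ) : ZMod (4 * ρ)))⁻¹ : Wr L (ZMod (4 * ρ))).s = 0 :=
      Wr.conj_s _ _ hb0
    have hcf : ∀ k : ZMod (4 * ρ), (Wr.tr ((2 * ρ : ℕ) : ZMod (4 * ρ)) * hb (ph α β ρ) true *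
      (Wr.tr ((2 * ρ : ℕ) : ZMod (4 * ρ)))⁻¹ : Wr L (ZMod (4 * ρ))).f k =
        ph α β ρ (k - ((2 * ρ : ℕ) : ZMod (4 * ρ))) := by
      intro k
      rw [Wr.conj_f _ _ hb0]
      simp [Wr.tr, hb]
    rw [Wr.comm_f, Wr.comm_f, hcs, hcf, hcf] at h5
    simp only [Wr.tr, hb, if_true, sub_zero, inv_one, mul_one] at h5
    have k1 : ph α β ρ (((2 * ρ : ℤ)) : ZMod (4 * ρ)) = β := by
      rw [ph_cast α β ρ hρ, pat_two α β ρ hρ]
    have k2 : ph α β ρ ((((2 * ρ : ℤ)) : ZMod (4 * ρ)) - 1) = 1 := by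
      have : (((2 * ρ : ℤ)) : ZMod (4 * ρ)) - 1 = ((2 * ρ - 1 : ℤ) : ZMod (4 * ρ)) := by
        push_cast; rfl
      rw [this, ph_cast α β ρ hρ, pat_two' α β ρ hρ]
    have k3 : ph α β ρ ((((2 * ρ : ℤ)) : ZMod (4 * ρ)) - ((2 * ρ : ℕ) : ZMod (4 * ρ))) = α := by
      have : (((2 * ρ : ℤ)) : ZMod (4 * ρ)) - ((2 * ρ : ℕ) : ZMod (4 * ρ)) =
          ((0 : ℤ) : ZMod (4 * ρ)) := by
        push_cast; ring
      rw [this, ph_cast α β ρ hρ, pat_zero α β ρ hρ]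
    have k4 : ph α β ρ ((((2 * ρ : ℤ)) : ZMod (4 * ρ)) - 1 - ((2 * ρ : ℕ) : ZMod (4 * ρ))) =
        1 := by
      have : (((2 * ρ : ℤ)) : ZMod (4 * ρ)) - 1 - ((2 * ρ : ℕ) : ZMod (4 * ρ)) =
          ((-1 : ℤ) : ZMod (4 * ρ)) := by
        push_cast; ring
      rw [this, ph_cast α β ρ hρ, pat_neg α β ρ hρ]
    rw [k1, k2, k3, k4] at h5
    simpa using h5
  have h6 := eventually_gap (D.toSub H hmem) h1 h2 h3
  refine h6.mono fun n hn => ?_
  rwa [Dist.toSub_lawProb] at hn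

end Fail

end Pool.Agent.R901.WR
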