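import Pool.Agent.R901.WR.C3

/-!
The product of the block configurations: the probabilities of the word oscillate.
-/

open Finset Filter Topology
open scoped commutatorElement

namespace Pool.Agent.R901.WR

namespace Osc

/-- the permutation group of three letters -/
abbrev L3 := Equiv.Perm (Fin 3)
/-- a transposition -/
def al : L3 := Equiv.swap 0 1
/-- another transposition -/
def be : L3 := Equiv.swap 1 2

/-- map on lamps -/
def mapL {L L' A : Type} [Group L] [Group L'] [AddCommGroup A] (φ : L →* L') :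
    Wr L A →* Wr L' A where
  toFun x := ⟨fun i => φ (x.f i), x.s⟩
  map_one' := by ext <;> simp
  map_mul' x y := by
    ext i
    · simp only [Wr.mul_f, map_mul]
    · simp

lemma mapL_stepH {L L' A : Type} [Group L] [Group L'] [AddCommGroup A] (φ : L →* L')
    (h : A → L) (τ : (Fin 6 → Bool) → A) (x : Ix) :
    mapL φ (stepH h τ x) = stepH (fun i => φ (h i)) τ x := by
  ext i
  · change φ ((stepH h τ x).f i) = _
    rw [stepH_f, stepH_f, map_mul]
    congr 1
    · split_ifs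
      · rfl
      · exact map_one φ
    · split_ifs
      · rfl
      · exact map_one φ
  · change (stepH h τ x).s = _
    rw [stepH_s, stepH_s]

lemma mapL_prd {L L' A : Type} [Group L] [Group L'] [AddCommGroup A] (φ : L →* L')
    (h : A → L) (τ : (Fin 6 → Bool) → A) {n : ℕ} (t : Fin n → Option Ix) :
    mapL φ (prd h τ t) = prd (fun i => φ (h i)) τ t := by
  unfold prd
  rw [map_list_prod, List.map_ofFn]
  congr 2
  funext k
  simp only [Function.comp]
  rcases t k with _ | x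
  · exact map_one _
  · exact mapL_stepH φ h τ x

lemma lift_map {G H : Type} [Group G] [Group H] (φ : G →* H) {d : ℕ} (X : Fin d → G)
    (w : FreeGroup (Fin d)) : φ (FreeGroup.lift X w) = FreeGroup.lift (fun i => φ (X i)) w := by
  have : FreeGroup.lift (fun i => φ (X i)) = φ.comp (FreeGroup.lift X) := by
    ext i
    simp
  rw [this]; rfl

lemma exists_CC (ρ R : ℕ) : ∃ C : ℝ, 0 ≤ C ∧
    ∀ n : ℕ, 1 - (DL (hh al be ρ R) sgv).lawProb w5 n ≤ C / ((n : ℝ) + 1) :=
  decay _ _ (hh_support al be ρ R)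

/-- the constant in the decay -/
noncomputable def CC (ρ R : ℕ) : ℝ := (exists_CC ρ R).choose

lemma CC_nonneg (ρ R : ℕ) : 0 ≤ CC ρ R := (exists_CC ρ R).choose_spec.1

lemma CC_bound (ρ R n : ℕ) :
    1 - (DL (hh al be ρ R) sgv).lawProb w5 n ≤ CC ρ R / ((n : ℝ) + 1) :=
  (exists_CC ρ R).choose_spec.2 n

lemma exists_mB (ρ n0 : ℕ) : ∃ m, n0 ≤ m ∧
    (1 ≤ ρ → (DL (ph al be ρ) (tb ρ)).lawProb w5 m < 31 / 32) := by
  by_cases hρ : 1 ≤ ρ
  · have h := ph_gap al be (by simp only [commutatorElement_def]; decide) ρ hρ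
    obtain ⟨m, h1, h2⟩ := (h.and (eventually_ge_atTop n0)).exists
    exact ⟨m, h2, fun _ => h1⟩
  · exact ⟨n0, le_rfl, fun h => absurd h hρ⟩

/-- a time at which the word fails -/
noncomputable def mB (ρ n0 : ℕ) : ℕ := (exists_mB ρ n0).choose

lemma mB_ge (ρ n0 : ℕ) : n0 ≤ mB ρ n0 := (exists_mB ρ n0).choose_spec.1

lemma mB_lt (ρ n0 : ℕ) (hρ : 1 ≤ ρ) :
    (DL (ph al be ρ) (tb ρ)).lawProb w5 (mB ρ n0) < 31 / 32 :=
  (exists_mB ρ n0).choose_spec.2 hρ

/-- parameters -/
structure St where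
  ρ : ℕ
  R : ℕ
  m : ℕ
  n : ℕ
  S : ℝ

/-- next parameters -/
noncomputable def nxt (k : ℕ) (s : St) : St where
  ρ := 6 * s.n + 1
  R := 4 * (6 * s.n + 1) + 27 * mB (6 * s.n + 1) k
  m := mB (6 * s.n + 1) k
  n := ⌈(s.S + CC (6 * s.n + 1) (4 * (6 * s.n + 1) + 27 * mB (6 * s.n + 1) k)) * (k + 1)⌉₊ +
    s.n + k
  S := s.S + CC (6 * s.n + 1) (4 * (6 * s.n + 1) + 27 * mB (6 * s.n + 1) k)

/-- the sequence of parameters -/
noncomputable def sq : ℕ → St
  | 0 => ⟨0, 0, 0, 0, 0⟩
  | k + 1 => nxt k (sq k)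

lemma sq_n_mono (k : ℕ) : (sq k).n ≤ (sq (k + 1)).n := by
  change (sq k).n ≤ _ + (sq k).n + k
  omega

lemma sq_n_mono' {j k : ℕ} (h : j ≤ k) : (sq j).n ≤ (sq k).n := by
  induction k, h using Nat.le_induction with
  | base => exact le_rfl
  | succ k _ ih => exact ih.trans (sq_n_mono k)

lemma sq_n_ge (k : ℕ) : k ≤ (sq (k + 1)).n := by
  change k ≤ _ + (sq k).n + k
  omega

lemma sq_S (k : ℕ) : (sq k).S = ∑ j ∈ range k, CC (sq (j + 1)).ρ (sq (j + 1)).R := by
  induction k with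
  | zero => rfl
  | succ k ih =>
    rw [Finset.sum_range_succ, ← ih]
    rfl

lemma sq_S_nonneg (k : ℕ) : 0 ≤ (sq k).S := by
  rw [sq_S]
  exact Finset.sum_nonneg fun j _ => CC_nonneg _ _

lemma sq_frac (k : ℕ) : (sq (k + 1)).S / (((sq (k + 1)).n : ℝ) + 1) ≤ 1 / ((k : ℝ) + 1) := by
  rw [div_le_div_iff₀ (by positivity) (by positivity)]
  have h1 : (sq (k + 1)).S * (k + 1) ≤ (sq (k + 1)).n := by
    have h2 : (sq (k + 1)).n = ⌈(sq (k + 1)).S * (k + 1)⌉₊ + (sq k).n + k := rfl
    rw [h2]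
    push_cast
    have := Nat.le_ceil ((sq (k + 1)).S * (k + 1))
    linarith [show (0 : ℝ) ≤ (sq k).n by positivity, show (0 : ℝ) ≤ k by positivity]
  linarith

/-- the configuration -/
noncomputable def hinf (i : Fin 6 → ℤ) (k : ℕ) : L3 :=
  k.casesOn (if i = 0 then al else 1) fun k => hh al be (sq (k + 1)).ρ (sq (k + 1)).R i

lemma hinf_succ (k : ℕ) : (fun i => (Pi.evalMonoidHom (fun _ : ℕ => L3) (k + 1)) (hinf i)) =
    hh al be (sq (k + 1)).ρ (sq (k + 1)).R := rfl

/-- the lazy walk -/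
noncomputable def DI : Dist (Wr (ℕ → L3) (Fin 6 → ℤ)) := DL hinf sgv

lemma lift_comp {n : ℕ} (k : ℕ) (t : Fin 5 → Fin n → Option Ix) :
    mapL (Pi.evalMonoidHom (fun _ : ℕ => L3) k)
      (FreeGroup.lift (fun i => prd hinf sgv (t i)) w5) =
    FreeGroup.lift (fun i => prd (fun i => (Pi.evalMonoidHom (fun _ : ℕ => L3) k) (hinf i)) sgv
      (t i)) w5 := by
  rw [lift_map]
  simp only [mapL_prd]

lemma DI_upper (k n : ℕ) : DI.lawProb w5 n ≤
    (DL (hh al be (sq (k + 1)).ρ (sq (k + 1)).R) sgv).lawProb w5 n := by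
  rw [← hinf_succ k]
  refine lawProb_mono _ _ _ _ _ _ fun t ht => ?_
  rw [← lift_comp, ht, map_one]

lemma comp_zero {n : ℕ} (t : Fin 5 → Fin n → Option Ix) :
    FreeGroup.lift (fun i => prd (fun i => (Pi.evalMonoidHom (fun _ : ℕ => L3) 0) (hinf i)) sgv
      (t i)) w5 = 1 := by
  apply small_time
  intro c
  refine ⟨Subgroup.zpowers al, ?_, fun i _ => ?_⟩
  · rintro _ ⟨k, rfl⟩ _ ⟨l, rfl⟩
    simp only
    rw [← zpow_add, ← zpow_add, add_comm]
  · change (if i = 0 then al else 1) ∈ _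
    split_ifs
    · exact Subgroup.mem_zpowers al
    · exact one_mem _

lemma DI_lower (K n : ℕ) (hK : ∀ j, K ≤ j → 6 * n ≤ (sq (j + 1)).ρ) :
    1 - DI.lawProb w5 n ≤ ∑ j ∈ range K,
      (1 - (DL (hh al be (sq (j + 1)).ρ (sq (j + 1)).R) sgv).lawProb w5 n) := by
  classical
  unfold DI
  simp only [DL_lawProb']
  rw [Finset.sum_comm]
  refine Finset.sum_le_sum fun t _ => ?_
  rw [← Finset.mul_sum]
  refine mul_le_mul_of_nonneg_left ?_ (Finset.prod_nonneg fun i _ => wt_nonneg _)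
  by_cases hw : FreeGroup.lift (fun i => prd hinf sgv (t i)) w5 = 1
  · rw [if_pos hw]
    exact Finset.sum_nonneg fun j _ => by split_ifs <;> norm_num
  · rw [if_neg hw]
    obtain ⟨j, hj, hj'⟩ : ∃ j, j < K ∧ ¬ FreeGroup.lift (fun i =>
        prd (hh al be (sq (j + 1)).ρ (sq (j + 1)).R) sgv (t i)) w5 = 1 := by
      by_contra hc
      push Not at hc
      apply hw
      have hall : ∀ k, mapL (Pi.evalMonoidHom (fun _ : ℕ => L3) k)
          (FreeGroup.lift (fun i => prd hinf sgv (t i)) w5) = 1 := by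
        intro k
        rw [lift_comp]
        rcases k with _ | j
        · exact comp_zero t
        · rw [hinf_succ]
          rcases lt_or_ge j K with h | h
          · exact hc j h
          · exact hh_small al be _ _ n (hK j h) (by change 1 ≤ 6 * (sq j).n + 1; omega) t
      ext i k
      · exact congrArg Fin.val (congrArg (fun g : L3 => g _)
          (congrFun (congrArg Wr.f (hall k)) i))
      · exact congrFun (congrArg Wr.s (hall 0)) _
    have h1 : (1 : ℝ) ≤ ∑ j ∈ range K, if FreeGroup.lift (fun i =>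
        prd (hh al be (sq (j + 1)).ρ (sq (j + 1)).R) sgv (t i)) w5 = 1 then (0 : ℝ) else 1 := by
      have h2 := Finset.single_le_sum (f := fun j => if FreeGroup.lift (fun i =>
        prd (hh al be (sq (j + 1)).ρ (sq (j + 1)).R) sgv (t i)) w5 = 1 then (0 : ℝ) else 1)
        (fun j _ => by split_ifs <;> norm_num) (Finset.mem_range.2 hj)
      simp only [if_neg hj'] at h2
      exact h2
    exact h1

theorem DI_high (k : ℕ) : 1 - 1 / ((k : ℝ) + 1) ≤ DI.lawProb w5 (sq (k + 1)).n := by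
  have h1 := DI_lower (k + 1) (sq (k + 1)).n (fun j hj => by
    change _ ≤ 6 * (sq j).n + 1
    have := sq_n_mono' hj
    omega)
  have h2 : ∑ j ∈ range (k + 1),
      (1 - (DL (hh al be (sq (j + 1)).ρ (sq (j + 1)).R) sgv).lawProb w5 (sq (k + 1)).n) ≤
      (sq (k + 1)).S / (((sq (k + 1)).n : ℝ) + 1) := by
    rw [sq_S, Finset.sum_div]
    exact Finset.sum_le_sum fun j _ => CC_bound _ _ _
  have h3 := sq_frac k
  linarith

theorem DI_low (k : ℕ) : DI.lawProb w5 (sq (k + 1)).m < 31 / 32 := by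
  refine (DI_upper k _).trans_lt ?_
  refine lt_of_le_of_lt (hh_le_ph al be _ _ _ ?_ ?_) (mB_lt (6 * (sq k).n + 1) k (by omega))
  · change 1 ≤ 6 * (sq k).n + 1
    omega
  · exact le_rfl

lemma sq_m_ge (k : ℕ) : k ≤ (sq (k + 1)).m := mB_ge _ _

/-- the steps are different -/
lemma stepH_inj : Function.Injective (stepH hinf sgv) := by
  rintro ⟨a, ε, b⟩ ⟨a', ε', b'⟩ h
  have hs := congrArg Wr.s h
  rw [stepH_s, stepH_s] at hs
  have hε : ε = ε' := sgv_inj hs
  subst hε
  have hne : (0 : Fin 6 → ℤ) - sgv ε ≠ 0 := by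
    rw [zero_sub, neg_ne_zero]
    exact sgv_ne_zero ε
  have hal : al ≠ 1 := by decide
  have h0 := congrFun (congrFun (congrArg Wr.f h) 0) 0
  have h1 := congrFun (congrFun (congrArg Wr.f h) (sgv ε)) 0
  rw [stepH_f, stepH_f] at h0 h1
  have hv : ∀ (c : Bool) (i : Fin 6 → ℤ), ((if c then hinf i else 1) : ℕ → L3) 0 =
      if c then (if i = 0 then al else 1) else 1 := by
    intro c i
    cases c <;> rfl
  simp only [Pi.mul_apply, hv, if_neg hne, if_neg (sgv_ne_zero ε), sub_self, if_true,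
    ite_self, mul_one, one_mul] at h0 h1
  have ha : a = a' := by
    cases a <;> cases a' <;> simp [hal, hal.symm] at h0 ⊢
  have hb' : b = b' := by
    cases b <;> cases b' <;> simp [hal, hal.symm] at h1 ⊢
  rw [ha, hb']

lemma hinf_sq (i : Fin 6 → ℤ) : hinf i * hinf i = 1 := by
  have h1 : al * al = 1 := by decide
  have h2 : be * be = 1 := by decide
  funext k
  rcases k with _ | k
  · change (if i = 0 then al else 1) * (if i = 0 then al else 1) = 1
    split_ifs
    · exact h1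
    · rfl
  · change hh al be _ _ i * hh al be _ _ i = 1
    unfold hh pat
    split_ifs
    · exact h1
    · exact h2
    · rfl
    · rfl

lemma stepH_inv (x : Ix) : (stepH hinf sgv x)⁻¹ =
    stepH hinf sgv (x.2.2, (fun j => !(x.2.1 j)), x.1) := by
  have hb : ∀ b : Bool, sg (!b) = -(sg b) := by
    intro b
    cases b <;> simp [sg]
  have hs : sgv (fun j => !(x.2.1 j)) = - sgv x.2.1 := by
    funext j
    exact hb _
  have hi : ∀ i, (hinf i)⁻¹ = hinf i := fun i => by
    rw [inv_eq_iff_mul_eq_one]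
    exact hinf_sq i
  apply Wr.ext
  · funext i
    rw [Wr.inv_f, stepH_f, stepH_f, stepH_s, hs, mul_inv_rev, add_sub_cancel_right, sub_neg_eq_add]
    congr 1
    · split_ifs
      · exact hi _
      · exact inv_one
    · split_ifs
      · exact hi _
      · exact inv_one
  · rw [Wr.inv_s, stepH_s, stepH_s, hs]

end Osc

end Pool.Agent.R901.WR
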