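import Mathlib

/-!
Finite random elements of a group and their products.
-/

open Finset

namespace Pool.Agent.R901.WR

/-- A random element of `G` given by finitely many weighted outcomes. -/
structure Dist (G : Type) where
  ι : Type
  fi : Fintype ι
  p : ι → ℝ
  st : ι → G
  nn : ∀ i, 0 ≤ p i
  one : ∑ i, p i = 1

namespace Dist

variable {G H : Type}

instance (D : Dist G) : Fintype D.ι := D.fi

/-- expectation -/
def E (D : Dist G) (F : G → ℝ) : ℝ := ∑ i, D.p i * F (D.st i)

lemma E_mono (D : Dist G) {F F' : G → ℝ} (h : ∀ i, F (D.st i) ≤ F' (D.st i)) : D.E F ≤ D.E F' :=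
  Finset.sum_le_sum fun i _ => mul_le_mul_of_nonneg_left (h i) (D.nn i)

lemma E_const (D : Dist G) (c : ℝ) : D.E (fun _ => c) = c := by
  simp only [E, ← Finset.sum_mul, D.one, one_mul]

lemma E_add (D : Dist G) (F F' : G → ℝ) : D.E (fun g => F g + F' g) = D.E F + D.E F' := by
  simp only [E, mul_add, Finset.sum_add_distrib]

lemma E_sub (D : Dist G) (F F' : G → ℝ) : D.E (fun g => F g - F' g) = D.E F - D.E F' := by
  simp only [E, mul_sub, Finset.sum_sub_distrib]

lemma E_const_mul (D : Dist G) (c : ℝ) (F : G → ℝ) : D.E (fun g => c * F g) = c * D.E F := by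
  simp only [E, Finset.mul_sum]
  exact Finset.sum_congr rfl fun i _ => by ring

lemma E_mul_const (D : Dist G) (c : ℝ) (F : G → ℝ) : D.E (fun g => F g * c) = D.E F * c := by
  simp only [E, Finset.sum_mul]
  exact Finset.sum_congr rfl fun i _ => by ring

lemma E_sum (D : Dist G) {κ : Type*} (s : Finset κ) (F : κ → G → ℝ) :
    D.E (fun g => ∑ k ∈ s, F k g) = ∑ k ∈ s, D.E (F k) := by
  simp only [E, Finset.mul_sum]
  exact Finset.sum_comm

lemma E_nonneg (D : Dist G) {F : G → ℝ} (h : ∀ i, 0 ≤ F (D.st i)) : 0 ≤ D.E F := by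
  have := D.E_mono (F := fun _ => 0) h
  rwa [E_const] at this

lemma E_le (D : Dist G) {F : G → ℝ} {c : ℝ} (h : ∀ i, F (D.st i) ≤ c) : D.E F ≤ c := by
  have := D.E_mono (F' := fun _ => c) h
  rwa [E_const] at this

lemma E_ge (D : Dist G) {F : G → ℝ} {c : ℝ} (h : ∀ i, c ≤ F (D.st i)) : c ≤ D.E F := by
  have := D.E_mono (F := fun _ => c) h
  rwa [E_const] at this

lemma E_comm (D : Dist G) (D' : Dist H) (F : G → H → ℝ) :
    D.E (fun x => D'.E (fun y => F x y)) = D'.E (fun y => D.E (fun x => F x y)) := by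
  simp only [E, Finset.mul_sum]
  rw [Finset.sum_comm]
  exact Finset.sum_congr rfl fun i _ => Finset.sum_congr rfl fun j _ => by ring

variable [Group G] [Group H]

/-- product of `n` independent copies -/
def pow (D : Dist G) (n : ℕ) : Dist G where
  ι := Fin n → D.ι
  fi := inferInstance
  p := fun t => ∏ k, D.p (t k)
  st := fun t => (List.ofFn fun k => D.st (t k)).prod
  nn := fun t => Finset.prod_nonneg fun k _ => D.nn _
  one := by
    have h := Finset.prod_univ_sum (fun _ : Fin n => (Finset.univ : Finset D.ι))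
      (fun _ i => D.p i)
    rw [Fintype.piFinset_univ] at h
    rw [← h]
    simp [D.one]

lemma pow_E (D : Dist G) (n : ℕ) (F : G → ℝ) : (D.pow n).E F =
    ∑ t : Fin n → D.ι, (∏ k, D.p (t k)) * F (List.ofFn fun k => D.st (t k)).prod := rfl

lemma E_pow_zero (D : Dist G) (F : G → ℝ) : (D.pow 0).E F = F 1 := by
  rw [pow_E, Fintype.sum_eq_single (default : Fin 0 → D.ι)]
  · simp
  · intro x hx
    exact absurd (Subsingleton.elim x default) hx

lemma E_pow_succ (D : Dist G) (n : ℕ) (F : G → ℝ) :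
    (D.pow (n + 1)).E F = D.E (fun s => (D.pow n).E (fun g => F (s * g))) := by
  have h1 : (D.pow (n + 1)).E F = ∑ x : D.ι × (Fin n → D.ι),
      (∏ k, D.p ((Fin.consEquiv fun _ => D.ι) x k)) *
        F (List.ofFn fun k => D.st ((Fin.consEquiv fun _ => D.ι) x k)).prod := by
    rw [pow_E]
    exact (Equiv.sum_comp (Fin.consEquiv fun _ : Fin (n + 1) => D.ι)
      (fun t : Fin (n + 1) → D.ι => (∏ k, D.p (t k)) * F (List.ofFn fun k => D.st (t k)).prod)).symm
  rw [h1, Fintype.sum_prod_type]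
  simp only [pow_E]
  simp only [E, Finset.mul_sum]
  refine Finset.sum_congr rfl fun i _ => Finset.sum_congr rfl fun t _ => ?_
  rw [Fin.prod_univ_succ, List.ofFn_succ]
  simp only [Fin.consEquiv, Equiv.coe_fn_mk, Fin.cons_zero, Fin.cons_succ, List.prod_cons]
  ring

lemma E_pow_succ' (D : Dist G) (n : ℕ) (F : G → ℝ) :
    (D.pow (n + 1)).E F = (D.pow n).E (fun g => D.E (fun s => F (g * s))) := by
  induction n generalizing F with
  | zero =>
    rw [E_pow_succ, E_pow_zero]
    simp only [E_pow_zero, mul_one, one_mul]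
  | succ n ih =>
    rw [E_pow_succ, E_pow_succ]
    congr 1
    funext s
    rw [ih]
    simp only [mul_assoc]

/-- expectation over `d` independent copies -/
def Ed (D : Dist G) (d : ℕ) (F : (Fin d → G) → ℝ) : ℝ :=
  ∑ t : Fin d → D.ι, (∏ i, D.p (t i)) * F (fun i => D.st (t i))

lemma Ed_zero (D : Dist G) (F : (Fin 0 → G) → ℝ) : D.Ed 0 F = F ![] := by
  simp only [Ed]
  rw [Fintype.sum_eq_single (default : Fin 0 → D.ι)]
  · simp only [Finset.univ_eq_empty, Finset.prod_empty, one_mul]
    congr 1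
    exact Subsingleton.elim _ _
  · intro x hx
    exact absurd (Subsingleton.elim x default) hx

lemma Ed_succ (D : Dist G) (d : ℕ) (F : (Fin (d + 1) → G) → ℝ) :
    D.Ed (d + 1) F = D.E (fun g => D.Ed d (fun t => F (Fin.cons g t))) := by
  have h1 : D.Ed (d + 1) F = ∑ x : D.ι × (Fin d → D.ι),
      (∏ k, D.p ((Fin.consEquiv fun _ => D.ι) x k)) *
        F (fun k => D.st ((Fin.consEquiv fun _ => D.ι) x k)) := by
    simp only [Ed]
    exact (Equiv.sum_comp (Fin.consEquiv fun _ : Fin (d + 1) => D.ι)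
      (fun t : Fin (d + 1) → D.ι => (∏ k, D.p (t k)) * F (fun k => D.st (t k)))).symm
  rw [h1, Fintype.sum_prod_type]
  simp only [E, Ed, Finset.mul_sum]
  refine Finset.sum_congr rfl fun i _ => Finset.sum_congr rfl fun t _ => ?_
  rw [Fin.prod_univ_succ]
  simp only [Fin.consEquiv, Equiv.coe_fn_mk, Fin.cons_zero, Fin.cons_succ]
  have h2 : (fun k : Fin (d + 1) => D.st ((Fin.cons i t : Fin (d + 1) → D.ι) k)) =
      Fin.cons (D.st i) (fun k => D.st (t k)) := by
    funext k
    refine Fin.cases ?_ (fun k => ?_) k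
    · simp
    · simp
  rw [h2]
  ring

/-- the probability that `d` independent products of `n` steps satisfy `w = 1` -/
noncomputable def lawProb (D : Dist G) {d : ℕ} (w : FreeGroup (Fin d)) (n : ℕ) : ℝ :=
  open Classical in
  (D.pow n).Ed d (fun g => if FreeGroup.lift g w = 1 then 1 else 0)

lemma pow_congr {D : Dist G} {D' : Dist G} (h : ∀ F, D.E F = D'.E F) (n : ℕ) (F : G → ℝ) :
    (D.pow n).E F = (D'.pow n).E F := by
  induction n generalizing F with
  | zero => rw [E_pow_zero, E_pow_zero]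
  | succ n ih =>
    rw [E_pow_succ, E_pow_succ, h]
    congr 1
    funext s
    exact ih _

lemma Ed_congr {D : Dist G} {D' : Dist G} (h : ∀ F, D.E F = D'.E F) (d : ℕ)
    (F : (Fin d → G) → ℝ) : D.Ed d F = D'.Ed d F := by
  induction d with
  | zero => rw [Ed_zero, Ed_zero]
  | succ d ih =>
    rw [Ed_succ, Ed_succ, h]
    congr 1
    funext s
    exact ih _

lemma lawProb_congr {D : Dist G} {D' : Dist G} (h : ∀ F, D.E F = D'.E F) {d : ℕ}
    (w : FreeGroup (Fin d)) (n : ℕ) : D.lawProb w n = D'.lawProb w n :=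
  Ed_congr (pow_congr h n) d _

/-- image under a map -/
def map {G H : Type} (φ : G → H) (D : Dist G) : Dist H where
  ι := D.ι
  fi := D.fi
  p := D.p
  st := fun i => φ (D.st i)
  nn := D.nn
  one := D.one

lemma E_map {G H : Type} (φ : G → H) (D : Dist G) (F : H → ℝ) :
    (D.map φ).E F = D.E (fun g => F (φ g)) := rfl

lemma pow_map (φ : G →* H) (D : Dist G) (n : ℕ) (F : H → ℝ) :
    ((D.map φ).pow n).E F = (D.pow n).E (fun g => F (φ g)) := by
  induction n generalizing F with
  | zero => rw [E_pow_zero, E_pow_zero, map_one]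
  | succ n ih =>
    rw [E_pow_succ, E_pow_succ, E_map]
    congr 1
    funext s
    rw [ih]
    simp only [map_mul]

lemma Ed_map (φ : G → H) (D : Dist G) (d : ℕ) (F : (Fin d → H) → ℝ) :
    (D.map φ).Ed d F = D.Ed d (fun t => F (fun i => φ (t i))) := rfl

/-- The probability does not change when the group is enlarged. -/
lemma lawProb_map (φ : G →* H) (hφ : Function.Injective φ) (D : Dist G) {d : ℕ}
    (w : FreeGroup (Fin d)) (n : ℕ) : (D.map φ).lawProb w n = D.lawProb w n := by
  classical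
  unfold lawProb
  have h1 : ∀ F : H → ℝ, ((D.map φ).pow n).E F = ((D.pow n).map φ).E F := fun F => by
    rw [pow_map, E_map]
  rw [Ed_congr h1, Ed_map]
  congr 1
  funext t
  have h2 : FreeGroup.lift (fun i => φ (t i)) w = φ (FreeGroup.lift t w) := by
    have : FreeGroup.lift (fun i => φ (t i)) = φ.comp (FreeGroup.lift t) := by
      ext i
      simp
    rw [this]; rfl
  rw [h2]
  have h3 : φ (FreeGroup.lift t w) = 1 ↔ FreeGroup.lift t w = 1 := by
    rw [← map_one φ]
    exact hφ.eq_iff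
  simp only [h3]

lemma pow_nonneg (D : Dist G) (n : ℕ) {F : G → ℝ} (h : ∀ g, 0 ≤ F g) : 0 ≤ (D.pow n).E F :=
  E_nonneg _ fun _ => h _

lemma lawProb_nonneg (D : Dist G) {d : ℕ} (w : FreeGroup (Fin d)) (n : ℕ) :
    0 ≤ D.lawProb w n := by
  classical
  unfold lawProb Ed
  refine Finset.sum_nonneg fun t _ => mul_nonneg (Finset.prod_nonneg fun i _ => (D.pow n).nn _) ?_
  dsimp only
  split_ifs <;> norm_num

lemma Ed_const (D : Dist G) (d : ℕ) (c : ℝ) : D.Ed d (fun _ => c) = c := by
  induction d with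
  | zero => rw [Ed_zero]
  | succ d ih => rw [Ed_succ]; simp only [ih]; exact E_const _ _

lemma Ed_mono (D : Dist G) (d : ℕ) {F F' : (Fin d → G) → ℝ} (h : ∀ t, F t ≤ F' t) :
    D.Ed d F ≤ D.Ed d F' :=
  Finset.sum_le_sum fun t _ => mul_le_mul_of_nonneg_left (h _)
    (Finset.prod_nonneg fun i _ => D.nn _)

lemma lawProb_le_one (D : Dist G) {d : ℕ} (w : FreeGroup (Fin d)) (n : ℕ) :
    D.lawProb w n ≤ 1 := by
  classical
  unfold lawProb
  refine le_trans (Ed_mono _ d (F' := fun _ => 1) fun t => ?_) (Ed_const _ _ _).le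
  split_ifs <;> norm_num

/-- the law of the inverse -/
lemma pow_inv (D D' : Dist G) (h : ∀ F, D'.E F = D.E (fun g => F g⁻¹)) (n : ℕ) (F : G → ℝ) :
    (D'.pow n).E F = (D.pow n).E (fun g => F g⁻¹) := by
  induction n generalizing F with
  | zero => rw [E_pow_zero, E_pow_zero, inv_one]
  | succ n ih =>
    rw [E_pow_succ', ih, E_pow_succ]
    simp only [h, mul_inv_rev]
    rw [E_comm]

end Dist

end Pool.Agent.R901.WR
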